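import Pool.Agent.Lib.DT.E.SpecB

/-!
# Theorem DT, part E, module Ab: `FixI` is stable under `Gal(Om/K)`
-/

set_option autoImplicit false

open scoped Pointwise nonZeroDivisors

noncomputable section

namespace Pool.Agent.DT.Eb

open Pool.Agent.MuZ Pool.Agent.FW NumberField IsDedekindDomain Pool.Agent.DT

/-- **`FixI` is stable under `Gal(Om/K)`.** -/
theorem tAb : S_E1 → S_O7 → S_Ab := by
  intro h1 h7 k t _ n H hn hray τ hτ x hx σ hσ a ha hHa
  obtain ⟨hE, hU, -, -, -⟩ := h1 k t n hn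
  obtain ⟨r1, r2, r3, r4, -⟩ := h7 k t n hn
  obtain ⟨u, hu, -⟩ := hE τ hτ 1 one_pos
  obtain ⟨u', hu', -⟩ := hE τ⁻¹ (inv_mem hτ) 1 one_pos
  have e1 := psi_mul hu' hu
  rw [inv_mul_cancel] at e1
  have e2 : Ray n (u' * u) ⊤ := hU 1 _ _ e1 (psi_top n)
  have e3 : Ray n ((u' * u) * a) (⊤ * a) := r4 _ _ _ _ e2 (r1 a)
  rw [Ideal.top_mul] at e3
  have e4 : Ray n a (u' * (a * u)) := by
    have e : u' * (a * u) = u' * u * a := by ring
    rw [e]
    exact r2 _ _ e3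
  have h4 : H (u' * (a * u)) := hray _ _ hHa e4
  have h5 := hx (τ⁻¹ * (σ * τ)) (mul_mem (inv_mem hτ) (mul_mem hσ hτ)) _
    (psi_mul hu' (psi_mul ha hu)) h4
  have h6 := congrArg τ h5
  rwa [← AlgEquiv.mul_apply, mul_inv_cancel_left, AlgEquiv.mul_apply] at h6

end Pool.Agent.DT.Eb
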