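import Pool.Agent.Lib.DT.E.SpecB

/-!
# Theorem DT, part E, module AbB: primes above `q`
-/

set_option autoImplicit false

open scoped Pointwise nonZeroDivisors

noncomputable section

namespace Pool.Agent.DT.Eb

open Pool.Agent.MuZ Pool.Agent.FW NumberField IsDedekindDomain Pool.Agent.DT
open Pool.Agent.DI (VP MP UP)

/-- `toO` as a ring homomorphism to `ZZ`. -/
private def AbB_j (k t : ℕ) [SqT k t] : OO k t →+* ZZ where
  toFun v := ⟨toO v, toO_integral v⟩
  map_one' := Subtype.ext toO_one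
  map_mul' v u := Subtype.ext (toO_mul v u)
  map_zero' := Subtype.ext toO_zero
  map_add' v u := Subtype.ext (toO_add v u)

private lemma AbB_iff (k t : ℕ) [SqT k t] (Q : Ideal ZZ) [Q.IsPrime] (v : OO k t) :
    MP Q (toO v) ↔ AbB_j k t v ∈ Q := DI.MP.coe_iff (P := Q) (AbB_j k t v)

private lemma AbB_abv (k t : ℕ) [SqT k t] (Q : Ideal ZZ) [Q.IsPrime] (a : Ideal (OO k t)) :
    Abv Q a ↔ a ≤ Q.comap (AbB_j k t) := by
  constructor
  · intro h v hv
    exact (AbB_iff k t Q v).1 (h v hv)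
  · intro h v hv
    exact (AbB_iff k t Q v).2 (h hv)

theorem tAbB : S_AbB := by
  intro k t _
  refine ⟨?_, ?_⟩
  · intro q hq hq0
    let _ : Algebra (OO k t) ZZ := (AbB_j k t).toAlgebra
    have hinj : Function.Injective (AbB_j k t) := fun u v h => toO_inj (congrArg Subtype.val h)
    have : Algebra.IsIntegral (OO k t) ZZ := ⟨fun x => by
      have h1 : IsIntegral ℤ x := Algebra.IsIntegral.isIntegral x
      exact h1.tower_top⟩
    obtain ⟨Q, hQ, hQq⟩ := Ideal.exists_ideal_over_prime_of_isIntegral_of_isDomain (S := ZZ) q (by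
      intro x hx
      have h1 : AbB_j k t x = 0 := hx
      have h2 : x = 0 := hinj (by rw [h1, map_zero])
      rw [h2]
      exact q.zero_mem)
    refine ⟨Q, ⟨hQ, ?_⟩, ?_⟩
    · rintro rfl
      apply hq0
      rw [← hQq, eq_bot_iff]
      intro x hx
      have h1 : AbB_j k t x = 0 := hx
      have h2 : x = 0 := hinj (by rw [h1, map_zero])
      exact h2
    · rw [AbB_abv]
      exact hQq.ge
  · intro Q q l hQ hq ha
    obtain ⟨hQ1, hQ2⟩ := hQ
    obtain ⟨-, -, hl, hN⟩ := hq
    have h1 : ((l : ℕ) : OO k t) ∈ q := by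
      have h2 : Nat.card (OO k t ⧸ q) • (1 : OO k t ⧸ q) = 0 := card_nsmul_eq_zero'
      rw [show Nat.card (OO k t ⧸ q) = l from hN, nsmul_eq_mul, mul_one] at h2
      rw [← Ideal.Quotient.eq_zero_iff_mem, map_natCast]
      exact h2
    have h3 : MP Q (l : Om) := by
      have := ha _ h1
      rwa [toO_nat] at this
    refine ⟨h3, fun n hn => ⟨DI.VP.int n, fun h5 => ?_⟩⟩
    have h6 : IsCoprime (l : ℤ) n := by
      rw [(Nat.prime_iff_prime_int.1 hl).coprime_iff_not_dvd]
      exact hn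
    obtain ⟨a, b, hab⟩ := h6
    have h7 : MP Q (((a : ℤ) : Om) * (l : Om) + ((b : ℤ) : Om) * (n : Om)) :=
      DI.MP.add (DI.MP.mul_left (DI.VP.int a) h3) (DI.MP.mul_left (DI.VP.int b) h5)
    have h8 : ((a : ℤ) : Om) * (l : Om) + ((b : ℤ) : Om) * (n : Om) = 1 := by
      have := congrArg (fun t : ℤ => (t : Om)) hab
      push_cast at this
      exact this
    rw [h8] at h7
    exact DI.MP.one_not h7

end Pool.Agent.DT.Eb
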