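import Pool.Agent.Lib.DT.E.SpecB

/-!
# Theorem DT, part E: complex conjugation, elementary part (module `Cj1`, adapted from `DK/E/Cj.lean`)
-/

set_option autoImplicit false

open scoped Pointwise nonZeroDivisors

noncomputable section

namespace Pool.Agent.DT.Eb

open Pool.Agent.MuZ Pool.Agent.FW NumberField IsDedekindDomain Pool.Agent.DT
open Pool.Agent.DI (io ofC io_inj exists_io io_ofC ofC_io)

section cj

variable {c : Gal(Om/ℚ)} (hc : IsCj c)

include hc

private lemma Cj1_cc (x : Om) : c (c x) = x := by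
  apply io_inj
  rw [hc, hc, Complex.conj_conj]

private lemma Cj1_w (k t : ℕ) [SqT k t] : c (wO k t) = t - wO k t := by
  apply io_inj
  rw [hc, io_wO, conj_wC, map_sub, map_natCast, io_wO]

private lemma Cj1_or (k t : ℕ) [SqT k t] (g : Gal(Om/ℚ)) : g ∈ GK k t ∨ c * g ∈ GK k t := by
  have h1 : (g (wO k t)) ^ 2 = t * g (wO k t) - 3 * k := by
    rw [← map_pow, wO_sq, map_sub, map_mul, map_mul, map_ofNat, map_natCast, map_natCast]
  have h2 : (g (wO k t) - wO k t) * (g (wO k t) - (t - wO k t)) = 0 := by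
    linear_combination h1 - wO_sq (k := k) (t := t)
  rcases mul_eq_zero.1 h2 with h | h
  · left
    rw [mem_GK_iff]
    exact sub_eq_zero.1 h
  · right
    rw [mem_GK_iff, AlgEquiv.mul_apply, sub_eq_zero.1 h, map_sub, map_natCast, Cj1_w hc k t,
      sub_sub_cancel]

private lemma Cj1_GK (k t : ℕ) [SqT k t] {τ : Gal(Om/ℚ)} (hτ : τ ∈ GK k t) :
    c * τ * c ∈ GK k t := by
  rw [mem_GK_iff, AlgEquiv.mul_apply, AlgEquiv.mul_apply, Cj1_w hc k t, map_sub, map_natCast,
    mem_GK_iff.1 hτ, map_sub, map_natCast, Cj1_w hc k t, sub_sub_cancel]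

end cj

theorem tCj1 : S_Cj1 := by
  intro k t _ c hc
  exact ⟨AlgEquiv.ext fun x => Cj1_cc hc x, Cj1_w hc k t, Cj1_or hc k t,
    fun τ hτ => Cj1_GK hc k t hτ⟩

end Pool.Agent.DT.Eb
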