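import Pool.Agent.Lib.DT.E.SpecB

/-!
# Theorem DT, part E, module CjA: complex conjugation and the numbers `Al`
-/

set_option autoImplicit false

open scoped Pointwise nonZeroDivisors

noncomputable section

namespace Pool.Agent.DT.Eb

open Pool.Agent.MuZ Pool.Agent.FW NumberField IsDedekindDomain Pool.Agent.DT
open Pool.Agent.DI (io ofC io_inj exists_io io_ofC ofC_io VP MP UP TP ex)

variable {k t : ℕ}

/-- The relation between `Al` and the values at `T`, `T + S`, `T - S`. -/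
private theorem CjA_rel [SqT k t] (h1 : S_B1) (h4 : S_B4) (h6a : S_L6a) (hR1 : S_R1) (hR4 : S_R4)
    {e : Ideal (OO k t)} (he : e ≠ ⊥) {T S : ℂ} (hT : T - ptT e ∈ Lam e ∨ T + ptT e ∈ Lam e)
    (hS : S - ptS e ∈ Lam e ∨ S + ptS e ∈ Lam e) (t1 : Tor k t T) (t2 : Tor k t (T + S))
    (t3 : Tor k t (T - S)) :
    xO e T ≠ 0 ∧ aO e * xO e T + 1 = (xO e (T + S) + xO e (T - S)) * xO e T ^ 2 := by
  obtain ⟨hper, -⟩ := h1 k t e he
  obtain ⟨⟨-, a1, -⟩, -, ⟨-, -, a2, a3, -⟩, -⟩ := h6a k t e he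
  -- the points are not periods
  have b1 : T ∉ Lam e := by
    intro h
    rcases hT with hT | hT
    · exact a1 ((lam_sub_iff hT).1 h)
    · exact a1 ((lam_add_left_iff h).1 hT)
  have b2 : T + ptS e ∉ Lam e := by
    intro h
    rcases hT with hT | hT
    · apply a2
      have e1 : ptS e + ptT e = (T + ptS e) - (T - ptT e) := by ring
      rw [e1]
      exact lam_sub h hT
    · apply a3
      have e1 : ptS e - ptT e = (T + ptS e) - (T + ptT e) := by ring
      rw [e1]
      exact lam_sub h hT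
  have b3 : T - ptS e ∉ Lam e := by
    intro h
    rcases hT with hT | hT
    · apply a3
      have e1 : ptS e - ptT e = (T - ptT e) - (T - ptS e) := by ring
      rw [e1]
      exact lam_sub hT h
    · apply a2
      have e1 : ptS e + ptT e = (T + ptT e) - (T - ptS e) := by ring
      rw [e1]
      exact lam_sub hT h
  obtain ⟨c1, -, c2, -⟩ := (h4 k t e he).1 T b1 b2 b3
  have c3 : XC e (T + S) + XC e (T - S) = XC e (T + ptS e) + XC e (T - ptS e) := by
    rcases hS with hS | hS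
    · have e1 : T + S = (T + ptS e) + (S - ptS e) := by ring
      have e2 : T - S = (T - ptS e) + -(S - ptS e) := by ring
      rw [e1, e2, (hper _ _ hS).2.2, (hper _ _ (lam_neg hS)).2.2]
    · have e1 : T + S = (T - ptS e) + (S + ptS e) := by ring
      have e2 : T - S = (T + ptS e) + -(S + ptS e) := by ring
      rw [e1, e2, (hper _ _ hS).2.2, (hper _ _ (lam_neg hS)).2.2, add_comm]
  have hx := (hR4.1 k t e he).2
  have ha := (hR1 k t e he).1
  refine ⟨?_, ?_⟩
  · intro h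
    apply c1
    rw [← hx T t1, h, map_zero]
  · apply io_inj
    rw [map_add, map_mul, map_one, map_mul, map_add, map_pow, ha, hx _ t1, hx _ t2, hx _ t3, c3, c2]

theorem tCjA : S_CjX → S_B1 → S_B4 → S_L6a → S_L6 → S_O3 → S_O4 → S_R1 → S_R4 → S_CjA := by
  intro hX h1 h4 h6a h6 hO3 hO4 hR1 hR4 k t _ c hc τ hτ n a hn hn3 hpsi b hb
  obtain ⟨o1, o2, o3, o4, o5, o6, o7, o8⟩ := hO3 k t
  obtain ⟨q1, -⟩ := hO4 k t
  have ha : a ≠ ⊥ := hpsi.ne
  have hca : cjI a ≠ ⊥ := o7 a ha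
  have hd : cjI a * b ≠ ⊥ := ne_mul hca hb
  have hpa : PrI (cjI a) (sN k t 3) := by
    have h := (o6 a (sN k t 3)).2 (pri_mono hpsi.cop hn3)
    rwa [o5] at h
  obtain ⟨r1, r2', -⟩ := (h6 k t b hb).2.2.1 (cjI a) hca hpa
  have hcn : cjI n ≤ sN k t 3 := by
    intro v hv
    have h := hn3 ((o1 n v).1 hv)
    have h' := (o1 (sN k t 3) v).2 h
    rwa [o5] at h'
  have hpp : sN k t 3 ≤ pp k t := by
    rw [← q1]
    exact Ideal.mul_le_left
  have hppb : sN k t 3 ≤ ppb k t := by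
    rw [← q1]
    exact Ideal.mul_le_right
  obtain ⟨⟨s1, -⟩, ⟨s2, -⟩, -⟩ := h6a k t b hb
  have m1 : ptT b ∈ Lam (cjI n * b) := lam_anti (Ideal.mul_mono_left (hcn.trans hpp)) s1
  have m2 : ptS b ∈ Lam (cjI n * b) := lam_anti (Ideal.mul_mono_left (hcn.trans hppb)) s2
  have m3 : ptT b + ptS b ∈ Lam (cjI n * b) := lam_add m1 m2
  have m4 : ptT b - ptS b ∈ Lam (cjI n * b) := lam_sub m1 m2
  have hnb : cjI n * b ≠ ⊥ := ne_mul (o7 n hn) hb
  have t1 : Tor k t (ptT b) := tor_lam hnb m1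
  have t2 : Tor k t (ptT b + ptS b) := tor_lam hnb m3
  have t3 : Tor k t (ptT b - ptS b) := tor_lam hnb m4
  -- the relation for `b`
  obtain ⟨-, u1⟩ := CjA_rel h1 h4 h6a hR1 hR4 hb (T := ptT b) (S := ptS b)
    (Or.inl (by rw [sub_self]; exact lam_zero b)) (Or.inl (by rw [sub_self]; exact lam_zero b))
    t1 t2 t3
  -- the relation for `cjI a * b`
  obtain ⟨u2, u3⟩ := CjA_rel h1 h4 h6a hR1 hR4 hd (T := ptT b) (S := ptS b)
    (r1.imp (fun h => by
      have h' := lam_neg h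
      rwa [neg_sub] at h') (fun h => by rwa [add_comm] at h))
    (r2'.imp (fun h => by
      have h' := lam_neg h
      rwa [neg_sub] at h') (fun h => by rwa [add_comm] at h))
    t1 t2 t3
  have x1 := hX k t c hc τ hτ n a hn hn3 hpsi b hb _ m1
  have x2 := hX k t c hc τ hτ n a hn hn3 hpsi b hb _ m3
  have x3 := hX k t c hc τ hτ n a hn hn3 hpsi b hb _ m4
  have u4 := congrArg (c * τ * c) u1
  rw [map_add, map_mul, map_one, map_mul, map_add, map_pow, x1, x2, x3, ← u3] at u4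
  have u5 : (c * τ * c) (aO b) * xO (cjI a * b) (ptT b) =
      aO (cjI a * b) * xO (cjI a * b) (ptT b) := add_right_cancel u4
  exact mul_right_cancel₀ u2 u5

end Pool.Agent.DT.Eb
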