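import Pool.Agent.Lib.DT.E.SpecB

/-!
# Theorem DT, part E: normality over `ℚ` (module `CjN`, adapted from the end of `DK/E/Cj.lean`)
-/

set_option autoImplicit false

open scoped Pointwise nonZeroDivisors

noncomputable section

namespace Pool.Agent.DT.Eb

open Pool.Agent.MuZ Pool.Agent.FW NumberField IsDedekindDomain Pool.Agent.DT
open Pool.Agent.DI (io ofC io_inj exists_io io_ofC ofC_io)

/-- **Normality over `ℚ`.** -/
theorem tCjN : S_Cj1 → S_CjP → S_Ab → S_R4 → S_CjN := by
  rintro h1 hP hAb ⟨-, c, hc, -⟩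
  intro k t _ n H hn hray hcn hcj g x hx
  have hc' : IsCj c := hc
  obtain ⟨hcc, -, hor, -⟩ := h1 k t c hc'
  obtain ⟨-, -, hpsi⟩ := hP k t c hc'
  have hccx : ∀ y : Om, c (c y) = y := by
    intro y
    have h := congrArg (fun s : Gal(Om/ℚ) => s y) hcc
    simpa [AlgEquiv.mul_apply] using h
  rcases hor g with hg | hg
  · exact hAb k t n H hn hray g hg x hx
  · have h6 := hAb k t n H hn hray _ hg x hx
    have h7 : c ((c * g) x) ∈ FixI n H := by
      intro τ hτ a ha h
      obtain ⟨hτ', hp⟩ := hpsi τ hτ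
      have hp' := hp n a hn ha
      rw [hcn] at hp'
      have h8 := h6 _ hτ' _ hp' (hcj a h)
      rw [AlgEquiv.mul_apply, AlgEquiv.mul_apply] at h8
      have h9 := congrArg c h8
      rwa [hccx] at h9
    rwa [AlgEquiv.mul_apply, hccx] at h7

end Pool.Agent.DT.Eb
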