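import Pool.Agent.Lib.DT.E.SpecB

/-!
# Theorem DT, part E: the action of `c τ c` (`S_E9`, first item)
-/

set_option autoImplicit false

namespace Pool.Agent.DT.Eb

open Pool.Agent.MuZ Pool.Agent.FW NumberField IsDedekindDomain Pool.Agent.DT

theorem tCjP (h1 : S_Cj1) (hX : S_CjX) (hA : S_CjA) (hE1 : S_E1) (hO3 : S_O3) : S_CjP := by
  intro k t _ c hc
  obtain ⟨c1, c2, -, c3⟩ := h1 k t c hc
  obtain ⟨o1, -, -, -, -, o6, -, o8⟩ := hO3 k t
  refine ⟨c1, c2, fun τ hτ => ⟨c3 τ hτ, fun n a hn hP => ?_⟩⟩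
  have hn' : n * sN k t 3 ≠ ⊥ := ne_mul hn (ne_sN (by omega))
  obtain ⟨a', ha', -⟩ := (hE1 k t (n * sN k t 3) hn').1 τ hτ 1 one_pos
  have ha'' : Psi τ n a' := psi_level ha' Ideal.mul_le_left
  have hr : Ray (cjI n) (cjI a') (cjI a) := o8 _ _ _ ((hE1 k t n hn).2.1 τ a' a ha'' hP)
  have hle : n * sN k t 3 ≤ sN k t 3 := Ideal.mul_le_right
  have hP' : Psi (c * τ * c) (cjI (n * sN k t 3)) (cjI a') :=
    { ne := ne_cj hO3 ha'.ne
      cop := (o6 _ _).2 ha'.cop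
      aa := fun b hb => hA k t c hc τ hτ _ a' hn' hle ha' b hb
      xx := fun b hb z hz => hX k t c hc τ hτ _ a' hn' hle ha' b hb z hz }
  have hmono : cjI (n * sN k t 3) ≤ cjI n := fun v hv =>
    (o1 n v).2 (Ideal.mul_le_left ((o1 _ v).1 hv))
  exact (hE1 k t (cjI n) (ne_cj hO3 hn)).2.2.1 _ _ _ (psi_level hP' hmono) hr

end Pool.Agent.DT.Eb
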