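import Pool.Agent.Lib.DT.E.SpecB

/-!
# Theorem DT, part E, module CjX: complex conjugation and the values `X(z)`
-/

set_option autoImplicit false

open scoped Pointwise nonZeroDivisors

noncomputable section

namespace Pool.Agent.DT.Eb

open Pool.Agent.MuZ Pool.Agent.FW NumberField IsDedekindDomain Pool.Agent.DT
open Pool.Agent.DI (io ofC io_inj exists_io io_ofC ofC_io VP MP UP TP ex)

private theorem CjX_T {k t : ℕ} [SqT k t] (hB1 : S_B1) {b : Ideal (OO k t)} (hb : b ≠ ⊥)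
    {x y : ℂ} (h : x - y ∈ Lam b ∨ x + y ∈ Lam b) : xO b x = xO b y := by
  obtain ⟨h1, h2, -⟩ := hB1 k t b hb
  have h3 : XC b x = XC b y := by
    rcases h with h | h
    · have e : x = y + (x - y) := by ring
      rw [e]
      exact (h1 y _ h).2.2
    · have e : x = -y + (x + y) := by ring
      rw [e]
      exact (h1 (-y) _ h).2.2.trans (h2 y).2.2
  unfold xO
  rw [h3]

theorem tCjX : S_Cj1 → S_B1 → S_B7 → S_E10 → S_L2 → S_L6a → S_L6 → S_O3 → S_R4 → S_CjX := by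
  rintro hCj hB1 hB7 hE10 hL2 hL6a hL6 hO3 ⟨hio, c0, hc0, hcc⟩
  intro k t _ c hc τ hτ n a hn hn3 ha b hb z hz
  have hcc0 : c0 = c := AlgEquiv.ext fun x => io_inj (by rw [hc, hc0])
  subst hcc0
  obtain ⟨-, o2, o3, -, -, -, o7, -⟩ := hO3 k t
  have c1 : ∀ x : Om, c0 (c0 x) = x := fun x => congrArg (fun g : Gal(Om/ℚ) => g x)
    (hCj k t c0 hc).1
  have hb' : cjI b ≠ ⊥ := o7 b hb
  have hab' : a * cjI b ≠ ⊥ := ne_mul ha.ne hb'
  have hd : cjI a * b ≠ ⊥ := ne_mul (o7 a ha.ne) hb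
  have hcd : cjI (cjI a * b) = a * cjI b := by rw [o2, (o3 a).1]
  have hzt : Tor k t z := tor_lam (ne_mul (o7 n hn) hb) hz
  -- the point `z'`
  have hz' : (starRingEnd ℂ) z ∈ Lam (n * cjI b) := by
    rw [← (hL2 k t).2.2.2.2.2.2.2.1, o2, (o3 b).1]
    exact hz
  -- the point `T'`
  have hT' : ptT (cjI b) ∈ Lam (n * cjI b) := by
    have h3 : sN k t 3 ≤ pp k t := by
      rw [Ideal.span_singleton_le_iff_mem]
      refine Ideal.subset_span ?_
      left
      norm_num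
    exact lam_anti (Ideal.mul_mono_left (hn3.trans h3)) (hL6a k t (cjI b) hb').1.1
  have e1 := congrArg τ ((hcc k t b hb).1 z hzt)
  rw [map_mul, map_sub, ((hE10 k t τ n a hn hτ ha).1 (cjI b) hb').2.2, ha.xx (cjI b) hb' _ hz',
    ha.xx (cjI b) hb' _ hT'] at e1
  have e2 := (hcc k t (cjI a * b) hd).1 z hzt
  rw [hcd] at e2
  have e3 : xO (a * cjI b) (ptT (a * cjI b)) = xO (a * cjI b) (ptT (cjI b)) :=
    CjX_T hB1 hab' (((hL6 k t (cjI b) hb').2.2.1 a ha.ne (pri_mono ha.cop hn3)).1)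
  rw [e3, ← e1] at e2
  have hkp : kpO (a * cjI b) ≠ 0 := by
    intro h
    have h1 := (hio k t (a * cjI b) hab').1
    rw [h, map_zero] at h1
    exact (hB7 k t (a * cjI b) hab').2.2.1 h1.symm
  have e4 := mul_right_cancel₀ hkp e2
  change c0 (τ (c0 (xO b z))) = _
  rw [← e4, c1]

end Pool.Agent.DT.Eb
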