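import Pool.Agent.Lib.DT.E.SpecB
import Pool.Agent.Lib.DK.E.F0

/-!
# Theorem DT, part E, module F0: Frobenius elements over `ℚ`
-/

set_option autoImplicit false

noncomputable section

namespace Pool.Agent.DT.Eb

theorem tF0 : S_F0 := fun Q l h hl hlQ => DK.Eb.tF0 Q l h hl hlQ

end Pool.Agent.DT.Eb
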