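import Pool.Agent.Lib.DT.E.SpecB

/-!
# Theorem DT, part E, module HPM: the groups `HP f`, `HPN f N`
-/

set_option autoImplicit false

open scoped Pointwise nonZeroDivisors

noncomputable section

namespace Pool.Agent.DT.Eb

open Pool.Agent.MuZ Pool.Agent.FW NumberField IsDedekindDomain Pool.Agent.DT
open Pool.Agent.DI (io ofC io_inj exists_io io_ofC ofC_io VP MP UP TP ex)

variable {k t : ℕ}

private theorem HPM_rpow [SqT k t] (h7 : S_O7) {n : Ideal (OO k t)} (hn : n ≠ ⊥)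
    {a b : Ideal (OO k t)} (h : Ray n a b) (m : ℕ) : Ray n (a ^ m) (b ^ m) := by
  induction m with
  | zero => rw [pow_zero, pow_zero]; exact (h7 k t n hn).1 _
  | succ m ih => rw [pow_succ, pow_succ]; exact (h7 k t n hn).2.2.2.1 _ _ _ _ ih h

/-- The classes of the principal ideals with a generator in a group `V`. -/
private theorem HPM_gen [SqT k t] (h3 : S_O3) (h7 : S_O7) {n : Ideal (OO k t)} (hn : n ≠ ⊥)
    (hj : cjI n = n)
    (V : OO k t → Prop) (v1 : V 1) (vc : ∀ v, V v → PrI (sp v) n) (vm : ∀ v u, V v → V u → V (v * u))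
    (vj : ∀ v, V v → V (cjO v)) (H : Ideal (OO k t) → Prop)
    (hH : ∀ a, H a ↔ ∃ v : OO k t, v ≠ 0 ∧ V v ∧ Ray n a (sp v)) : HG n H where
  top := by
    refine (hH ⊤).2 ⟨1, one_ne_zero, v1, ?_⟩
    have e : sp (1 : OO k t) = ⊤ := Ideal.span_singleton_one
    rw [e]
    exact (h7 k t n hn).1 _
  cop := by
    intro a ha
    obtain ⟨v, hv, h, hr⟩ := (hH a).1 ha
    obtain ⟨g1, g2⟩ := (h7 k t n hn).2.2.2.2.2.1 _ _ hr
    exact ⟨g1.2 (ne_sp hv), g2.2 (vc v h)⟩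
  ray := by
    intro a a' ha h
    obtain ⟨v, hv, g, hr⟩ := (hH a).1 ha
    exact (hH a').2 ⟨v, hv, g, (h7 k t n hn).2.2.1 _ _ _ ((h7 k t n hn).2.1 _ _ h) hr⟩
  mul := by
    intro a a' ha ha'
    obtain ⟨v, hv, g, hr⟩ := (hH a).1 ha
    obtain ⟨u, hu, g', hr'⟩ := (hH a').1 ha'
    refine (hH _).2 ⟨v * u, mul_ne_zero hv hu, vm v u g g', ?_⟩
    have h := (h7 k t n hn).2.2.2.1 _ _ _ _ hr hr'
    have e : sp v * sp u = sp (v * u) := Ideal.span_singleton_mul_span_singleton v u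
    rwa [e] at h
  cj := by
    intro a ha
    obtain ⟨v, hv, g, hr⟩ := (hH a).1 ha
    refine (hH _).2 ⟨cjO v, ?_, vj v g, ?_⟩
    · intro h0
      apply hv
      rw [← cjO_cjO v, h0, cjO_zero]
    · have h := (h3 k t).2.2.2.2.2.2.2 n _ _ hr
      rwa [(h3 k t).2.2.2.1 v, hj] at h

private theorem HPM_mono {M j j' : ℕ} {v : OO k t} (h : (M : OO k t) ∣ v ^ 3 ^ j - 1) (hj : j ≤ j') :
    (M : OO k t) ∣ v ^ 3 ^ j' - 1 := by
  obtain ⟨i, rfl⟩ := Nat.exists_eq_add_of_le hj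
  rw [pow_add, pow_mul]
  have h1 := sub_dvd_pow_sub_pow (v ^ 3 ^ j) 1 (3 ^ i)
  rw [one_pow] at h1
  exact h.trans h1

private theorem HPM_f1 (f : ℕ) : Hf f (1 : OO k t) := by
  refine ⟨?_, 0, by rw [one_pow, sub_self]; exact dvd_zero _⟩
  have e : sp (1 : OO k t) = ⊤ := Ideal.span_singleton_one
  rw [e]
  exact pri_top _

private theorem HPM_pm {v u : OO k t} {n : Ideal (OO k t)} (hv : PrI (sp v) n) (hu : PrI (sp u) n) :
    PrI (sp (v * u)) n := by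
  have e : sp v * sp u = sp (v * u) := Ideal.span_singleton_mul_span_singleton v u
  rw [← e]
  exact pri_mul hv hu

private theorem HPM_fm {f : ℕ} {v u : OO k t} (hv : Hf f v) (hu : Hf f u) : Hf f (v * u) := by
  obtain ⟨h1, j, hj⟩ := hv
  obtain ⟨h2, i, hi⟩ := hu
  refine ⟨HPM_pm h1 h2, max j i, ?_⟩
  have g1 := HPM_mono hj (le_max_left j i)
  have g2 := HPM_mono hi (le_max_right j i)
  have e : (v * u) ^ 3 ^ max j i - 1 =
      (v ^ 3 ^ max j i - 1) * u ^ 3 ^ max j i + (u ^ 3 ^ max j i - 1) := by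
    rw [mul_pow]
    ring
  rw [e]
  exact dvd_add (g1.mul_right _) g2

private theorem HPM_fj [SqT k t] (h3 : S_O3) {f : ℕ} {v : OO k t} (hv : Hf f v) : Hf f (cjO v) := by
  obtain ⟨h1, j, c, hc⟩ := hv
  refine ⟨?_, j, cjO c, ?_⟩
  · have h := ((h3 k t).2.2.2.2.2.1 (sp v) (sN k t (3 * f))).2 h1
    rwa [(h3 k t).2.2.2.1 v, (h3 k t).2.2.2.2.1] at h
  · have h := congrArg (cjE k t) hc
    rw [map_sub, map_pow, map_one, map_mul, map_natCast] at h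
    exact h

private theorem HPM_c [SqT k t] (h6 : S_O6) {f N : ℕ} {a : Ideal (OO k t)}
    (h : PrI a (sN k t (3 * f))) : PrI a (sN k t (f * 3 ^ N)) := by
  have h1 := ((h6 k t).2.2.2.2.1 _ a).1 h
  refine ((h6 k t).2.2.2.2.1 _ a).2 ?_
  exact Nat.Coprime.mul_right h1.coprime_mul_left_right (h1.coprime_mul_right_right.pow_right N)

/-- **`S_HPM`**, the groups `HP f`, `HPN f N`. -/
theorem tHPM : S_O2 → S_O3 → S_O6 → S_O7 → S_O9 → S_H3M → S_HPM := by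
  intro h2 h3 h6 h7 h9 _ k t _ f hf
  have h3f : sN k t (3 * f) ≠ ⊥ := ne_sN (by omega)
  have hNp : ∀ N : ℕ, 0 < f * 3 ^ N := fun N => Nat.mul_pos hf (by positivity)
  have hN : ∀ N : ℕ, sN k t (f * 3 ^ N) ≠ ⊥ := fun N => ne_sN (hNp N)
  have hcj : ∀ N : ℕ, cjI (sN k t N) = sN k t N := (h3 k t).2.2.2.2.1
  have A : HG (sN k t (3 * f)) (HP (k := k) (t := t) f) :=
    HPM_gen h3 h7 h3f (hcj _) (Hf f) (HPM_f1 f) (fun v hv => hv.1) (fun v u => HPM_fm)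
      (fun v => HPM_fj h3) _ (fun a => Iff.rfl)
  have B : ∀ N : ℕ, HG (sN k t (f * 3 ^ N)) (HPN (k := k) (t := t) f N) := by
    intro N
    refine HPM_gen h3 h7 (hN N) (hcj _) (fun v => HN f N v)
      ⟨HPM_f1 f, ?_⟩ (fun v hv => HPM_c h6 hv.1.1) ?_ ?_ _ (fun a => Iff.rfl)
    · rw [Nm_one, sub_self]
      exact dvd_zero _
    · rintro v u ⟨g1, g2⟩ ⟨g4, g5⟩
      refine ⟨HPM_fm g1 g4, ?_⟩
      rw [Nm_mul]
      have e : Nm v * Nm u - 1 = (Nm v - 1) * Nm u + (Nm u - 1) := by ring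
      rw [e]
      exact dvd_add (g2.mul_right _) g5
    · rintro v ⟨g1, g2⟩
      refine ⟨HPM_fj h3 g1, ?_⟩
      rw [Nm_cjO]
      exact g2
  have C : ∀ a : Ideal (OO k t), HP f a → H3 f a := by
    rintro a ⟨v, g1, ⟨g2, j, hj⟩, g3⟩
    refine ⟨j, ?_⟩
    have g4 := HPM_rpow h7 h3f g3 (3 ^ j)
    rw [Ideal.span_singleton_pow] at g4
    refine (h7 k t _ h3f).2.2.1 _ _ _ g4 ?_
    have g0 : v ^ 3 ^ j - 1 ∈ sN k t (3 * f) := Ideal.mem_span_singleton.2 hj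
    have e : sp (1 : OO k t) = ⊤ := Ideal.span_singleton_one
    have p1 : PrI (sp (1 : OO k t)) (sN k t (3 * f)) := by
      rw [e]
      exact pri_top _
    have g5 : PrI (sp (v ^ 3 ^ j)) (sN k t (3 * f)) := by
      refine (h6 k t).2.2.2.2.2.2.1 _ 1 _ ?_ p1
      have := (sN k t (3 * f)).neg_mem g0
      rwa [neg_sub] at this
    have g6 := ((h7 k t _ h3f).2.2.2.2.2.2.2.1 (v ^ 3 ^ j) 1 (pow_ne_zero _ g1) one_ne_zero g5 p1).2
      (Or.inl g0)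
    rwa [e] at g6
  refine ⟨A, fun N _ => B N, C, ?_⟩
  intro N a hN1 ha
  have hc := ((B N).cop a ha).2
  obtain ⟨v, g1, ⟨g2, g3⟩, g5⟩ := ha
  have hd : 3 * f ∣ f * 3 ^ N := by
    obtain ⟨M, rfl⟩ := Nat.exists_eq_add_of_le hN1
    exact ⟨3 ^ M, by rw [pow_add, pow_one]; ring⟩
  have g6 : Ray (sN k t (3 * f)) a (sp v) := (h7 k t _ (hN N)).2.2.2.2.2.2.1 _ _ _ (sN_le hd) g5
  refine ⟨C a ⟨v, g1, g2, g6⟩, ?_⟩
  have g7 := h9 k t _ (hNp N) a (sp v) g5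
  rw [(h2 k t).2.2.2.1 v] at g7
  have e : (NI a : ℤ) - 1 = (Nm v - 1) + ((NI a : ℤ) - Nm v) := by ring
  rw [e]
  refine dvd_add g3 (dvd_trans ?_ g7)
  push_cast
  exact dvd_mul_left _ _

end Pool.Agent.DT.Eb
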