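import Pool.Agent.Lib.DT.E.SpecB

/-!
# Theorem DT, part E, module Ray: `Psi` for equivalent ideals (`S_E1`, item 3)
-/

set_option autoImplicit false

open scoped Pointwise nonZeroDivisors

noncomputable section

namespace Pool.Agent.DT.Eb

open Pool.Agent.MuZ Pool.Agent.FW NumberField IsDedekindDomain Pool.Agent.DT
open Pool.Agent.DI (io ofC io_inj exists_io io_ofC ofC_io VP MP UP TP ex)

variable {k t : ℕ}

/-- Multiplication by an element `= 1` modulo `n` on `n`-torsion points. -/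
private theorem Ray_per [SqT k t] (hB1 : S_B1) {n : Ideal (OO k t)} {α β : OO k t}
    (h : α * β - 1 ∈ n) {c b : Ideal (OO k t)} (hcb : c * b ≠ ⊥) {z : ℂ} (hz : z ∈ Lam (n * b)) :
    XC (c * b) (toC α * (toC β * z)) = XC (c * b) z := by
  have h1 : toC α * (toC β * z) = z + toC (α * β - 1) * z := by
    rw [toC_sub, toC_mul, toC_one]
    ring
  rw [h1]
  exact ((hB1 k t _ hcb).1 z _ (lam_mono (lam_prod.1 hz _ h))).2.2

/-- The two sides of `α a = α' a'`. -/
private theorem Ray_mul {α α' : OO k t} {a a' : Ideal (OO k t)} (he : sp α * a = sp α' * a')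
    (b : Ideal (OO k t)) : sp α * (a * b) = sp α' * (a' * b) := by
  rw [← mul_assoc, he, mul_assoc]

/-- **Ray.** -/
theorem tRay : S_B1 → S_B7 → S_O7 → S_Ray := by
  intro hB1 hB7 hO7 k t _ n hn τ a a' hτ hR
  obtain ⟨-, -, -, -, -, h6, -⟩ := hO7 k t n hn
  have hne : a' ≠ ⊥ := (h6 a a' hR).1.1 hτ.ne
  have hcop : PrI a' n := (h6 a a' hR).2.1 hτ.cop
  obtain ⟨α, α', hα, hα', hcα, -, hd, he⟩ := hR
  refine ⟨hne, hcop, fun b hb => ?_, fun b hb z hz => ?_⟩
  · rw [hτ.aa b hb]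
    unfold aO
    congr 1
    have h1 := ((hB7 k t (a * b) (ne_mul hτ.ne hb)).1 α hα).2.1
    have h2 := ((hB7 k t (a' * b) (ne_mul hne hb)).1 α' hα').2.1
    rw [← h1, ← h2, Ray_mul he]
  · rw [hτ.xx b hb z hz]
    unfold xO
    congr 1
    obtain ⟨β, hβ⟩ := pri_inv hcα
    have hβ' : α' * β - 1 ∈ n := by
      have e : α' * β - 1 = (α * β - 1) - β * (α - α') := by ring
      rw [e]
      exact n.sub_mem hβ (n.mul_mem_left β hd)
    have h1 := (((hB7 k t (a * b) (ne_mul hτ.ne hb)).1 α hα).1 (toC β * z)).1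
    have h2 := (((hB7 k t (a' * b) (ne_mul hne hb)).1 α' hα').1 (toC β * z)).1
    rw [← Ray_per hB1 hβ (ne_mul hτ.ne hb) hz, ← Ray_per hB1 hβ' (ne_mul hne hb) hz, ← h1, ← h2,
      Ray_mul he]

end Pool.Agent.DT.Eb
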