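import Pool.Agent.Lib.DT.E.SpecB

/-!
# Theorem DT, part E, module Srj: surjectivity (`S_E7`) (edit of `DK/E/Srj.lean`, helper69)
-/

set_option autoImplicit false

open scoped Pointwise nonZeroDivisors

noncomputable section

namespace Pool.Agent.DT.Eb

open Pool.Agent.MuZ Pool.Agent.FW NumberField IsDedekindDomain Pool.Agent.DT

/-- **Surjectivity.** -/
theorem sE7 (h1 : S_E1) (h2 : S_E2) (h7 : S_O7) (h8 : S_O8) (hF : S_Fr) : S_E7 := by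
  intro k t _ n a hn ha hc
  obtain ⟨-, -, hR, -, -⟩ := h1 k t n hn
  obtain ⟨r1, r2, -⟩ := h7 k t n hn
  obtain ⟨B, hB, hB'⟩ := h2 k t n hn
  have hD : 0 < Dk k t := by
    have e1 := hD8 (k := k) (t := t)
    have e2 := Dk_cast (k := k) (t := t)
    omega
  have c1 : ∀ b c : Ideal (OO k t), (∃ τ ∈ GK k t, Psi τ n b) → (∃ τ ∈ GK k t, Psi τ n c) →
      ∃ τ ∈ GK k t, Psi τ n (b * c) := by
    rintro b c ⟨σ, hσ, hσ'⟩ ⟨τ, hτ, hτ'⟩
    exact ⟨σ * τ, mul_mem hσ hτ, psi_mul hσ' hτ'⟩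
  have c2 : ∀ (q : Ideal (OO k t)) (l : ℕ), Deg1 q l → l.Coprime (NI n * (B * Dk k t)) →
      ∃ τ ∈ GK k t, Psi τ n q := by
    intro q l hq hl
    have hlp : l.Prime := hq.2.2.1
    have hl' : l.Coprime (B * Dk k t) := Nat.Coprime.coprime_mul_left_right hl
    have hlB : l.Coprime B := Nat.Coprime.coprime_mul_right_right hl'
    have hlD : ¬ l ∣ Dk k t := by
      rw [← hlp.coprime_iff_not_dvd]
      exact Nat.Coprime.coprime_mul_left_right hl'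
    obtain ⟨Q, τ, hQ, hQq, hτ, hτF⟩ := hF k t q l hq hlD
    exact ⟨τ, hτ, hB' q l hq hlB Q hQ hQq τ hτ hτF⟩
  obtain ⟨a', -, -, ⟨τ, hτ, hτ'⟩, hr⟩ := h8 k t n (B * Dk k t) hn (Nat.mul_pos hB hD)
    (fun a => ∃ τ ∈ GK k t, Psi τ n a) ⟨1, one_mem _, psi_top n⟩ c1 c2 a ha hc
  exact ⟨τ, hτ, hR τ _ _ hτ' (r2 _ _ hr)⟩

end Pool.Agent.DT.Eb
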