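import Pool.Agent.Lib.DT.O.All
import Pool.Agent.Lib.DT.E.Ab
import Pool.Agent.Lib.DT.E.AbB
import Pool.Agent.Lib.DT.E.Cj1
import Pool.Agent.Lib.DT.E.CjA
import Pool.Agent.Lib.DT.E.CjN
import Pool.Agent.Lib.DT.E.CjP
import Pool.Agent.Lib.DT.E.CjX
import Pool.Agent.Lib.DT.E.Cyc
import Pool.Agent.Lib.DT.E.F0
import Pool.Agent.Lib.DT.E.Fix
import Pool.Agent.Lib.DT.E.Fr
import Pool.Agent.Lib.DT.E.Gn
import Pool.Agent.Lib.DT.E.H3M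
import Pool.Agent.Lib.DT.E.HPM
import Pool.Agent.Lib.DT.E.Op
import Pool.Agent.Lib.DT.E.Ray
import Pool.Agent.Lib.DT.E.Srj
import Pool.Agent.Lib.DT.E.Uq

/-!
# Theorem DT, part E, second half: assembly (author helper28)

The statements without hypotheses `aF0`, `aAbB`, `aFr`, `aGn`, `aCj1`, `aH3M`, `aHPM`; the others from the
statements of the parts B, R and of the first half of E.
-/

set_option autoImplicit false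

noncomputable section

namespace Pool.Agent.DT.Eb

open Pool.Agent.DT

theorem aF0 : S_F0 := tF0
theorem aAbB : S_AbB := tAbB
theorem aFr : S_Fr := tFr aF0 aAbB
theorem aGn : S_Gn := tGn
theorem aCj1 : S_Cj1 := tCj1
theorem aH3M : S_H3M := tH3M aO2 aO3 aO6 aO7 aO9
theorem aHPM : S_HPM := tHPM aO2 aO3 aO6 aO7 aO9 aH3M

/-- `S_E1`. -/
theorem bE1 (hB1 : S_B1) (hB7 : S_B7) (hB13 : S_B13) (hR1 : S_R1) (hR4 : S_R4) (hEx : S_Ex) :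
    S_E1 :=
  sE1 hEx (tUq hB1 hB7 hB13 aL3 aL5 aO6 hR1 hR4) (tRay hB1 hB7 aO7)

theorem bOp (hFN : S_FN) : S_Op := tOp hFN

/-- `S_E6`. -/
theorem bE6 (hE1 : S_E1) (hE2 : S_E2) (hFN : S_FN) : S_E6 :=
  sE6 hE1 hE2 aO2 aO9 (bOp hFN) aGn

/-- `S_E7`. -/
theorem bE7 (hE1 : S_E1) (hE2 : S_E2) : S_E7 := sE7 hE1 hE2 aO7 aO8 aFr

/-- `S_E8`. -/
theorem bE8 (hE1 : S_E1) (hFN : S_FN) : S_E8 := sE8 hE1 aO7 (bOp hFN)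

theorem bAb (hE1 : S_E1) : S_Ab := tAb hE1 aO7

theorem bCjX (hB1 : S_B1) (hB7 : S_B7) (hR4 : S_R4) (hE10 : S_E10) : S_CjX :=
  tCjX aCj1 hB1 hB7 hE10 aL2 aL6a aL6 aO3 hR4

theorem bCjA (hB1 : S_B1) (hB4 : S_B4) (hB7 : S_B7) (hR1 : S_R1) (hR4 : S_R4) (hE10 : S_E10) :
    S_CjA :=
  tCjA (bCjX hB1 hB7 hR4 hE10) hB1 hB4 aL6a aL6 aO3 aO4 hR1 hR4

/-- The first item of `S_E9`. -/
theorem bCjP (hB1 : S_B1) (hB4 : S_B4) (hB7 : S_B7) (hR1 : S_R1) (hR4 : S_R4) (hE1 : S_E1)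
    (hE10 : S_E10) : S_CjP :=
  tCjP aCj1 (bCjX hB1 hB7 hR4 hE10) (bCjA hB1 hB4 hB7 hR1 hR4 hE10) hE1 aO3

/-- `S_E9`. -/
theorem bE9 (hB1 : S_B1) (hB4 : S_B4) (hB7 : S_B7) (hR1 : S_R1) (hR4 : S_R4) (hE1 : S_E1)
    (hE10 : S_E10) : S_E9 :=
  sE9 (bCjP hB1 hB4 hB7 hR1 hR4 hE1 hE10)
    (tCjN aCj1 (bCjP hB1 hB4 hB7 hR1 hR4 hE1 hE10) (bAb hE1) hR4) aH3M aHPM aO3

end Pool.Agent.DT.Eb
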