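import Pool.Agent.Lib.DT.E.SpecA

/-!
# Theorem DT, part E: module `BrK` (degree one primes of `KQ k t`)
-/

set_option autoImplicit false

open scoped Pointwise nonZeroDivisors

noncomputable section

namespace Pool.Agent.DT

open Pool.Agent.MuZ Pool.Agent.FW NumberField IsDedekindDomain
open Pool.Agent.DI (io ofC io_inj exists_io io_ofC ofC_io VP MP UP TP ex)

/-- The values of `toO` are elements of `KQ k t`. -/
private theorem BrK_mem {k t : ℕ} (v : OO k t) : toO v ∈ KQ k t := by
  have hw : wO k t ∈ KQ k t := IntermediateField.mem_adjoin_simple_self ℚ (wO k t)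
  rw [toO_apply]
  exact add_mem (intCast_mem _ _) (mul_mem (intCast_mem _ _) hw)

/-- The map `O → 𝓞 (KQ k t)`. -/
private def BrK_f (k t : ℕ) [SqT k t] : OO k t →+* 𝓞 (KQ k t) where
  toFun v := ⟨⟨toO v, BrK_mem v⟩, by
    have h1 : IsIntegral ℤ (toO v) := toO_integral v
    have h2 : IsIntegral ℤ ((⟨toO v, BrK_mem v⟩ : KQ k t)) := by
      rw [← isIntegral_algHom_iff (IsScalarTower.toAlgHom ℤ (KQ k t) Om)
        (algebraMap (KQ k t) Om).injective]
      exact h1
    exact h2⟩
  map_one' := by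
    apply Subtype.ext
    apply Subtype.ext
    exact toO_one
  map_mul' v u := by
    apply Subtype.ext
    apply Subtype.ext
    exact toO_mul v u
  map_zero' := by
    apply Subtype.ext
    apply Subtype.ext
    exact toO_zero
  map_add' v u := by
    apply Subtype.ext
    apply Subtype.ext
    exact toO_add v u

private theorem BrK_iO {k t : ℕ} [SqT k t] (v : OO k t) : ((iO (KQ k t) (BrK_f k t v) : ZZ) : Om) = toO v := rfl

theorem sBrK (_hO2 : S_O2) (hAbQ : S_AbQ) : S_BrK := by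
  intro k t _
  have hfd : FiniteDimensional ℚ (KQ k t) :=
    IntermediateField.adjoin.finiteDimensional (Algebra.IsIntegral.isIntegral (wO k t))
  refine ⟨hfd, IntermediateField.fixingSubgroup_isOpen (KQ k t), ?_⟩
  intro l Q hl hQ _hlQ hcard
  obtain ⟨q, hqp, hq0, hqQ, hA⟩ := (hAbQ k t).1 Q hQ
  have : Q.IsPrime := hQ.1
  refine ⟨q, ⟨hqp, hq0, hl, ?_⟩, (hA q).2 le_rfl⟩
  set g : OO k t →+* 𝓞 (KQ k t) ⧸ Q.comap (iO (KQ k t)) :=
    (Ideal.Quotient.mk (Q.comap (iO (KQ k t)))).comp (BrK_f k t) with hg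
  have hker : ∀ v : OO k t, g v = 0 ↔ v ∈ q := by
    intro v
    rw [hqQ v, ← BrK_iO v, DI.MP.coe_iff, hg, RingHom.comp_apply, Ideal.Quotient.eq_zero_iff_mem]
    exact Iff.rfl
  have hle : ∀ v ∈ q, g v = 0 := fun v hv => (hker v).2 hv
  have hinj : Function.Injective (Ideal.Quotient.lift q g hle) := by
    rw [RingHom.injective_iff_ker_eq_bot]
    rw [eq_bot_iff]
    intro x hx
    obtain ⟨v, rfl⟩ := Ideal.Quotient.mk_surjective x
    rw [RingHom.mem_ker, Ideal.Quotient.lift_mk] at hx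
    have h := (hker v).1 hx
    exact Ideal.Quotient.eq_zero_iff_mem.2 h
  have hdvd : Nat.card (OO k t ⧸ q) ∣ Nat.card (𝓞 (KQ k t) ⧸ Q.comap (iO (KQ k t))) :=
    AddSubgroup.card_dvd_of_injective (Ideal.Quotient.lift q g hle).toAddMonoidHom hinj
  rw [hcard] at hdvd
  rcases (Nat.dvd_prime hl).1 hdvd with h1 | h1
  · exfalso
    have : Nontrivial (OO k t ⧸ q) := Ideal.Quotient.nontrivial_iff.2 hqp.ne_top
    have : Finite (OO k t ⧸ q) := Nat.finite_of_card_ne_zero (by rw [h1]; exact one_ne_zero)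
    have h2 := Finite.one_lt_card (α := OO k t ⧸ q)
    omega
  · exact h1

end Pool.Agent.DT
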