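import Pool.Agent.Lib.DT.E.SpecA

/-!
# Theorem DT, part E, module E10: `S_E10`, assembly
-/

set_option autoImplicit false

noncomputable section

namespace Pool.Agent.DT

theorem sE10 (hE10a : S_E10a) (hE10k : S_E10k) (hE10r : S_E10r) (hE10v : S_E10v) (hE10g : S_E10g)
    (hE10T : S_E10T) : S_E10 := by
  intro k t _ τ n a hn hτ hP
  refine ⟨fun b hb => ?_, fun hnp => ⟨?_, ?_, ?_⟩, ?_⟩
  · obtain ⟨-, h1, h2, -⟩ := hE10a k t τ n a hn hP b hb
    exact ⟨h1, h2, hE10k k t τ n a hn hτ hP b hb⟩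
  · exact hE10r k t τ n a hn hnp hτ hP
  · exact hE10v.2 k t τ n a hn hnp hP
  · exact hE10g k t τ n a hn hnp hP
  · exact hE10T k t τ n a hn hP

end Pool.Agent.DT
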