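import Pool.Agent.Lib.DT.E.SpecA

/-!
# E10T: the Galois action on `Theta` (helper37)
-/

set_option autoImplicit false

noncomputable section

namespace Pool.Agent.DT

open Pool.Agent.MuZ Pool.Agent.FW

theorem sN_six_le (k t : ℕ) : sN k t 6 ≤ sN k t 2 := by
  unfold sN
  rw [Ideal.span_singleton_le_span_singleton]
  exact ⟨((3 : ℕ) : OO k t), by push_cast; norm_num⟩

/-- The Galois action on `Theta`. -/
theorem sE10T (hO6 : S_O6) (hB14 : S_B14) (hXOm : S_XOm) (hHsP : S_HsP) (hSyA : S_SyA)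
    (hE10a : S_E10a) : S_E10T := by
  intro k t _ τ n a hn hP m b hm hb hm6 hmn z hz
  have hab : a * b ≠ ⊥ := mul_ne_zero hP.ne hb
  have hm2 : PrI m (sN k t 2) := (hO6 k t).2.2.2.1 m _ _ (sN_six_le k t) hm6
  obtain ⟨-, hNu, -, hHalf⟩ := hSyA k t a b m n hP.ne hb hm hP.cop hmn
  have hh := (hB14 k t m b hm hb hm2).1
  have hh' := (hB14 k t m (a * b) hm hab hm2).1
  obtain ⟨hper, hev, -⟩ := (hXOm k t (a * b) hab).1
  have key := ((hHsP k t m (a * b) hm hab hm2).1 (hs m b) (hs m (a * b)) (hHalf (hs m b) hh) hh'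
    (fun u => dlO (a * b) * xO (a * b) u ^ 2 * ((xO (a * b) z - xO (a * b) u) ^ 2)⁻¹)
    (fun u _ => ⟨by simp only [hev], fun l hl => by simp only [hper u l hl]⟩)).1
  unfold Theta
  rw [← key, map_prod]
  refine Finset.prod_congr rfl (fun u hu => ?_)
  have hu1 : τ (xO b u) = xO (a * b) u := hP.xx b hb u (hNu u (hh.mem u hu).1)
  have hz1 : τ (xO b z) = xO (a * b) z := hP.xx b hb z hz
  have hd1 : τ (dlO b) = dlO (a * b) := (hE10a k t τ n a hn hP b hb).2.2.1
  simp only [map_pow, map_mul, map_inv₀, map_sub, hu1, hz1, hd1]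

end Pool.Agent.DT
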