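import Pool.Agent.Lib.DT.E.SpecA
import Pool.Agent.Lib.DI.Val

/-!
# Theorem DT, part E, module E10a: the Galois action on `ρ` and `δ`
-/

set_option autoImplicit false

open scoped Pointwise nonZeroDivisors

noncomputable section

namespace Pool.Agent.DT

open Pool.Agent.MuZ Pool.Agent.FW NumberField IsDedekindDomain
open Pool.Agent.DI (io ofC io_inj exists_io io_ofC ofC_io VP MP UP TP ex)

private lemma E10a_ne {k t : ℕ} {q : Ideal (OO k t)} (h : (3 : OO k t) ∈ q) : q ≠ ⊥ := by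
  intro h2
  rw [h2, Ideal.mem_bot] at h
  have h4 := congrArg QuadraticAlgebra.re h
  have h5 := re_nat (k := k) (t := t) 3
  norm_num at h4 h5
  rw [h5] at h4
  norm_num at h4

private lemma E10a_pp3 (k t : ℕ) : (3 : OO k t) ∈ pp k t := Ideal.subset_span (by simp)

private lemma E10a_ppb3 (k t : ℕ) : (3 : OO k t) ∈ ppb k t := Ideal.subset_span (by simp)

private lemma E10a_top (k t : ℕ) : pp k t ≠ ⊤ := by
  intro h
  have h1 : (1 : OO k t) ∈ pp k t := by rw [h]; exact Submodule.mem_top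
  rw [pp, Ideal.mem_span_pair] at h1
  obtain ⟨a, b, hab⟩ := h1
  have h2 := congrArg QuadraticAlgebra.re hab
  have h3 : (3 : OO k t) = ((3 : ℕ) : OO k t) := by norm_num
  have h4 : (a * (3 : OO k t) + b * wI k t).re = (a * (3 : OO k t)).re + (b * wI k t).re := rfl
  rw [h4, h3, re_mul, re_mul, re_nat, im_nat, re_one] at h2
  have h5 : (wI k t).re = 0 := rfl
  have h6 : (wI k t).im = 1 := rfl
  rw [h5, h6] at h2
  push_cast at h2
  have h7 : 3 * (a.re - (k : ℤ) * b.im) = 1 := by linear_combination h2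
  omega

/-- The Galois action on `ρ` and `δ`. -/
theorem sE10a (hR2 : S_R2) (hAbQ : S_AbQ) (hX : S_XOm) : S_E10a := by
  intro k t _ τ n a _ hP b hb
  obtain ⟨-, hQ2, -, -, hQ5, -⟩ := hAbQ k t
  -- a prime above `pp`
  obtain ⟨q, hq, hle⟩ := Ideal.exists_le_maximal _ (E10a_top k t)
  obtain ⟨P, hP1, hP2⟩ := hQ2 q hq.isPrime (E10a_ne (hle (E10a_pp3 k t)))
  have hPP : AbP k t P := (hQ5 P).1.2 ⟨hP1, fun v hv => hP2 v (hle hv)⟩
  have hPr : P.IsPrime := hP1.1
  have ha0 : ∀ c : Ideal (OO k t), c ≠ ⊥ → aO c ≠ 0 := fun c hc =>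
    ((hR2 k t c hc P hP1).2.2.2.2 hPP).1.ne_zero
  have hpp : pp k t ≠ ⊥ := E10a_ne (E10a_pp3 k t)
  have hppb : ppb k t ≠ ⊥ := E10a_ne (E10a_ppb3 k t)
  have hab : a * b ≠ ⊥ := mul_ne_zero hP.ne hb
  have e1 : a * (ppb k t * b) = ppb k t * (a * b) := mul_left_comm _ _ _
  have e2 : a * (pp k t * b) = pp k t * (a * b) := mul_left_comm _ _ _
  -- the numbers rhO
  have hrho : ∀ c : Ideal (OO k t), c ≠ ⊥ → τ (rhO c) = rhO (a * c) := by
    intro c hc
    have hac : a * c ≠ ⊥ := mul_ne_zero hP.ne hc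
    have e3 : a * (ppb k t * c) = ppb k t * (a * c) := mul_left_comm _ _ _
    have h1 := congrArg τ (hX k t c hc).2.2.2.2.2.2.1.2.2.1
    have h2 := (hX k t (a * c) hac).2.2.2.2.2.2.1.2.2.1
    rw [map_mul, map_add, map_ofNat, hP.aa _ (mul_ne_zero hppb hc), hP.aa c hc, e3, ← h2] at h1
    exact mul_left_cancel₀ (ha0 _ (mul_ne_zero hppb hac)) h1
  refine ⟨ha0 b hb, hrho b hb, ?_, ?_⟩
  · have h1 := congrArg τ (hX k t b hb).2.2.2.2.2.2.2.1.2.2.1
    have h2 := (hX k t (a * b) hab).2.2.2.2.2.2.2.1.2.2.1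
    have h3 := (hX k t (pp k t * (a * b)) (mul_ne_zero hpp hab)).2.2.2.2.2.2.1.1
    rw [map_mul, map_sub, map_ofNat, hP.aa _ (mul_ne_zero hpp hb), hrho _ (mul_ne_zero hpp hb), e2,
      ← h2] at h1
    exact mul_right_cancel₀ h3 h1
  · have h1 := congrArg τ (hX k t b hb).2.2.2.2.2.2.2.1.2.1
    have h2 := (hX k t (a * b) hab).2.2.2.2.2.2.2.1.2.1
    rw [map_div₀, map_neg, map_ofNat, hrho _ (mul_ne_zero hpp hb), e2, ← h2] at h1
    exact h1

end Pool.Agent.DT
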