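import Pool.Agent.Lib.DT.E.SpecA

/-!
# Theorem DT, part E, module `E10g`: the Galois action on the smoothed function `gO`
-/

set_option autoImplicit false

open scoped Pointwise

noncomputable section

namespace Pool.Agent.DT

open Pool.Agent.MuZ Pool.Agent.FW NumberField IsDedekindDomain
open Pool.Agent.DI (io ofC io_inj exists_io io_ofC ofC_io VP MP UP TP ex)

/-- The Galois action on `gO`. -/
theorem sE10g (hO6 : S_O6) (hL5 : S_L5) (hB14 : S_B14) (hR5 : S_R5) (hXOm : S_XOm) (hHsP : S_HsP)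
    (hSyA : S_SyA) (hE10v : S_E10v) : S_E10g := by
  intro k t _ τ n a hn hnp hP m b hm hb hm6 hnm pb z hz hzm
  obtain ⟨q1, -, -, q4, -⟩ := hO6 k t
  have hab : a * b ≠ ⊥ := mul_ne_zero hP.ne hb
  have hmb : m * b ≠ ⊥ := mul_ne_zero hm hb
  have hnb : n * b ≠ ⊥ := mul_ne_zero hn hb
  have hm2 : PrI m (sN k t 2) := by
    refine q4 m (sN k t 6) (sN k t 2) ?_ hm6
    rw [Ideal.span_singleton_le_span_singleton]
    exact ⟨3, by norm_num⟩
  have pab : PrI (a * b) (ppb k t) := (q1 a b _).2 ⟨q4 a n _ hnp hP.cop, pb⟩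
  have hT : Tor k t z := tor_lam hnb hz
  obtain ⟨-, hNu, -, hHalf⟩ := hSyA k t a b m n hP.ne hb hm hP.cop hnm
  have hh := (hB14 k t m b hm hb hm2).1
  have hh' := (hB14 k t m (a * b) hm hab hm2).1
  have hzm' : z ∉ Lam (m * (a * b)) := by
    intro h
    refine hzm ((hL5 k t a (m * b) n hP.ne hmb hP.cop).1 z ?_ ?_)
    · rw [mul_left_comm]
      exact lam_mono hz
    · rw [mul_left_comm]
      exact h
  obtain ⟨-, -, -, h1⟩ := hR5 k t m b b hm hb hb hm6 pb pb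
  obtain ⟨-, -, -, h2⟩ := hR5 k t m (a * b) (a * b) hm hab hab hm6 pab pab
  rw [((h1 z hT).2.2 hzm).2, ((h2 z hT).2.2 hzm').2, map_sum]
  have hv : τ (vO b z) = vO (a * b) z := hE10v.2 k t τ n a hn hnp hP b hb pb z hz
  have hz1 : τ (xO b z) = xO (a * b) z := hP.xx b hb z hz
  have e1 : ∑ u ∈ hs m b, τ (vO b z * (aO b * (xO b z - xO b u))⁻¹) =
      ∑ u ∈ hs m b, vO (a * b) z * (aO (a * b) * (xO (a * b) z - xO (a * b) u))⁻¹ := by
    refine Finset.sum_congr rfl fun u hu => ?_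
    have hu1 : τ (xO b u) = xO (a * b) u := hP.xx b hb u (hNu u (hh.mem u hu).1)
    simp only [map_mul, map_inv₀, map_sub, hu1, hz1, hv, hP.aa b hb]
  rw [e1]
  obtain ⟨⟨p1, p2, -⟩, -⟩ := hXOm k t (a * b) hab
  refine ((hHsP k t m (a * b) hm hab hm2).1 (hs m b) (hs m (a * b)) (hHalf _ hh) hh'
    (fun u => vO (a * b) z * (aO (a * b) * (xO (a * b) z - xO (a * b) u))⁻¹) ?_).2
  intro y _
  refine ⟨?_, fun l hl => ?_⟩
  · simp only [p2]
  · simp only [p1 y l hl]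

end Pool.Agent.DT
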