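import Pool.Agent.Lib.DT.E.SpecA

/-!
# E10k: the Galois action on the number `κ` (helper50)
-/

set_option autoImplicit false

open scoped Pointwise nonZeroDivisors

noncomputable section

namespace Pool.Agent.DT

open Pool.Agent.MuZ Pool.Agent.FW NumberField IsDedekindDomain
open Pool.Agent.DI (io ofC io_inj exists_io io_ofC ofC_io VP MP UP TP ex)

private theorem E10k_pp_ne_top (k t : ℕ) : pp k t ≠ ⊤ := by
  intro h
  have h1 : (1 : OO k t) ∈ pp k t := by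
    rw [h]
    exact Submodule.mem_top
  obtain ⟨x, y, hxy⟩ := Ideal.mem_span_pair.1 h1
  have h2 := congrArg QuadraticAlgebra.re hxy
  have h3 : (3 : OO k t) = ((3 : ℕ) : OO k t) := by norm_num
  rw [QuadraticAlgebra.re_add, h3, re_mul, re_mul, re_nat, im_nat, re_one] at h2
  have h4 : (wI k t).re = 0 := rfl
  have h5 : (wI k t).im = 1 := rfl
  rw [h4, h5] at h2
  have h6 : (3 : ℤ) ∣ 1 := ⟨x.re - k * y.im, by rw [← h2]; push_cast; ring⟩
  norm_num at h6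

private theorem E10k_pp_ne_bot (k t : ℕ) : pp k t ≠ ⊥ := by
  intro h
  have h1 : (3 : OO k t) ∈ pp k t := Ideal.subset_span (by simp)
  rw [h] at h1
  have h2 : (3 : OO k t) = 0 := h1
  have h3 : (3 : OO k t) = ((3 : ℕ) : OO k t) := by norm_num
  rw [h3] at h2
  have h4 := congrArg QuadraticAlgebra.re h2
  rw [re_nat] at h4
  have h5 : ((0 : OO k t)).re = 0 := rfl
  rw [h5] at h4
  norm_num at h4

private theorem E10k_lt {k t : ℕ} [SqT k t] : pp k t ^ 2 < pp k t := by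
  have h0 := E10k_pp_ne_bot k t
  refine lt_of_le_of_ne (by rw [sq]; exact Ideal.mul_le_left) ?_
  intro h
  apply E10k_pp_ne_top k t
  have h1 : pp k t * pp k t = pp k t * ⊤ := by rw [← sq, h, Ideal.mul_top]
  exact mul_left_cancel₀ (a := pp k t) h0 h1

/-- The Galois action on the number `κ`. -/
theorem sE10k (hO6 : S_O6) (hL3 : S_L3) (hL5 : S_L5) (hX : S_XOm) (hE1 : S_E1) (hI : S_Iso)
    (hA : S_E10a) : S_E10k := by
  intro k t _ τ n a hn hτ hP b hb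
  have hp0 : pp k t ≠ ⊥ := E10k_pp_ne_bot k t
  have hp2 : pp k t ^ 2 ≠ ⊥ := pow_ne_zero 2 hp0
  have hn1 : n * pp k t ^ 2 ≠ ⊥ := mul_ne_zero (a := n) (b := pp k t ^ 2) hn hp2
  obtain ⟨a₁, hP1, -⟩ := (hE1 k t (n * pp k t ^ 2) hn1).1 τ hτ 1 one_pos
  have hle : n * pp k t ^ 2 ≤ n := Ideal.mul_le_left
  have hP1n : Psi τ n a₁ := (hE1 k t (n * pp k t ^ 2) hn1).2.2.2.2 τ n a₁ hP1 hle
  obtain ⟨α, α', hα, hα', -, -, -, heq⟩ := (hE1 k t n hn).2.1 τ a a₁ hP hP1n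
  have hk := (hI k t a a₁ α α' hP.ne hP1.ne hα hα' heq b hb).2.2.2.1
  rw [← hk]
  have hab : a₁ * b ≠ ⊥ := mul_ne_zero (a := a₁) (b := b) hP1.ne hb
  have hpb : pp k t * b ≠ ⊥ := mul_ne_zero (a := pp k t) (b := b) hp0 hb
  obtain ⟨z, hz, hz'⟩ := (hL3 k t (pp k t ^ 2) b hp2 hb).1
  have hz1 : z ∉ Lam (pp k t * b) := hz' _ E10k_lt
  have hzn : z ∈ Lam (n * pp k t ^ 2 * b) := by
    rw [mul_assoc]
    exact lam_mono hz
  have h2n : 2 * z ∈ Lam (n * pp k t ^ 2 * b) := by exact_mod_cast lam_nat 2 hzn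
  have h4n : 4 * z ∈ Lam (n * pp k t ^ 2 * b) := by exact_mod_cast lam_nat 4 hzn
  have hza : z ∈ Lam (pp k t ^ 2 * (a₁ * b)) := by
    have e : pp k t ^ 2 * (a₁ * b) = a₁ * (pp k t ^ 2 * b) := by
      rw [← mul_assoc, mul_comm (pp k t ^ 2) a₁, mul_assoc]
    rw [e]
    exact lam_mono hz
  have hcop : PrI a₁ (pp k t) := by
    apply (hO6 k t).2.2.2.1 a₁ (n * pp k t ^ 2) (pp k t) ?_ hP1.cop
    exact le_trans Ideal.mul_le_right (le_of_lt E10k_lt)
  have hza1 : z ∉ Lam (pp k t * (a₁ * b)) := by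
    intro h
    apply hz1
    apply (hL5 k t a₁ (pp k t * b) (pp k t) hP1.ne hpb hcop).1 z
    · rw [← mul_assoc, ← sq]
      exact hz
    · have e : a₁ * (pp k t * b) = pp k t * (a₁ * b) := by
        rw [← mul_assoc, mul_comm a₁ (pp k t), mul_assoc]
      rw [e]
      exact h
  obtain ⟨-, -, -, -, -, -, -, -, hkb, -⟩ := hX k t b hb
  obtain ⟨-, -, -, -, -, -, -, -, hkab, -⟩ := hX k t (a₁ * b) hab
  obtain ⟨-, h1⟩ := hkb z hz hz1
  obtain ⟨hne, h2⟩ := hkab z hza hza1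
  have hT := (hA k t τ (n * pp k t ^ 2) a₁ hn1 hP1 b hb).2.2.2
  have h3 := congrArg τ h1
  rw [map_mul, map_mul, map_sub, map_sub, map_sub, hP1.xx b hb _ h2n, hP1.xx b hb _ h4n,
    hP1.xx b hb _ hzn, hT, ← h2] at h3
  exact mul_right_cancel₀ (sub_ne_zero.2 hne) h3

end Pool.Agent.DT
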