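import Pool.Agent.Lib.DT.E.SpecA

/-!
# Theorem DT, part E, module `E10r`: Galois action on the quotient of the framings
-/

set_option autoImplicit false

open scoped Pointwise nonZeroDivisors

noncomputable section

namespace Pool.Agent.DT

open Pool.Agent.MuZ Pool.Agent.FW NumberField IsDedekindDomain
open Pool.Agent.DI (io ofC io_inj exists_io io_ofC ofC_io VP MP UP TP ex)

private theorem E10r_quot {k t : ℕ} [SqT k t] (hR5 : S_R5) {b c d : Ideal (OO k t)} (hb : b ≠ ⊥)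
    (hc : c ≠ ⊥) (hd : d ≠ ⊥) (pb : PrI b (ppb k t)) (pc : PrI c (ppb k t))
    (pd : PrI d (ppb k t)) : rO b c = rO b d / rO c d := by
  have ht : PrI (⊤ : Ideal (OO k t)) (sN k t 6) := top_sup_eq _
  obtain ⟨h1, -, h2, -⟩ := hR5 k t ⊤ b c top_ne_bot hb hc ht pb pc
  obtain ⟨-, -, h4, -⟩ := hR5 k t ⊤ b d top_ne_bot hb hd ht pb pd
  obtain ⟨h5, -, h6, -⟩ := hR5 k t ⊤ c d top_ne_bot hc hd ht pc pd
  obtain ⟨h7, -, -, -⟩ := hR5 k t ⊤ d d top_ne_bot hd hd ht pd pd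
  apply io_inj
  rw [map_div₀, h2, h4, h6]
  field_simp

theorem sE10r (hO6 : S_O6) (hO7 : S_O7) (hR5 : S_R5) (hE1 : S_E1) (hEfr : S_Efr)
    (hEro : S_Ero) : S_E10r := by
  intro k t _ τ n a hn hnp hτ hψ b c hb pb hc pc
  obtain ⟨q1, -, -, q4, -⟩ := hO6 k t
  have hbc : b * c ≠ ⊥ := mul_ne_zero hb hc
  have hcb : c * b ≠ ⊥ := mul_ne_zero hc hb
  have hn1 : n * (b * c) ≠ ⊥ := mul_ne_zero hn hbc
  obtain ⟨e1, -, -, -, e5⟩ := hE1 k t (n * (b * c)) hn1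
  obtain ⟨a₁, ha₁, -⟩ := e1 τ hτ 1 one_pos
  have hle : n * (b * c) ≤ n := Ideal.mul_le_left
  have hleb : n * (b * c) ≤ b := Ideal.mul_le_right.trans Ideal.mul_le_left
  have hlec : n * (b * c) ≤ c := Ideal.mul_le_right.trans Ideal.mul_le_right
  have ha₁n : Psi τ n a₁ := e5 τ n a₁ ha₁ hle
  obtain ⟨-, e2, -⟩ := hE1 k t n hn
  have hray : Ray n a₁ a := e2 τ a₁ a ha₁n hψ
  obtain ⟨-, -, -, -, -, -, o7, -⟩ := hO7 k t n hn
  have hrayp : Ray (ppb k t) a₁ a := o7 (ppb k t) a₁ a hnp hray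
  have pa : PrI a (ppb k t) := q4 a n (ppb k t) hnp hψ.cop
  have pa₁ : PrI a₁ (ppb k t) := q4 a₁ n (ppb k t) hnp ha₁n.cop
  have pcb : PrI (c * b) (ppb k t) := (q1 c b (ppb k t)).2 ⟨pc, pb⟩
  have t1 := hEro.2 k t τ (n * (b * c)) a₁ hn1 (hle.trans hnp) ha₁ b c hb hc pb pc hlec
  have t2 := hEro.2 k t τ (n * (b * c)) a₁ hn1 (hle.trans hnp) ha₁ c b hc hb pc pb hleb
  rw [mul_comm b c] at t2
  have hab : a₁ * b ≠ ⊥ := mul_ne_zero ha₁.ne hb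
  have hac : a₁ * c ≠ ⊥ := mul_ne_zero ha₁.ne hc
  have hacb : a₁ * (c * b) ≠ ⊥ := mul_ne_zero ha₁.ne hcb
  rw [E10r_quot hR5 hb hc hcb pb pc pcb, map_div₀, t1, t2,
    ← E10r_quot hR5 hab hac hacb ((q1 _ _ _).2 ⟨pa₁, pb⟩) ((q1 _ _ _).2 ⟨pa₁, pc⟩)
      ((q1 _ _ _).2 ⟨pa₁, pcb⟩)]
  exact hEfr k t a₁ a ha₁.ne hψ.ne pa₁ pa hrayp b c hb hc pb pc

end Pool.Agent.DT
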