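import Pool.Agent.Lib.DT.E.SpecA

/-!
# Theorem DT (`p = 3`), part E, module E10v: the function `vO` and the Galois action on it
-/

set_option autoImplicit false

open scoped Pointwise nonZeroDivisors

noncomputable section

namespace Pool.Agent.DT

open Pool.Agent.MuZ Pool.Agent.FW NumberField IsDedekindDomain
open Pool.Agent.DI (io ofC io_inj exists_io io_ofC ofC_io VP MP UP TP ex)

variable {k t : ℕ}

/-- `S₀` is a torsion point. -/
private theorem E10v_tor [SqT k t] : Tor k t (S0 k t) := by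
  refine ⟨wI k t, 3, by norm_num, ?_⟩
  rw [toC_wI, S0, Nat.cast_ofNat]

/-- The function `℘'` in terms of the value at `S₀`. -/
private theorem E10v_wd [SqT k t] (hL6 : S_L6) (hB1 : S_B1) (hB4 : S_B4)
    (b : Ideal (OO k t)) (hb : b ≠ ⊥) (hbp : PrI b (ppb k t)) (z : ℂ) (h1 : z ∉ Lam b)
    (h2 : z - S0 k t ∉ Lam b) (h3 : z + S0 k t ∉ Lam b) :
    wdC b z = wdC b (S0 k t) * (AC b * XC b z + 1 - 2 * XC b z ^ 2 * XC b (z + S0 k t)) := by
  obtain ⟨hper, hpar, -⟩ := hB1 k t b hb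
  obtain ⟨-, -, -, -, -, -, -, -, -, hS⟩ := hL6 k t b hb
  obtain ⟨-, hS2⟩ := hS hbp
  rcases hS2 with h | h
  · have e : ptS b = S0 k t + (ptS b - S0 k t) := by ring
    have e1 : z + ptS b = z + S0 k t + (ptS b - S0 k t) := by ring
    have e2 : z - S0 k t = z - ptS b + (ptS b - S0 k t) := by ring
    have h4 : z + ptS b ∉ Lam b := by
      intro h5
      have h6 := lam_sub h5 h
      have e3 : z + ptS b - (ptS b - S0 k t) = z + S0 k t := by ring
      rw [e3] at h6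
      exact h3 h6
    have h5 : z - ptS b ∉ Lam b := by
      intro h5
      rw [e2] at h2
      exact h2 (lam_add h5 h)
    obtain ⟨-, -, -, h6⟩ := (hB4 k t b hb).1 z h1 h4 h5
    rw [h6, e1, (hper _ _ h).2.2]
    conv_lhs => rw [e]
    rw [(hper _ _ h).2.1]
  · have e : ptS b = -S0 k t + (ptS b + S0 k t) := by ring
    have e1 : z + ptS b = z - S0 k t + (ptS b + S0 k t) := by ring
    have e2 : z + S0 k t = z - ptS b + (ptS b + S0 k t) := by ring
    have h4 : z + ptS b ∉ Lam b := by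
      intro h5
      have h6 := lam_sub h5 h
      have e3 : z + ptS b - (ptS b + S0 k t) = z - S0 k t := by ring
      rw [e3] at h6
      exact h2 h6
    have h5 : z - ptS b ∉ Lam b := by
      intro h5
      rw [e2] at h3
      exact h3 (lam_add h5 h)
    obtain ⟨-, -, h7, h6⟩ := (hB4 k t b hb).1 z h1 h4 h5
    have h8 : XC b (z + S0 k t) = XC b (z - ptS b) := by
      rw [e2, (hper _ _ h).2.2]
    have h9 : wdC b (ptS b) = -wdC b (S0 k t) := by
      conv_lhs => rw [e]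
      rw [(hper _ _ h).2.1, (hpar _).2.1]
    rw [h6, h9, h8]
    linear_combination 2 * wdC b (S0 k t) * h7

theorem sE10v (hO6 : S_O6) (hL5 : S_L5) (hL6 : S_L6) (hB1 : S_B1) (hB4 : S_B4) (hB12 : S_B12)
    (hR1 : S_R1) (hR4 : S_R4) (hR5 : S_R5) : S_E10v := by
  have hA : ∀ (k t : ℕ) [SqT k t] (b : Ideal (OO k t)), b ≠ ⊥ → PrI b (ppb k t) →
    S0 k t ∈ Lam (ppb k t * b) ∧ S0 k t ∉ Lam b ∧ ∀ z : ℂ, Tor k t z →
      (z ∈ Lam b → vO b z = 0) ∧ (z - S0 k t ∈ Lam b → vO b z = 1) ∧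
      (z + S0 k t ∈ Lam b → vO b z = -1) ∧
      (z ∉ Lam b → z - S0 k t ∉ Lam b → z + S0 k t ∉ Lam b →
        vO b z = aO b * xO b z + 1 - 2 * xO b z ^ 2 * xO b (z + S0 k t)) := by
    intro k t _ b hb hbp
    obtain ⟨-, -, -, -, -, -, hS0, -, -, hS⟩ := hL6 k t b hb
    obtain ⟨hS1, hS2⟩ := hS hbp
    refine ⟨hS0, hS1, fun z hz => ?_⟩
    obtain ⟨hper, hpar, -, -, -, -, -, -, -, -, hlat, -⟩ := hB1 k t b hb
    obtain ⟨-, hwd, -⟩ := hB12 k t b hb hbp
    have hv := ((hR5 k t ⊤ b b top_ne_bot hb hb (top_sup_eq _) hbp hbp).2.2.2 z hz).1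
    refine ⟨fun h => ?_, fun h => ?_, fun h => ?_, fun h1 h2 h3 => ?_⟩
    · apply io_inj
      rw [hv, (hlat z h).2, zero_div, map_zero]
    · apply io_inj
      have e : z = S0 k t + (z - S0 k t) := by ring
      have h1 : wdC b z = wdC b (S0 k t) := by
        conv_lhs => rw [e]
        rw [(hper _ _ h).2.1]
      rw [hv, h1, div_self hwd, map_one]
    · apply io_inj
      have e : z = -S0 k t + (z + S0 k t) := by ring
      have h1 : wdC b z = -wdC b (S0 k t) := by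
        conv_lhs => rw [e]
        rw [(hper _ _ h).2.1, (hpar _).2.1]
      rw [hv, h1, neg_div, div_self hwd, map_neg, map_one]
    · apply io_inj
      rw [hv, E10v_wd hL6 hB1 hB4 b hb hbp z h1 h2 h3, mul_div_cancel_left₀ _ hwd]
      simp only [map_sub, map_add, map_mul, map_pow, map_one, map_ofNat]
      rw [(hR1 k t b hb).1, (hR4.1 k t b hb).2 z hz, (hR4.1 k t b hb).2 _ (tor_add hz E10v_tor)]
  refine ⟨hA, ?_⟩
  intro k t _ τ n a hn hnp hψ b hb hbp z hz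
  obtain ⟨hO1, -, -, hO4, -⟩ := hO6 k t
  have hap : PrI a (ppb k t) := hO4 a n (ppb k t) hnp hψ.cop
  have habp : PrI (a * b) (ppb k t) := (hO1 a b (ppb k t)).2 ⟨hap, hbp⟩
  have hab : a * b ≠ ⊥ := mul_ne_zero hψ.ne hb
  have hnb : n * b ≠ ⊥ := mul_ne_zero hn hb
  obtain ⟨hS0, -, hv⟩ := hA k t b hb hbp
  obtain ⟨-, -, hv'⟩ := hA k t (a * b) hab habp
  have hT : Tor k t z := tor_lam hnb hz
  have hS0n : S0 k t ∈ Lam (n * b) := lam_anti (Ideal.mul_mono_left hnp) hS0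
  have hL : ∀ y ∈ Lam (n * b), y ∉ Lam b → y ∉ Lam (a * b) := fun y hy h1 h2 =>
    h1 ((hL5 k t a b n hψ.ne hb hψ.cop).1 y hy h2)
  obtain ⟨h1, h2, h3, h4⟩ := hv z hT
  obtain ⟨h1', h2', h3', h4'⟩ := hv' z hT
  by_cases c1 : z ∈ Lam b
  · rw [h1 c1, h1' (lam_mono c1), map_zero]
  by_cases c2 : z - S0 k t ∈ Lam b
  · rw [h2 c2, h2' (lam_mono c2), map_one]
  by_cases c3 : z + S0 k t ∈ Lam b
  · rw [h3 c3, h3' (lam_mono c3), map_neg, map_one]
  have hp : z + S0 k t ∈ Lam (n * b) := lam_add hz hS0n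
  have hm : z - S0 k t ∈ Lam (n * b) := lam_sub hz hS0n
  rw [h4 c1 c2 c3, h4' (hL _ hz c1) (hL _ hm c2) (hL _ hp c3)]
  simp only [map_sub, map_add, map_mul, map_pow, map_one, map_ofNat]
  rw [hψ.aa b hb, hψ.xx b hb z hz, hψ.xx b hb _ hp]

end Pool.Agent.DT
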