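import Pool.Agent.Lib.DT.E.SpecA

/-!
# Theorem DT, part E: Frobenius elements at almost all degree one primes (`S_E2`)

Let `A` be the finite set of all conjugates of the numbers `aO b`, `xO b z` (`z ∈ Lam (n * b)`). Modulo a prime `Q`
above a degree one prime `q` prime to `6 n` at which the elements of `A` are incongruent, the Frobenius congruence
and Kronecker congruence give `τ (aO b) = aO (q b)` and `τ (xO b z) = xO (q b) z`.
-/

set_option autoImplicit false

open scoped Pointwise nonZeroDivisors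

noncomputable section

namespace Pool.Agent.DT

open Pool.Agent.MuZ Pool.Agent.FW NumberField IsDedekindDomain
open Pool.Agent.DI (io ofC io_inj exists_io io_ofC ofC_io VP MP UP TP ex)

/-- The conjugates of the elements of a finite set: a finite set, stable under the Galois group. -/
private theorem E2_conj (A : Set Om) (hA : A.Finite) :
    ∃ A' : Set Om, A'.Finite ∧ A ⊆ A' ∧ ∀ (τ : Gal(Om/ℚ)), ∀ x ∈ A, τ x ∈ A' := by
  have hx0 : ∀ x : Om, minpoly ℚ x ≠ 0 := fun x =>
    minpoly.ne_zero (Algebra.IsAlgebraic.isAlgebraic x).isIntegral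
  refine ⟨⋃ x ∈ A, (minpoly ℚ x).rootSet Om, hA.biUnion fun x _ => (minpoly ℚ x).rootSet_finite Om,
    ?_, ?_⟩
  · intro x hx
    rw [Set.mem_iUnion₂]
    refine ⟨x, hx, ?_⟩
    rw [Polynomial.mem_rootSet]
    exact ⟨hx0 x, minpoly.aeval ℚ x⟩
  · intro τ x hx
    rw [Set.mem_iUnion₂]
    refine ⟨x, hx, ?_⟩
    rw [Polynomial.mem_rootSet]
    refine ⟨hx0 x, ?_⟩
    have h1 : Polynomial.aeval (τ x) (minpoly ℚ x) = τ (Polynomial.aeval x (minpoly ℚ x)) :=
      Polynomial.aeval_algHom_apply (τ : Om →ₐ[ℚ] Om) x (minpoly ℚ x)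
    rw [h1, minpoly.aeval, map_zero]

/-- **Frobenius elements at almost all degree one primes.** -/
theorem sE2 (hO6 : S_O6) (hX : S_XOm) (hQ : S_AbQ) (hD1 : S_D1) (hD3 : S_D3) (hFN : S_FN)
    (hInc : S_Inc) : S_E2 := by
  intro k t _ n hn
  obtain ⟨N, hN, hNn⟩ := exists_nat hn
  obtain ⟨A₀, hA₀, hAa, hAx⟩ := hFN k t n hn
  obtain ⟨A, hA, hsub, hstab⟩ := E2_conj A₀ hA₀
  obtain ⟨B', hB', hI⟩ := hInc A hA
  refine ⟨6 * N * B', Nat.mul_pos (Nat.mul_pos (by norm_num) hN) hB', ?_⟩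
  intro q l hq hl Q hNQ hab τ _ hFr
  have hpr : Q.IsPrime := hNQ.1
  have hl1 : l.Coprime (6 * N) := Nat.Coprime.coprime_mul_right_right hl
  have hlB : l.Coprime B' := Nat.Coprime.coprime_mul_left_right hl
  have hlN : l.Coprime N := Nat.Coprime.coprime_mul_left_right hl1
  have hl6 : l.Coprime 6 := Nat.Coprime.coprime_mul_right_right hl1
  have hl3c : l.Coprime 3 := Nat.Coprime.coprime_dvd_right (by norm_num) hl6
  have hlp : l.Prime := hq.2.2.1
  have hl2 : l ≠ 2 := by
    rintro rfl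
    exact absurd hl6 (by decide)
  have hl3 : l ≠ 3 := by
    rintro rfl
    exact absurd hl6 (by decide)
  obtain ⟨hMl, hUn⟩ := (hQ k t).2.2.2.2.2 Q q l hNQ hq hab
  have hnd : ∀ m : ℕ, l.Coprime m → UP Q (m : Om) := by
    intro m hm
    have h1 : ¬ (l : ℤ) ∣ (m : ℤ) := by
      intro h
      have h2 : l ∣ m := by exact_mod_cast h
      exact hlp.one_lt.ne' (Nat.Coprime.eq_one_of_dvd hm h2)
    have h3 := hUn m h1
    rwa [Int.cast_natCast] at h3
  have hPb : ¬ AbPb k t Q := by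
    intro h
    have h2 : MP Q 3 := h.2.1
    have h3 := (hnd 3 hl3c).2
    rw [Nat.cast_ofNat] at h3
    exact h3 h2
  obtain ⟨hV, hE⟩ := hI Q l hNQ hMl hlB
  have hqb : ∀ b : Ideal (OO k t), b ≠ ⊥ → q * b ≠ ⊥ := fun b hb => mul_ne_zero hq.2.1 hb
  -- the common argument
  have key : ∀ x ∈ A₀, ∀ y ∈ A₀, MP Q (y - x ^ l) → τ x = y := by
    intro x hx y hy h
    refine hE (τ x) (hstab τ x hx) y (hsub hy) ?_
    have h1 : MP Q (τ x - x ^ l) := DI.VP.frob hFr (hV x (hsub hx))
    have h2 := DI.MP.sub h1 h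
    have e : τ x - y = τ x - x ^ l - (y - x ^ l) := by ring
    rw [e]
    exact h2
  have haa : ∀ b : Ideal (OO k t), b ≠ ⊥ → τ (aO b) = aO (q * b) := fun b hb =>
    key _ (hAa b hb) _ (hAa _ (hqb b hb)) (hD3 k t q l hq hl2 hl3 Q hNQ hab b hb).2.1
  refine ⟨hq.2.1, ?_, haa, ?_⟩
  · have h1 : PrI q (sN k t N) := by
      rw [(hO6 k t).2.2.2.2.1, hq.2.2.2]
      exact hlN
    exact (hO6 k t).2.2.2.1 q _ n ((Ideal.span_singleton_le_iff_mem n).2 hNn) h1
  · intro b hb z hz
    by_cases hzb : z ∈ Lam b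
    · have h1 := (hX k t b hb).1.2.2.1 z hzb
      have h2 := (hX k t (q * b) (hqb b hb)).1.2.2.1 z (lam_mono hzb)
      rw [h1, h2, ← haa b hb, map_div₀, map_neg, map_pow, map_ofNat]
    · have hnb : n * b ≠ ⊥ := mul_ne_zero hn hb
      have hTz : Tor k t z := tor_lam hnb hz
      have hK : ¬ IK Q b z := by
        intro h
        have h1 : Qp Q b z := (hD1 k t b hb Q hNQ hPb).2.2.2.2.1 z h
        have h2 : toC (1 : OO k t) * z ∈ Lam b := by
          refine h1 (N : OO k t) 1 ?_ ?_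
          · rw [toO_nat]
            exact (hnd N hlN).2
          · rw [mul_one]
            exact lam_prod.1 hz (N : OO k t) hNn
        rw [toC_one, one_mul] at h2
        exact hzb h2
      have hz' : z ∈ Lam (n * (q * b)) := by
        have e : n * (q * b) = q * (n * b) := by rw [mul_left_comm]
        rw [e]
        exact lam_mono hz
      exact key _ (hAx b hb z hz) _ (hAx _ (hqb b hb) z hz')
        ((hD3 k t q l hq hl2 hl3 Q hNQ hab b hb).2.2.2 z hTz hK).2

end Pool.Agent.DT
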