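import Pool.Agent.Lib.DT.E.SpecA

/-!
# Theorem DT, part E, module E3: Frobenius elements above `3`
-/

set_option autoImplicit false

open scoped Pointwise nonZeroDivisors

noncomputable section

namespace Pool.Agent.DT

open Pool.Agent.MuZ Pool.Agent.FW NumberField IsDedekindDomain
open Pool.Agent.DI (io ofC io_inj exists_io io_ofC ofC_io VP MP UP TP ex)

variable {k t : ℕ}

/-- If `n` is prime to `pp`, then `P` is not above `n`. -/
private theorem E3_ex (hAbQ : S_AbQ) [SqT k t] {P : Ideal ZZ} (hP : AbP k t P)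
    {n : Ideal (OO k t)} (hn : PrI n (pp k t)) : ∃ v ∈ n, ¬ MP P (toO v) := by
  by_contra hcon
  have h0 : Abv P n := fun v hv => by
    by_contra h
    exact hcon ⟨v, hv, h⟩
  obtain ⟨q, hq, -, -, hq2⟩ := (hAbQ k t).1 P hP.1
  have h1 : n ≤ q := (hq2 n).1 h0
  have h2 : pp k t ≤ q := (hq2 _).1 (((hAbQ k t).2.2.2.2.1 P).1.1 hP).2
  have h3 : n ⊔ pp k t ≤ q := sup_le h1 h2
  rw [show n ⊔ pp k t = ⊤ from hn, top_le_iff] at h3
  exact hq.ne_top h3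

/-- A torsion point of order prime to `pp` is not in the kernel of reduction. -/
private theorem E3_not_IK (hAbQ : S_AbQ) (hD1 : S_D1) [SqT k t] {P : Ideal ZZ} (hP : AbP k t P)
    {b n : Ideal (OO k t)} (hb : b ≠ ⊥) (hn : PrI n (pp k t)) {z : ℂ} (hz : z ∈ Lam (n * b))
    (hzb : z ∉ Lam b) : ¬ IK P b z := by
  intro h
  have hPb : ¬ AbPb k t P := fun h' => ((hAbQ k t).2.2.2.2.1 P).2.2.1 ⟨hP, h'⟩
  have h1 : Qp P b z := (hD1 k t b hb P hP.1 hPb).2.2.2.2.1 z h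
  obtain ⟨v, hv, hv2⟩ := E3_ex hAbQ hP hn
  have h3 := h1 v 1 hv2 (by
    rw [mul_one]
    exact lam_prod.1 hz v hv)
  rw [toC_one, one_mul] at h3
  exact hzb h3

/-- `3 y`, `y` integral at `P`, is in the maximal ideal. -/
private theorem E3_TP {P : Ideal ZZ} [hP : P.IsPrime] (h3 : MP P 3) {x : Om} (h : TP P 3 x) :
    MP P x := by
  obtain ⟨y, hy, rfl⟩ := h
  exact DI.MP.mul_right h3 hy

/-- The case of a prime above `pp`. -/
private theorem E3_core (hO4 : S_O4) (hO6 : S_O6) (hR2 : S_R2) (hAbQ : S_AbQ) (hD1 : S_D1)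
    (hD2 : S_D2) (hE1 : S_E1) (hE34 : S_E34) [SqT k t] {P : Ideal ZZ} (hP : AbP k t P)
    {τ : Gal(Om/ℚ)} (hτ : τ ∈ GK k t) (hF : Fro P 3 τ) {n : Ideal (OO k t)} (hn0 : n ≠ ⊥)
    (hn : PrI n (pp k t)) : Psi τ n (pp k t) := by
  have := hP.1.1
  obtain ⟨a, ha, -⟩ := (hE1 k t n hn0).1 τ hτ 1 one_pos
  have hpp : pp k t ≠ ⊥ := (hO4 k t).2.2.2.2.2.2.2.2.1
  have hpr : PrI (pp k t) n := ((hO6 k t).2.2.1 _ _).1 hn
  obtain ⟨h1, h2⟩ := hE34 k t P hP a (pp k t) n ha.ne hpp hn0 hn ha.cop hpr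
    (fun b hb => by
      obtain ⟨-, -, -, -, hR⟩ := hR2 k t b hb P hP.1
      obtain ⟨hu, hd, -⟩ := hR hP
      have h3 : MP P (τ (aO b) - aO b ^ 3) := DI.VP.frob hF hu.1
      have h4 := h3.sub (E3_TP hP.2.1 hd)
      rw [← ha.aa b hb]
      have e : τ (aO b) - aO (pp k t * b) =
          τ (aO b) - aO b ^ 3 - (aO (pp k t * b) - aO b ^ 3) := by ring
      rw [e]
      exact h4)
    (fun b hb z hz hzb => by
      have htor : Tor k t z := tor_lam (fun h => (Ideal.mul_eq_bot.1 h).elim hn0 hb) hz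
      have hik : ¬ IK P b z := E3_not_IK hAbQ hD1 hP hb hn hz hzb
      have hv : VP P (xO b z) := by
        by_contra h
        exact hik ⟨htor, Or.inr h⟩
      have h3 : MP P (τ (xO b z) - xO b z ^ 3) := DI.VP.frob hF hv
      have h4 := h3.sub (E3_TP hP.2.1 ((hD2 k t b hb P hP).2.2.2.2.1 z htor hik).2)
      rw [← ha.xx b hb z hz]
      have e : τ (xO b z) - xO (pp k t * b) z =
          τ (xO b z) - xO b z ^ 3 - (xO (pp k t * b) z - xO b z ^ 3) := by ring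
      rw [e]
      exact h4)
  exact
    { ne := hpp
      cop := hpr
      aa := fun b hb => (ha.aa b hb).trans (h1 b hb)
      xx := fun b hb z hz => (ha.xx b hb z hz).trans (h2 b hb z hz) }

theorem sE3 (hO3 : S_O3) (hO4 : S_O4) (hO6 : S_O6) (hR2 : S_R2) (hR4 : S_R4) (hAbQ : S_AbQ)
    (hD1 : S_D1) (hD2 : S_D2) (hE1 : S_E1) (hE34 : S_E34) (_hQpC : S_QpC) (hPsG : S_PsG)
    (hPsC : S_PsC) : S_E3 := by
  intro k t _ P τ hτ hF n hn0
  refine ⟨fun h hn => E3_core hO4 hO6 hR2 hAbQ hD1 hD2 hE1 hE34 h hτ hF hn0 hn, fun h hn => ?_⟩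
  obtain ⟨-, -, o3, -, -, o6, o7, -⟩ := hO3 k t
  obtain ⟨-, c, hc, hc2⟩ := hR4
  have hcQ : AbP k t (c • P) := (hc2 k t ⊤ top_ne_bot).2.2 P h
  obtain ⟨hcc, -, p1, p2, -⟩ := hPsG k t c hc
  have hn' : PrI (cjI n) (pp k t) := by
    have := (o6 n (ppb k t)).2 hn
    rwa [(hO4 k t).2.2.1] at this
  have h1 : Psi (c * τ * c) (cjI n) (pp k t) :=
    E3_core hO4 hO6 hR2 hAbQ hD1 hD2 hE1 hE34 hcQ (p1 τ hτ) (p2 P 3 τ hF) (o7 n hn0) hn'
  have h2 := hPsC k t c hc _ (p1 τ hτ) _ _ (o7 n hn0) h1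
  have h3 : c * (c * τ * c) * c = τ := by
    rw [← mul_assoc, ← mul_assoc, hcc, one_mul, mul_assoc, hcc, mul_one]
  rwa [h3, (o3 n).1, (hO4 k t).2.1] at h2

end Pool.Agent.DT
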