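import Pool.Agent.Lib.DT.E.SpecA

/-!
# Theorem DT, part E, module E34: rigidity modulo `P`

Port of `DK/E/E34.lean` (helper69).
-/

set_option autoImplicit false

open scoped Pointwise

noncomputable section

namespace Pool.Agent.DT

open Pool.Agent.MuZ Pool.Agent.FW NumberField
open Pool.Agent.DI (io ofC io_inj exists_io io_ofC ofC_io VP MP UP TP ex)

private lemma E34_top {k t : ℕ} [SqT k t] : (⊤ : Ideal (OO k t)) ≠ ⊥ := by
  intro h
  have h1 : (1 : OO k t) ∈ (⊥ : Ideal (OO k t)) := by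
    rw [← h]
    trivial
  exact one_ne_zero (Ideal.mem_bot.1 h1)

private lemma E34_mul {k t : ℕ} [SqT k t] {a b : Ideal (OO k t)} (ha : a ≠ ⊥) (hb : b ≠ ⊥) :
    a * b ≠ ⊥ :=
  mul_ne_zero ha hb

private lemma E34_notb {k t : ℕ} {P : Ideal ZZ} (hP : AbP k t P) : ¬ AbPb k t P := by
  intro h
  have hPP : P.IsPrime := hP.1.1
  have h1 : MP P (wO k t + (1 - wO k t)) := hP.2.2.add h.2.2
  rw [add_sub_cancel] at h1
  exact MP.one_not h1

/-- An element of `n` which is a unit at `P`. -/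
private lemma E34_ex (hA : S_AbQ) {k t : ℕ} [SqT k t] {P : Ideal ZZ} (hP : AbP k t P)
    {n : Ideal (OO k t)} (hn : PrI n (pp k t)) : ∃ v ∈ n, ¬ MP P (toO v) := by
  have hPP : P.IsPrime := hP.1.1
  have h1 : (1 : OO k t) ∈ n ⊔ pp k t := by
    rw [show n ⊔ pp k t = ⊤ from hn]
    trivial
  obtain ⟨x, hx, y, hy, hxy⟩ := Submodule.mem_sup.1 h1
  refine ⟨x, hx, fun hm => ?_⟩
  have hab : Abv P (pp k t) := (((hA k t).2.2.2.2.1 P).1.1 hP).2
  have h2 : MP P (toO x + toO y) := hm.add (hab y hy)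
  rw [← toO_add, hxy, toO_one] at h2
  exact MP.one_not h2

/-- A point of order prime to `P` in the kernel of reduction is a lattice point. -/
private lemma E34_ker (hD1 : S_D1) {k t : ℕ} [SqT k t] {P : Ideal ZZ} (hP : AbP k t P)
    {n : Ideal (OO k t)} {v : OO k t} (hv : v ∈ n) (hvP : ¬ MP P (toO v))
    {b : Ideal (OO k t)} (hb : b ≠ ⊥) {z : ℂ} (hz : z ∈ Lam (n * b)) (hI : IK P b z) :
    z ∈ Lam b := by
  obtain ⟨-, -, -, -, h5, -, -⟩ := hD1 k t b hb P hP.1 (E34_notb hP)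
  have h := h5 z hI v 1 hvP (by
    rw [mul_one]
    exact lam_prod.1 hz v hv)
  rwa [toC_one, one_mul] at h

/-- **Rigidity modulo `P`.** -/
theorem sE34 (_hO6 : S_O6) (_hL2 : S_L2) (hL5 : S_L5) (hB13 : S_B13) (hR1 : S_R1) (hR3 : S_R3)
    (hA : S_AbQ) (hXOm : S_XOm) (hD1 : S_D1) (hIso : S_Iso) : S_E34 := by
  intro k t _ P hP a c n ha hc hn hnP hna hnc hd hx
  obtain ⟨v₀, hv₀, hvP⟩ := E34_ex hA hP hnP
  have hdd : ∀ b : Ideal (OO k t), b ≠ ⊥ → aO (a * b) = aO (c * b) := fun b hb =>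
    hR3 k t (a * b) (c * b) (E34_mul ha hb) (E34_mul hc hb) P hP (hd b hb)
  refine ⟨hdd, fun b hb z hz => ?_⟩
  have hDC : AC a = AC c := by
    have h := hdd ⊤ E34_top
    rw [Ideal.mul_top, Ideal.mul_top] at h
    rw [← (hR1 k t a ha).1, ← (hR1 k t c hc).1, h]
  obtain ⟨α, α', hα, hα', e⟩ := hB13 k t a c ha hc hDC
  obtain ⟨-, -, -, -, hI⟩ := hIso k t a c α α' ha hc hα hα' e b hb
  obtain ⟨-, -, -, -, hIn⟩ := hIso k t a c α α' ha hc hα hα' e (n * b) (E34_mul hn hb)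
  have hab := E34_mul ha hb
  have hcb := E34_mul hc hb
  obtain ⟨⟨hper, heven, hlat, -⟩, -⟩ := hXOm k t (a * b) hab
  obtain ⟨⟨-, -, hlatc, -⟩, -⟩ := hXOm k t (c * b) hcb
  by_cases hzb : z ∈ Lam b
  · rw [hlat z (lam_mono hzb), hlatc z (lam_mono hzb), hdd b hb]
  have hza : z ∉ Lam (a * b) := fun h => hzb ((hL5 k t a b n ha hb hna).1 z hz h)
  have hzc : z ∉ Lam (c * b) := fun h => hzb ((hL5 k t c b n hc hb hnc).1 z hz h)
  set μ : ℂ := toC α / toC α' with hμ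
  have hμz : μ * z ∉ Lam (a * b) := fun h => hzc ((hI z).2.2 h)
  have hNz : z ∈ Lam (n * (a * b)) := by
    rw [mul_left_comm]
    exact lam_mono hz
  have hNμ : μ * z ∈ Lam (n * (a * b)) := by
    rw [mul_left_comm]
    exact (hIn z).2.1 (lam_mono hz)
  have hnab := E34_mul hn hab
  have hTz : Tor k t z := tor_lam hnab hNz
  have hTμ : Tor k t (μ * z) := tor_lam hnab hNμ
  have hkz : ¬ IK P (a * b) z := fun h => hza (E34_ker hD1 hP hv₀ hvP hab hNz h)
  have hkμ : ¬ IK P (a * b) (μ * z) := fun h => hμz (E34_ker hD1 hP hv₀ hvP hab hNμ h)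
  obtain ⟨-, -, -, -, -, -, h7⟩ := hD1 k t (a * b) hab P hP.1 (E34_notb hP)
  have hcong := hx b hb z hz hzb
  rw [(hI z).1] at hcong ⊢
  rcases h7 z (μ * z) hTz hTμ hkz hkμ hcong with h | h
  · have h8 : z + μ * z ∈ Lam (a * b) :=
      E34_ker hD1 hP hv₀ hvP hab (lam_add hNz hNμ) h
    have h9 := hper (-(μ * z)) _ h8
    rw [heven] at h9
    rw [← h9]
    congr 1
    ring
  · have h8 : z - μ * z ∈ Lam (a * b) :=
      E34_ker hD1 hP hv₀ hvP hab (lam_sub hNz hNμ) h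
    have h9 := hper (μ * z) _ h8
    rw [← h9]
    congr 1
    ring

end Pool.Agent.DT
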