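import Pool.Agent.Lib.DT.E.SpecA

/-!
# Theorem DT, part E, module E4: assembly of `S_E4`
-/

set_option autoImplicit false

noncomputable section

namespace Pool.Agent.DT

theorem sE4 (h1 : S_E4a) (h2 : S_E4b) : S_E4 := fun k t _ Q hQ τ hτ hi =>
  ⟨h1 k t Q hQ τ hτ hi, h2 k t Q hQ τ hτ hi⟩

end Pool.Agent.DT
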