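import Pool.Agent.Lib.DT.E.SpecA

/-!
# Theorem DT, part E, module E4a: inertia above `3`
-/

set_option autoImplicit false

open scoped Pointwise nonZeroDivisors

noncomputable section

namespace Pool.Agent.DT

open Pool.Agent.MuZ Pool.Agent.FW NumberField IsDedekindDomain
open Pool.Agent.DI (io ofC io_inj exists_io io_ofC ofC_io VP MP UP TP ex)

variable {k t : ℕ}

/-- There is an element of `n` which is a unit above `𝔭`. -/
private theorem E4a_ex [SqT k t] {P : Ideal ZZ} [P.IsPrime] (hP : Abv P (pp k t))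
    {n : Ideal (OO k t)} (hn : PrI n (pp k t)) : ∃ α ∈ n, ¬ MP P (toO α) := by
  have h1 : (1 : OO k t) ∈ n ⊔ pp k t := by
    rw [show n ⊔ pp k t = ⊤ from hn]
    trivial
  obtain ⟨u, hu, v, hv, huv⟩ := Submodule.mem_sup.1 h1
  refine ⟨u, hu, fun h => ?_⟩
  have h2 := h.add (hP v hv)
  rw [← toO_add, huv, toO_one] at h2
  exact DI.MP.one_not h2

/-- A torsion point of order prime to `𝔭` is not in the kernel of reduction. -/
private theorem E4a_not_IK (hD1 : S_D1) [SqT k t] {P : Ideal ZZ} (hP : Npr P) (hPb : ¬ AbPb k t P)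
    {b n : Ideal (OO k t)} (hb : b ≠ ⊥) {α : OO k t} (hα : α ∈ n) (hα' : ¬ MP P (toO α)) {z : ℂ}
    (hz : z ∈ Lam (n * b)) (hzb : z ∉ Lam b) : ¬ IK P b z := by
  intro h
  have := hP.1
  have h1 : Qp P b z := (hD1 k t b hb P hP hPb).2.2.2.2.1 z h
  have h3 := h1 α 1 hα' (by
    rw [mul_one]
    exact lam_prod.1 hz α hα)
  rw [toC_one, one_mul] at h3
  exact hzb h3

/-- The case of a prime above `𝔭`. -/
private theorem E4a_core (hAbQ : S_AbQ) (hR2 : S_R2) (hD1 : S_D1) (hE1 : S_E1) (hE34 : S_E34)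
    [SqT k t] {P : Ideal ZZ} (hP : AbP k t P) {τ : Gal(Om/ℚ)} (hτ : τ ∈ GK k t)
    (hι : τ ∈ P.inertia Gal(Om/ℚ)) {n : Ideal (OO k t)} (hn0 : n ≠ ⊥) (hn : PrI n (pp k t)) :
    Psi τ n (⊤ : Ideal (OO k t)) := by
  have := hP.1.1
  have hA := (hAbQ k t).2.2.2.2.1 P
  have hPb : ¬ AbPb k t P := fun h' => hA.2.2.1 ⟨hP, h'⟩
  obtain ⟨α, hα, hα'⟩ := E4a_ex (hA.1.1 hP).2 hn
  obtain ⟨a, ha, -⟩ := (hE1 k t n hn0).1 τ hτ 1 one_pos
  have htop : (⊤ : Ideal (OO k t)) ≠ ⊥ := top_ne_bot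
  have hptop : PrI (⊤ : Ideal (OO k t)) n := top_sup_eq _
  obtain ⟨h1, h2⟩ := hE34 k t P hP a ⊤ n ha.ne htop hn0 hn ha.cop hptop
    (fun b hb => by
      rw [← ha.aa b hb, Ideal.top_mul]
      exact DI.VP.inertia hι (hR2 k t b hb P hP.1).1)
    (fun b hb z hz hzb => by
      rw [← ha.xx b hb z hz, Ideal.top_mul]
      refine DI.VP.inertia hι ?_
      by_contra h
      have hnb : n * b ≠ ⊥ := mul_ne_zero hn0 hb
      exact E4a_not_IK hD1 hP.1 hPb hb hα hα' hz hzb ⟨tor_lam hnb hz, Or.inr h⟩)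
  exact
    { ne := htop
      cop := hptop
      aa := fun b hb => (ha.aa b hb).trans (h1 b hb)
      xx := fun b hb z hz => (ha.xx b hb z hz).trans (h2 b hb z hz) }

theorem sE4a (hO3 : S_O3) (hO4 : S_O4) (_hO6 : S_O6) (hR2 : S_R2) (hR4 : S_R4) (hAbQ : S_AbQ)
    (hD1 : S_D1) (hE1 : S_E1) (hE34 : S_E34) (_hQpC : S_QpC) (hPsG : S_PsG) (hPsC : S_PsC) :
    S_E4a := by
  intro k t _ Q hQ τ hτ hι n hn0
  refine ⟨fun h hn => E4a_core hAbQ hR2 hD1 hE1 hE34 h hτ hι hn0 hn, fun h hn => ?_⟩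
  obtain ⟨-, c, hc, hc2⟩ := hR4
  have hcQ : AbP k t (c • Q) := (hc2 k t ⊤ top_ne_bot).2.2 Q h
  obtain ⟨g1, -, g3, -, g5⟩ := hPsG k t c hc
  have hn0' : cjI n ≠ ⊥ := (hO3 k t).2.2.2.2.2.2.1 n hn0
  have hn' : PrI (cjI n) (pp k t) := by
    rw [← (hO4 k t).2.2.1]
    exact ((hO3 k t).2.2.2.2.2.1 n (ppb k t)).2 hn
  have h1 : Psi (c * τ * c) (cjI n) (⊤ : Ideal (OO k t)) :=
    E4a_core hAbQ hR2 hD1 hE1 hE34 hcQ (g3 τ hτ) (g5 Q τ hι) hn0' hn'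
  have h2 := hPsC k t c hc _ (g3 τ hτ) (cjI n) ⊤ hn0' h1
  have h3 : c * (c * τ * c) * c = τ := by
    rw [← mul_assoc, ← mul_assoc, g1, one_mul, mul_assoc, g1, mul_one]
  have h4 : cjI (⊤ : Ideal (OO k t)) = ⊤ := by
    rw [eq_top_iff]
    intro v _
    exact ((hO3 k t).1 ⊤ v).2 trivial
  rwa [h3, h4, ((hO3 k t).2.2.1 n).1] at h2

end Pool.Agent.DT
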