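import Pool.Agent.Lib.DT.E.SpecA

/-!
# Theorem DT, part E, module E4b: inertia and the torsion prime to `Q`
-/

set_option autoImplicit false

open scoped Pointwise nonZeroDivisors

noncomputable section

namespace Pool.Agent.DT

open Pool.Agent.MuZ Pool.Agent.FW NumberField IsDedekindDomain
open Pool.Agent.DI (io ofC io_inj exists_io io_ofC ofC_io VP MP UP TP ex)

variable {k t : ℕ}

private theorem E4b_mul [SqT k t] {a b : Ideal (OO k t)} (ha : a ≠ ⊥) (hb : b ≠ ⊥) : a * b ≠ ⊥ :=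
  fun h => (Ideal.mul_eq_bot.1 h).elim ha hb

/-- Lattice points. -/
private theorem E4b_in [SqT k t] (hX : S_XOm) {b : Ideal (OO k t)} (hb : b ≠ ⊥) (v : OO k t)
    {z : ℂ} (hz : z ∈ Lam b) : xO b (toC v * z) = xO b z := by
  obtain ⟨⟨-, -, h3, -⟩, -⟩ := hX k t b hb
  rw [h3 z hz, h3 _ (lam_mul v hz)]

private theorem E4b_out [SqT k t] (hL5 : S_L5) {b n : Ideal (OO k t)} (hb : b ≠ ⊥) {v : OO k t}
    {τ : Gal(Om/ℚ)} (hPsi : Psi τ n (sp v)) {z : ℂ} (hnz : z ∈ Lam (n * b)) (hz : z ∉ Lam b) :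
    toC v * z ∉ Lam b := by
  intro h
  exact hz ((hL5 k t (sp v) b n hPsi.ne hb hPsi.cop).1 z hnz (lam_sp.2 h))

/-- The case of the primes which are not above `𝔭̄`. -/
private theorem E4b_core [SqT k t] (hL5 : S_L5) (hX : S_XOm) (hD1 : S_D1) {Q : Ideal ZZ}
    (hQ : Npr Q) (hQb : ¬ AbPb k t Q) {τ : Gal(Om/ℚ)} (hτ : τ ∈ Q.inertia Gal(Om/ℚ))
    (v : OO k t) (b δ n : Ideal (OO k t)) (hb : b ≠ ⊥) (hδ : δ ≠ ⊥)
    (hnδ : n ≤ δ) (hA : ¬ Abv Q δ) (hPsi : Psi τ n (sp v)) (z : ℂ)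
    (hz : z ∈ Lam (δ * b)) : xO b (toC v * z) = xO b z := by
  have hQp : Q.IsPrime := hQ.1
  have hv0 : v ≠ 0 := by
    intro h
    apply hPsi.ne
    rw [h]
    exact Ideal.span_singleton_eq_bot.2 rfl
  have hnz : z ∈ Lam (n * b) := lam_anti (Ideal.mul_mono_left hnδ) hz
  have htz : Tor k t z := tor_lam (E4b_mul hδ hb) hz
  have htv : Tor k t (toC v * z) := tor_mul v htz
  by_cases hzb : z ∈ Lam b
  · exact E4b_in hX hb v hzb
  have hvz : toC v * z ∉ Lam b := E4b_out hL5 hb hPsi hnz hzb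
  obtain ⟨-, x2, -, -, -, -, -, -, -, x9⟩ := hX k t b hb
  obtain ⟨-, -, -, -, d5, -, d7⟩ := hD1 k t b hb Q hQ hQb
  obtain ⟨α, hα, hα'⟩ : ∃ α ∈ δ, ¬ MP Q (toO α) := by
    by_contra hcon
    push Not at hcon
    exact hA hcon
  have hIK : ∀ y : ℂ, toC α * y ∈ Lam b → IK Q b y → y ∈ Lam b := by
    intro y hy h1
    have h2 := d5 y h1 α 1 hα' (by rwa [mul_one])
    rwa [toC_one, one_mul] at h2
  have hαz : toC α * z ∈ Lam b := lam_prod.1 hz α hα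
  have hαv : toC α * (toC v * z) ∈ Lam b := by
    have e : toC α * (toC v * z) = toC v * (toC α * z) := by ring
    rw [e]
    exact lam_mul v hαz
  have hIz : ¬ IK Q b z := fun h => hzb (hIK z hαz h)
  have hIv : ¬ IK Q b (toC v * z) := fun h => hvz (hIK _ hαv h)
  have hVz : VP Q (xO b z) := by
    by_contra h
    exact hIz ⟨htz, Or.inr h⟩
  have hτz : τ (xO b z) = xO b (toC v * z) := by
    rw [hPsi.xx b hb z hnz, (x9 v hv0).1]
  have hMP : MP Q (xO b (toC v * z) - xO b z) := by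
    rw [← hτz]
    exact DI.VP.inertia hτ hVz
  rw [x2 _ _ htv htz hvz hzb]
  rcases d7 _ _ htv htz hIv hIz hMP with h | h
  · right
    refine hIK _ ?_ h
    rw [mul_add]
    exact lam_add hαv hαz
  · left
    refine hIK _ ?_ h
    rw [mul_sub]
    exact lam_sub hαv hαz

theorem sE4b (hO3 : S_O3) (hL2 : S_L2) (hL5 : S_L5) (hR4 : S_R4) (hAbQ : S_AbQ)
    (hX : S_XOm) (hD1 : S_D1) (hQpC : S_QpC) (hPsG : S_PsG) (hPsC : S_PsC) : S_E4b := by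
  intro k t _ Q hQ τ hτG hτ v b δ n hn hb hδ hnδ hA hPsi z hz
  by_cases hQb : AbPb k t Q
  swap
  · exact E4b_core hL5 hX hD1 hQ hQb hτ v b δ n hb hδ hnδ hA hPsi z hz
  have htz : Tor k t z := tor_lam (E4b_mul hδ hb) hz
  have htv : Tor k t (toC v * z) := tor_mul v htz
  obtain ⟨-, c, hc, hc1⟩ := hR4
  obtain ⟨c2, -, c4⟩ := hc1 k t b hb
  have hQ' : AbP k t (c • Q) := c4 Q hQb
  have hQb' : ¬ AbPb k t (c • Q) :=
    fun h => ((hAbQ k t).2.2.2.2.1 (c • Q)).2.2.1 ⟨hQ', h⟩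
  obtain ⟨-, -, -, -, p5⟩ := hPsG k t c hc
  obtain ⟨o1, o2, -, o4, -, -, o7, -⟩ := hO3 k t
  have hPsi' : Psi (c * τ * c) (cjI n) (sp (cjO v)) := by
    rw [← o4 v]
    exact hPsC k t c hc τ hτG n (sp v) hn hPsi
  have hδ' : cjI δ ≠ ⊥ := o7 δ hδ
  have hb' : cjI b ≠ ⊥ := o7 b hb
  have hnδ' : cjI n ≤ cjI δ := by
    intro x hx
    rw [o1] at hx ⊢
    exact hnδ hx
  have hA' : ¬ Abv (c • Q) (cjI δ) := fun h => hA (((hQpC k t c hc Q b z hQ hb).2.2.2.1 δ).1 h)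
  obtain ⟨-, -, -, -, -, -, -, l8, -⟩ := hL2 k t
  have hz' : (starRingEnd ℂ) z ∈ Lam (cjI δ * cjI b) := by
    rw [← o2, l8, Complex.conj_conj]
    exact hz
  have h := E4b_core hL5 hX hD1 hQ'.1 hQb' (p5 Q τ hτ) (cjO v) (cjI b) (cjI δ) (cjI n) hb' hδ'
    hnδ' hA' hPsi' _ hz'
  rw [← conj_toC, ← map_mul] at h
  obtain ⟨⟨-, -, -, -, -, hkp, -⟩, -⟩ := hX k t (cjI b) hb'
  apply c.injective
  apply mul_right_cancel₀ hkp
  rw [c2 z htz, c2 _ htv, h]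

end Pool.Agent.DT
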