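import Pool.Agent.Lib.DT.E.SpecA

/-!
# Theorem DT, part E, module Efr: the framing in a ray class (after `DK/E/Efr`)
-/

set_option autoImplicit false

noncomputable section

namespace Pool.Agent.DT

/-- An element prime to `ppb` is `1` or `-1` modulo `ppb`. -/
private theorem Efr_sgn (hO4 : S_O4) {k t : ℕ} [SqT k t] {α : OO k t}
    (h : PrI (sp α) (ppb k t)) : α - 1 ∈ ppb k t ∨ α + 1 ∈ ppb k t := by
  obtain ⟨-, -, -, -, hp, -, -, -, -, -, -, hm⟩ := hO4 k t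
  have h1 : α ∉ ppb k t := by
    intro h2
    have h3 : sp α ≤ ppb k t := (Ideal.span_singleton_le_iff_mem _).2 h2
    apply hp.ne_top
    have h4 : sp α ⊔ ppb k t = ⊤ := h
    rwa [sup_eq_right.2 h3] at h4
  rw [hm] at h1
  rw [hm, hm, QuadraticAlgebra.re_sub, QuadraticAlgebra.im_sub, QuadraticAlgebra.re_add,
    QuadraticAlgebra.im_add, re_one, im_one]
  omega

/-- The transformation of the framing. -/
private theorem Efr_one (hO4 : S_O4) (hO6 : S_O6) (hB12 : S_B12) {k t : ℕ} [SqT k t]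
    {a a' : Ideal (OO k t)} (ha : a ≠ ⊥) (ha' : a' ≠ ⊥) (hp : PrI a (ppb k t))
    (hp' : PrI a' (ppb k t)) {α α' : OO k t} (hα : α ≠ 0) (hα' : α' ≠ 0)
    (hc : PrI (sp α) (ppb k t)) (hd : α - α' ∈ ppb k t) (he : sp α * a = sp α' * a')
    (b : Ideal (OO k t)) (hb : b ≠ ⊥) (hpb : PrI b (ppb k t)) :
    toC α * fr (a * b) = toC α' * fr (a' * b) := by
  obtain ⟨o1, -⟩ := hO6 k t
  have hab : a * b ≠ ⊥ := mul_ne_zero ha hb
  have hab' : a' * b ≠ ⊥ := mul_ne_zero ha' hb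
  obtain ⟨-, -, -, -, -, p1, m1, -⟩ := hB12 k t (a * b) hab ((o1 a b _).2 ⟨hp, hpb⟩)
  obtain ⟨-, -, -, -, -, p2, m2, -⟩ := hB12 k t (a' * b) hab' ((o1 a' b _).2 ⟨hp', hpb⟩)
  have e : sp α * (a * b) = sp α' * (a' * b) := by
    rw [← mul_assoc, he, mul_assoc]
  rcases Efr_sgn hO4 hc with h1 | h1
  · have h2 : α' - 1 ∈ ppb k t := by
      have h3 := Ideal.sub_mem _ h1 hd
      have h4 : α - 1 - (α - α') = α' - 1 := by ring
      rwa [h4] at h3
    rw [← p1 α hα h1, ← p2 α' hα' h2, e]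
  · have h2 : α' + 1 ∈ ppb k t := by
      have h3 := Ideal.sub_mem _ h1 hd
      have h4 : α + 1 - (α - α') = α' + 1 := by ring
      rwa [h4] at h3
    have e1 := m1 α hα h1
    have e2 := m2 α' hα' h2
    rw [e, e2] at e1
    linear_combination e1

theorem sEfr (hO4 : S_O4) (hO6 : S_O6) (hB12 : S_B12) (_hR5 : S_R5) : S_Efr := by
  intro k t _ a a' ha ha' hp hp' hray b c hb hc hpb hpc
  obtain ⟨α, α', hα, hα', hcα, hcα', hd, he⟩ := hray
  have key := Efr_one hO4 hO6 hB12 ha ha' hp hp' hα hα' hcα hd he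
  have kb := key b hb hpb
  have kc := key c hc hpc
  have n1 : toC α ≠ 0 := toC_ne hα
  have n2 : toC α' ≠ 0 := toC_ne hα'
  unfold rO
  congr 1
  rw [← mul_div_mul_left (fr (a * c)) (fr (a * b)) n1,
    ← mul_div_mul_left (fr (a' * c)) (fr (a' * b)) n2, kb, kc]

end Pool.Agent.DT
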