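import Pool.Agent.Lib.DT.E.SpecA

/-!
# Theorem DT, part E: module `Ero` (Galois action on the quotient of the framings, large level)
-/

set_option autoImplicit false

open scoped Pointwise nonZeroDivisors

noncomputable section

namespace Pool.Agent.DT

open Pool.Agent.MuZ Pool.Agent.FW NumberField IsDedekindDomain
open Pool.Agent.DI (io ofC io_inj exists_io io_ofC ofC_io VP MP UP TP ex)

private theorem Ero_top (k t : ℕ) (n : Ideal (OO k t)) : PrI (⊤ : Ideal (OO k t)) n := by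
  unfold PrI
  rw [top_sup_eq]

open Classical in
private theorem Ero_one (hO6 : S_O6) (hB12 : S_B12) (hR1 : S_R1) (hR4 : S_R4) (hR5 : S_R5)
    (k t : ℕ) [SqT k t] (b c : Ideal (OO k t)) (hb : b ≠ ⊥) (hc : c ≠ ⊥)
    (hbp : PrI b (ppb k t)) (hcp : PrI c (ppb k t)) (R : Finset ℂ) (hR : IsSys c b R) :
    rO b (c * b) * aO b =
      NI c * aO b + 3 * ∑ u ∈ R, (if u ∈ Lam b then 0 else (xO b u)⁻¹) := by
  have hcb : c * b ≠ ⊥ := fun h => (Ideal.mul_eq_bot.1 h).elim hc hb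
  have hcbp : PrI (c * b) (ppb k t) := ((hO6 k t).1 c b (ppb k t)).2 ⟨hcp, hbp⟩
  obtain ⟨h1, -, h2, -⟩ := hR5 k t ⊤ b (c * b) top_ne_bot hb hcb (Ero_top k t _) hbp hcbp
  have h3 := (((hB12 k t b hb hbp).2.2.2.2.2.2.2) c hc hcp R hR).2
  have hs : io (∑ u ∈ R, (if u ∈ Lam b then 0 else (xO b u)⁻¹)) =
      ∑ u ∈ R, (if u ∈ Lam b then 0 else 1 / XC b u) := by
    rw [map_sum]
    refine Finset.sum_congr rfl fun u hu => ?_
    by_cases h : u ∈ Lam b
    · rw [if_pos h, if_pos h, map_zero]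
    · rw [if_neg h, if_neg h, map_inv₀, (hR4.1 k t b hb).2 u (tor_lam hcb (hR.mem u hu)),
        one_div]
  apply io_inj
  rw [map_mul, map_add, map_mul, map_mul, map_natCast, map_ofNat, hs, h2, (hR1 k t b hb).1]
  have h4 : fr (c * b) * AC b = fr b * (NI c * AC b + 3 *
      ∑ u ∈ R, (if u ∈ Lam b then 0 else 1 / XC b u)) := by
    rw [mul_comm]
    exact h3
  rw [div_mul_eq_mul_div, h4, mul_div_cancel_left₀ _ h1]

open Classical in
theorem sEro (hO6 : S_O6) (hL3 : S_L3) (hL5 : S_L5) (hB12 : S_B12) (hR1 : S_R1) (hR4 : S_R4)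
    (hR5 : S_R5) (hSyA : S_SyA) (_hE10a : S_E10a) : S_Ero := by
  refine ⟨fun k t _ b c hb hc hbp hcp R hR =>
    Ero_one hO6 hB12 hR1 hR4 hR5 k t b c hb hc hbp hcp R hR, ?_⟩
  intro k t _ τ n a hn hnp hpsi b c hb hc hbp hcp hnc
  obtain ⟨-, -, R, hR, -⟩ := hL3 k t c b hc hb
  have ha : a ≠ ⊥ := hpsi.ne
  have hab : a * b ≠ ⊥ := fun h => (Ideal.mul_eq_bot.1 h).elim ha hb
  have hap : PrI a (ppb k t) := (hO6 k t).2.2.2.1 a n (ppb k t) hnp hpsi.cop
  have habp : PrI (a * b) (ppb k t) := ((hO6 k t).1 a b (ppb k t)).2 ⟨hap, hbp⟩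
  obtain ⟨-, hs1, hs2, -⟩ := hSyA k t a b c n ha hb hc hpsi.cop hnc
  have e1 := Ero_one hO6 hB12 hR1 hR4 hR5 k t b c hb hc hbp hcp R hR
  have e2 := Ero_one hO6 hB12 hR1 hR4 hR5 k t (a * b) c hab hc habp hcp R (hs2 R hR)
  have e3 := congrArg τ e1
  rw [map_mul, map_add, map_mul, map_mul, map_natCast, map_ofNat, map_sum, hpsi.aa b hb] at e3
  have e4 : ∑ u ∈ R, τ (if u ∈ Lam b then 0 else (xO b u)⁻¹) =
      ∑ u ∈ R, (if u ∈ Lam (a * b) then 0 else (xO (a * b) u)⁻¹) := by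
    refine Finset.sum_congr rfl fun u hu => ?_
    have hu1 : u ∈ Lam (n * b) := hs1 u (hR.mem u hu)
    by_cases h : u ∈ Lam b
    · rw [if_pos h, if_pos (lam_mono h), map_zero]
    · have h' : u ∉ Lam (a * b) := fun h2 => h ((hL5 k t a b n ha hb hpsi.cop).1 u hu1 h2)
      rw [if_neg h, if_neg h', map_inv₀, hpsi.xx b hb u hu1]
  rw [e4, ← e2, mul_left_comm c a b] at e3
  have h0 : aO (a * b) ≠ 0 := (hR5 k t ⊤ (a * b) (a * b) top_ne_bot hab hab (Ero_top k t _) habp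
    habp).2.1
  exact mul_right_cancel₀ h0 e3

end Pool.Agent.DT
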