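import Pool.Agent.Lib.DT.E.SpecA
import Pool.Agent.Lib.DK.Gen

/-!
# Theorem DT, part E, module Ex: existence of the ideal `a` with `Psi τ n a` (port of DK/E/ExA; helper49)
-/

set_option autoImplicit false

open scoped Pointwise nonZeroDivisors

noncomputable section

namespace Pool.Agent.DT

open Pool.Agent.MuZ Pool.Agent.FW NumberField IsDedekindDomain
open Pool.Agent.DI (io ofC io_inj exists_io io_ofC ofC_io VP MP UP TP ex)

private theorem Ex_mul (h6 : S_O6) {k t : ℕ} [SqT k t] {τ τ' : Gal(Om/ℚ)}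
    {n a a' : Ideal (OO k t)} (h : Psi τ n a) (h' : Psi τ' n a') : Psi (τ * τ') n (a * a') where
  ne := mul_ne_zero h.ne h'.ne
  cop := ((h6 k t).1 a a' n).2 ⟨h.cop, h'.cop⟩
  aa b hb := by
    rw [AlgEquiv.mul_apply, h'.aa b hb, h.aa _ (mul_ne_zero h'.ne hb), mul_assoc]
  xx b hb z hz := by
    rw [AlgEquiv.mul_apply, h'.xx b hb z hz, h.xx _ (mul_ne_zero h'.ne hb) z (by
      rw [mul_left_comm]
      exact lam_mono hz), mul_assoc]

private theorem Ex_top {k t : ℕ} [SqT k t] {n : Ideal (OO k t)} {τ : Gal(Om/ℚ)}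
    (h1 : ∀ b : Ideal (OO k t), b ≠ ⊥ → τ (aO b) = aO b)
    (h2 : ∀ b : Ideal (OO k t), b ≠ ⊥ → ∀ z ∈ Lam (n * b), τ (xO b z) = xO b z) :
    Psi τ n (⊤ : Ideal (OO k t)) where
  ne := top_ne_bot
  cop := top_sup_eq _
  aa b hb := by rw [h1 b hb, Ideal.top_mul]
  xx b hb z hz := by rw [h2 b hb z hz, Ideal.top_mul]

/-- Existence of the ideal `a` with `Psi τ n a`, prime to a given number. -/
theorem sEx (h6 : S_O6) (fn : S_FN) (br : S_BrK) (op : S_OpA) (e2 : S_E2) : S_Ex := by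
  intro k t _ n hn τ₀ hτ₀ M hM
  obtain ⟨A, hA, hA1, hA2⟩ := fn k t n hn
  obtain ⟨U, hU⟩ := op.1 A hA
  obtain ⟨hfd, _, hbr⟩ := br k t
  obtain ⟨B, hB, hB'⟩ := e2 k t n hn
  have hnf : NumberField (KQ k t) := ⟨⟩
  let Hs : Set Gal(Om/ℚ) :=
    {τ | τ ∈ GK k t ∧ ∃ a : Ideal (OO k t), Psi τ n a ∧ PrI a (sN k t M)}
  have hmul : ∀ τ ∈ Hs, ∀ τ' ∈ Hs, τ * τ' ∈ Hs := by
    rintro τ ⟨h1, a, ha, ha1⟩ τ' ⟨h1', a', ha', ha1'⟩
    exact ⟨mul_mem h1 h1', a * a', Ex_mul h6 ha ha', ((h6 k t).1 a a' _).2 ⟨ha1, ha1'⟩⟩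
  have hUs : ∀ τ ∈ GK k t, τ ∈ U → τ ∈ Hs := by
    intro τ h1 h2
    exact ⟨h1, ⊤, Ex_top (fun b hb => hU τ h2 _ (hA1 b hb))
      (fun b hb z hz => hU τ h2 _ (hA2 b hb z hz)), top_sup_eq _⟩
  have hinv := op.2 k t U Hs (fun τ h => h.1) hUs hmul
  let H : Subgroup Gal(Om/ℚ) :=
    { carrier := Hs
      mul_mem' := fun {a b} ha hb => hmul a ha b hb
      one_mem' := hUs 1 (one_mem _) (one_mem U)
      inv_mem' := fun {a} ha => hinv a ha }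
  have hgen := Pool.Agent.DK.gen_frob (KQ k t) H U (B * M) (fun τ h => hUs τ h.1 h.2)
    (Nat.mul_pos hB hM)
    (fun l Q τ hl hlB hQ hQ0 hlQ hcard hτ hFr => by
      obtain ⟨q, hq, hqA⟩ := hbr l Q hl ⟨hQ, hQ0⟩ hlQ hcard
      have hlB1 : l.Coprime B :=
        (Nat.Prime.coprime_iff_not_dvd hl).2 fun h => hlB (h.mul_right M)
      have hlM1 : l.Coprime M :=
        (Nat.Prime.coprime_iff_not_dvd hl).2 fun h => hlB (h.mul_left B)
      refine ⟨hτ, q, hB' q l hq hlB1 Q ⟨hQ, hQ0⟩ hqA τ hτ hFr, ?_⟩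
      rw [(h6 k t).2.2.2.2.1, hq.2.2.2]
      exact hlM1)
  exact (hgen hτ₀).2

end Pool.Agent.DT
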