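import Pool.Agent.Lib.DT.E.SpecA

/-! # Theorem DT, part E, module FN: finiteness of the set of values -/

set_option autoImplicit false

open scoped Pointwise nonZeroDivisors

noncomputable section

namespace Pool.Agent.DT

open Pool.Agent.MuZ Pool.Agent.FW NumberField IsDedekindDomain
open Pool.Agent.DI (io ofC io_inj exists_io io_ofC ofC_io VP MP UP TP ex)

/-- Finiteness of the set of values. -/
theorem sFN (hO7 : S_O7) (hL3 : S_L3) (hX : S_XOm) (hI : S_Iso) : S_FN := by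
  intro k t _ n hn
  obtain ⟨R0, hR⟩ := (hO7 k t ⊤ top_ne_bot).2.2.2.2.2.2.2.2.2
  have hsys : ∀ b : Ideal (OO k t), ∃ R : Finset ℂ, b ≠ ⊥ → IsSys n b R := by
    intro b
    by_cases hb : b = ⊥
    · exact ⟨∅, fun h => absurd hb h⟩
    · obtain ⟨_, _, R, h1, _⟩ := hL3 k t n b hn hb
      exact ⟨R, fun _ => h1⟩
  choose S hS using hsys
  have key : ∀ b : Ideal (OO k t), b ≠ ⊥ → ∃ b0 ∈ R0, aO b = aO b0 ∧ ∀ z ∈ Lam (n * b),
      ∃ y ∈ Lam (n * b0), xO b z = xO b0 y := by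
    intro b hb
    have hp : PrI b ⊤ := by
      change b ⊔ ⊤ = ⊤
      rw [sup_top_eq]
    obtain ⟨b0, hb0, α, α', hα, hα', _, _, _, hm⟩ := hR.ex b hb hp
    have hb0' : b0 ≠ ⊥ := (hR.mem b0 hb0).1
    have h1 := hI k t b0 b α' α hb0' hb hα' hα hm.symm ⊤ top_ne_bot
    rw [Ideal.mul_top, Ideal.mul_top] at h1
    obtain ⟨h2, _, _, _, h3⟩ := h1
    have h4 := (hI k t b0 b α' α hb0' hb hα' hα hm.symm n hn).2.2.2.2
    refine ⟨b0, hb0, h2, ?_⟩
    intro z hz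
    refine ⟨toC α' / toC α * z, ?_, (h3 z).1⟩
    rw [mul_comm] at hz ⊢
    exact (h4 z).2.mp hz
  refine ⟨(aO '' (R0 : Set (Ideal (OO k t)))) ∪
    ⋃ b ∈ (R0 : Set (Ideal (OO k t))), xO b '' (S b : Set ℂ), ?_, ?_, ?_⟩
  · refine Set.Finite.union (R0.finite_toSet.image _) ?_
    refine Set.Finite.biUnion R0.finite_toSet ?_
    intro b _
    exact (S b).finite_toSet.image _
  · intro b hb
    obtain ⟨b0, h0, h1, _⟩ := key b hb
    exact Or.inl ⟨b0, h0, h1.symm⟩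
  · intro b hb z hz
    obtain ⟨b0, h0, _, h2⟩ := key b hb
    obtain ⟨y, hy, h3⟩ := h2 z hz
    have hb0 : b0 ≠ ⊥ := (hR.mem b0 h0).1
    obtain ⟨u, hu, hu'⟩ := (hS b0 hb0).ex y hy
    have h5 : xO b0 y = xO b0 u := by
      have h6 := (hX k t b0 hb0).1.1 u (y - u) hu'
      rw [← h6]
      congr 1
      ring
    refine Or.inr ?_
    rw [Set.mem_iUnion₂]
    exact ⟨b0, h0, u, hu, by rw [h3, h5]⟩

end Pool.Agent.DT
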