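import Pool.Agent.Lib.DT.E.SpecA

set_option autoImplicit false

/-!
# Theorem DT, part E, module PsG: complex conjugation of Frobenius and inertia elements
-/

open scoped Pointwise nonZeroDivisors

noncomputable section

namespace Pool.Agent.DT

open Pool.Agent.MuZ Pool.Agent.FW NumberField IsDedekindDomain
open Pool.Agent.DI (io ofC io_inj exists_io io_ofC ofC_io VP MP UP TP ex)

theorem sPsG (_hQ : S_QpC) : S_PsG := by
  intro k t _ c hc
  have hcc : c * c = 1 := AlgEquiv.ext fun x => by
    apply io_inj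
    rw [AlgEquiv.mul_apply, hc, hc, Complex.conj_conj]
    rfl
  have hinv : c⁻¹ = c := inv_eq_of_mul_eq_one_left hcc
  have hw : c (wO k t) = t - wO k t := by
    apply io_inj
    rw [hc, io_wO, conj_wC, map_sub, map_natCast, io_wO]
  refine ⟨hcc, hw, ?_, ?_, ?_⟩
  · intro τ hτ
    rw [mem_GK_iff, AlgEquiv.mul_apply, AlgEquiv.mul_apply, hw, map_sub, map_natCast,
      mem_GK_iff.1 hτ, map_sub, map_natCast, hw, sub_sub_cancel]
  · intro Q l τ h b
    have h1 := h (c⁻¹ • b)
    have h2 := (DI.smul_mem_smul_iff (P := Q) c _).2 h1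
    rw [smul_sub, smul_pow', smul_inv_smul, smul_smul, smul_smul, hinv] at h2
    exact h2
  · intro Q τ h b
    have h1 := DI.inertia_smul h (c⁻¹ • b)
    have h2 := (DI.smul_mem_smul_iff (P := Q) c _).2 h1
    rw [smul_sub, smul_inv_smul, smul_smul, smul_smul, hinv] at h2
    exact h2

end Pool.Agent.DT
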