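import Pool.Agent.Lib.DT.E.SpecA

/-!
# Theorem DT, part E, module PsX: conjugation of the action on the torsion
-/

set_option autoImplicit false

noncomputable section

namespace Pool.Agent.DT

open Pool.Agent.MuZ Pool.Agent.FW NumberField
open Pool.Agent.DI (io ofC io_inj exists_io io_ofC ofC_io VP MP UP TP ex)

theorem sPsX (hO3 : S_O3) (hL2 : S_L2) (hR4 : S_R4) (hXOm : S_XOm) (_hQpC : S_QpC)
    (_hPsG : S_PsG) (hE10a : S_E10a) (hE10k : S_E10k) : S_PsX := by
  intro k t _ c hc τ hτ n a hn hP b hb z hz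
  obtain ⟨-, hmul, hcc, -, -, -, hne, -⟩ := hO3 k t
  obtain ⟨-, -, -, -, -, -, hTor, hcj, -⟩ := hL2 k t
  obtain ⟨-, c', hc', hR⟩ := hR4
  have hinv : ∀ x, c (c x) = x := by
    intro x
    apply io_inj
    rw [hc, hc, Complex.conj_conj]
  have hcc' : c' = c := by
    apply AlgEquiv.ext
    intro x
    apply io_inj
    rw [hc, hc']
  rw [hcc'] at hR
  have hb' : cjI b ≠ ⊥ := hne b hb
  have e1 : cjI (cjI a * b) = a * cjI b := by rw [hmul, (hcc a).1]
  have e2 : cjI (n * cjI b) = cjI n * b := by rw [hmul, (hcc b).1]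
  have hz' : (starRingEnd ℂ) z ∈ Lam (n * cjI b) := by
    rw [← hcj, e2]
    exact hz
  have hT : Tor k t z := hTor (cjI n * b) z (mul_ne_zero (hne n hn) hb) hz
  have h1 := (hR k t b hb).1 z hT
  have h2 := (hR k t (cjI a * b) (mul_ne_zero (hne a hP.ne) hb)).1 z hT
  rw [e1] at h2
  have h3 : τ (kpO (cjI b)) = kpO (a * cjI b) := hE10k k t τ n a hn hτ hP (cjI b) hb'
  have h4 := (hE10a k t τ n a hn hP (cjI b) hb').2.2.2
  have h5 := hP.xx (cjI b) hb' _ hz'
  have h6 := congrArg τ h1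
  rw [map_mul, map_sub, h3, h4, h5, ← h2] at h6
  have h7 : kpO (a * cjI b) ≠ 0 :=
    (hXOm k t (a * cjI b) (mul_ne_zero hP.ne hb')).1.2.2.2.2.2.1
  have h8 : τ (c (xO b z)) = c (xO (cjI a * b) z) := mul_right_cancel₀ h7 h6
  change c (τ (c (xO b z))) = _
  rw [h8, hinv]

end Pool.Agent.DT
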