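import Pool.Agent.Lib.DT.E.SpecA

/-!
# Theorem DT, module SyA: systems and half systems for `a b`
-/

set_option autoImplicit false

open scoped Pointwise nonZeroDivisors

noncomputable section

namespace Pool.Agent.DT

open Pool.Agent.MuZ Pool.Agent.FW NumberField IsDedekindDomain

private theorem SyA_up {k t : ℕ} [SqT k t] {a b c : Ideal (OO k t)} {u : ℂ} (hu : u ∈ Lam (c * b)) :
    u ∈ Lam (c * (a * b)) :=
  lam_prod.2 fun w hw => lam_mono (lam_prod.1 hu w hw)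

theorem sSyA (h5 : S_L5) : S_SyA := by
  intro k t _ a b c n ha hb _ haN hnc
  have hac : a ⊔ c = ⊤ := by
    have h1 : a ⊔ n = ⊤ := haN
    have h2 : a ⊔ n ≤ a ⊔ c := sup_le_sup_left hnc a
    rw [h1] at h2
    exact top_le_iff.1 h2
  obtain ⟨hd2', hd1⟩ := h5 k t a b c ha hb hac
  have hd2 : ∀ u ∈ Lam (c * b), u ∈ Lam (a * b) → u ∈ Lam b := hd2'
  refine ⟨hac, fun u hu => ?_, fun R hR => ⟨?_, ?_, ?_⟩, fun S hS => ⟨?_, ?_, ?_⟩⟩
  · exact lam_prod.2 fun w hw => lam_prod.1 hu w (hnc hw)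
  · intro u hu
    exact SyA_up (hR.mem u hu)
  · intro z hz
    obtain ⟨z0, hz0, hz1⟩ := hd1 z hz
    obtain ⟨u, hu, hu1⟩ := hR.ex z0 hz0
    refine ⟨u, hu, ?_⟩
    rw [show z - u = (z - z0) + (z0 - u) by ring]
    exact lam_add hz1 (lam_mono hu1)
  · intro u hu u' hu' h
    exact hR.uni u hu u' hu' (hd2 _ (lam_sub (hR.mem u hu) (hR.mem u' hu')) h)
  · intro u hu
    obtain ⟨h1, h2⟩ := hS.mem u hu
    exact ⟨SyA_up h1, fun h => h2 (hd2 u h1 h)⟩
  · intro z hz hz'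
    obtain ⟨z0, hz0, hz1⟩ := hd1 z hz
    have hz2 : z0 ∉ Lam b := by
      intro h
      apply hz'
      rw [show z = (z - z0) + z0 by ring]
      exact lam_add hz1 (lam_mono h)
    obtain ⟨u, hu, hu1⟩ := hS.ex z0 hz0 hz2
    refine ⟨u, hu, ?_⟩
    rcases hu1 with hu1 | hu1
    · left
      rw [show z - u = (z - z0) + (z0 - u) by ring]
      exact lam_add hz1 (lam_mono hu1)
    · right
      rw [show z + u = (z - z0) + (z0 + u) by ring]
      exact lam_add hz1 (lam_mono hu1)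
  · intro u hu u' hu' h
    refine hS.uni u hu u' hu' ?_
    rcases h with h | h
    · exact Or.inl (hd2 _ (lam_sub (hS.mem u hu).1 (hS.mem u' hu').1) h)
    · exact Or.inr (hd2 _ (lam_add (hS.mem u hu).1 (hS.mem u' hu').1) h)

end Pool.Agent.DT
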