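import Pool.Agent.Lib.DT.D.All
import Pool.Agent.Lib.DT.E.AllB
import Pool.Agent.Lib.DT.E.Iso
import Pool.Agent.Lib.DT.E.FN
import Pool.Agent.Lib.DT.E.Inc
import Pool.Agent.Lib.DT.E.E2
import Pool.Agent.Lib.DT.E.BrK
import Pool.Agent.Lib.DT.E.OpA
import Pool.Agent.Lib.DT.E.Ex
import Pool.Agent.Lib.DT.E.PsG
import Pool.Agent.Lib.DT.E.E10a
import Pool.Agent.Lib.DT.E.E10k
import Pool.Agent.Lib.DT.E.PsX
import Pool.Agent.Lib.DT.E.PsC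
import Pool.Agent.Lib.DT.E.E34
import Pool.Agent.Lib.DT.E.E3
import Pool.Agent.Lib.DT.E.E4a
import Pool.Agent.Lib.DT.E.E4b
import Pool.Agent.Lib.DT.E.E4
import Pool.Agent.Lib.DT.E.SyA
import Pool.Agent.Lib.DT.E.Efr
import Pool.Agent.Lib.DT.E.Ero
import Pool.Agent.Lib.DT.E.E10r
import Pool.Agent.Lib.DT.E.E10v
import Pool.Agent.Lib.DT.E.E10g
import Pool.Agent.Lib.DT.E.E10T
import Pool.Agent.Lib.DT.E.E10

/-!
# Theorem DT, part E: assembly, given Part B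

`aE1 (B : HB) : S_E1`, .., `aE10 (B : HB) : S_E10`, and the statements of the modules of the first half of part E.
-/

set_option autoImplicit false

open scoped Pointwise nonZeroDivisors

noncomputable section

namespace Pool.Agent.DT

open Pool.Agent.MuZ Pool.Agent.FW

theorem aInc : S_Inc := sInc
theorem aOpA : S_OpA := sOpA
theorem aBrK : S_BrK := sBrK aO2 aAbQ
theorem aSyA : S_SyA := sSyA aL5
theorem aIso (B : HB) : S_Iso := sIso (aXOm B)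
theorem aFN (B : HB) : S_FN := sFN aO7 aL3 (aXOm B) (aIso B)
theorem aE2 (B : HB) : S_E2 := sE2 aO6 (aXOm B) aAbQ (aD1 B) (aD3 B) (aFN B) aInc
theorem aEx (B : HB) : S_Ex := sEx aO6 (aFN B) aBrK aOpA (aE2 B)
theorem aEbFN (B : HB) : Eb.S_FN := aFN B
theorem aEbEx (B : HB) : Eb.S_Ex := by
  intro k t _ n hn τ hτ
  obtain ⟨a, ha, _⟩ := aEx B k t n hn τ hτ 1 one_pos
  exact ⟨a, ha⟩
theorem aE1 (B : HB) : S_E1 := Eb.bE1 B.b1 B.b7 B.b13 (aR1 B) (aR4 B) (aEbEx B)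
theorem aPsG : S_PsG := sPsG aQpC
theorem aE10a (B : HB) : S_E10a := sE10a (aR2 B) aAbQ (aXOm B)
theorem aE10k (B : HB) : S_E10k := sE10k aO6 aL3 aL5 (aXOm B) (aE1 B) (aIso B) (aE10a B)
theorem aPsX (B : HB) : S_PsX := sPsX aO3 aL2 (aR4 B) (aXOm B) aQpC aPsG (aE10a B) (aE10k B)
theorem aPsC (B : HB) : S_PsC :=
  sPsC aO3 aO4 aO6 aL3 aL5 aL6a (aXOm B) (aE1 B) (aIso B) (aPsX B)
theorem aE34 (B : HB) : S_E34 :=
  sE34 aO6 aL2 aL5 B.b13 (aR1 B) (aR3 B) aAbQ (aXOm B) (aD1 B) (aIso B)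
theorem aE3 (B : HB) : S_E3 :=
  sE3 aO3 aO4 aO6 (aR2 B) (aR4 B) aAbQ (aD1 B) (aD2 B) (aE1 B) (aE34 B) aQpC aPsG (aPsC B)
theorem aE4a (B : HB) : S_E4a :=
  sE4a aO3 aO4 aO6 (aR2 B) (aR4 B) aAbQ (aD1 B) (aE1 B) (aE34 B) aQpC aPsG (aPsC B)
theorem aE4b (B : HB) : S_E4b :=
  sE4b aO3 aL2 aL5 (aR4 B) aAbQ (aXOm B) (aD1 B) aQpC aPsG (aPsC B)
theorem aE4 (B : HB) : S_E4 := sE4 (aE4a B) (aE4b B)
theorem aEfr (B : HB) : S_Efr := sEfr aO4 aO6 B.b12 (aR5 B)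
theorem aEro (B : HB) : S_Ero :=
  sEro aO6 aL3 aL5 B.b12 (aR1 B) (aR4 B) (aR5 B) aSyA (aE10a B)
theorem aE10r (B : HB) : S_E10r := sE10r aO6 aO7 (aR5 B) (aE1 B) (aEfr B) (aEro B)
theorem aE10v (B : HB) : S_E10v :=
  sE10v aO6 aL5 aL6 B.b1 B.b4 B.b12 (aR1 B) (aR4 B) (aR5 B)
theorem aE10g (B : HB) : S_E10g := sE10g aO6 aL5 B.b14 (aR5 B) (aXOm B) aHsP aSyA (aE10v B)
theorem aE10T (B : HB) : S_E10T := sE10T aO6 B.b14 (aXOm B) aHsP aSyA (aE10a B)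
theorem aE10 (B : HB) : S_E10 :=
  sE10 (aE10a B) (aE10k B) (aE10r B) (aE10v B) (aE10g B) (aE10T B)
theorem aE6 (B : HB) : S_E6 := Eb.bE6 (aE1 B) (aE2 B) (aEbFN B)
theorem aE7 (B : HB) : S_E7 := Eb.bE7 (aE1 B) (aE2 B)
theorem aE8 (B : HB) : S_E8 := Eb.bE8 (aE1 B) (aEbFN B)
theorem aE9 (B : HB) : S_E9 := Eb.bE9 B.b1 B.b4 B.b7 (aR1 B) (aR4 B) (aE1 B) (aE10 B)

end Pool.Agent.DT
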