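import Pool.Agent.Lib.DT.E.SpecB

/-!
# Theorem DT, part E, module H3M: the groups `H3 f`, `H3N f N`
-/

set_option autoImplicit false

open scoped Pointwise nonZeroDivisors

noncomputable section

namespace Pool.Agent.DT.Eb

open Pool.Agent.MuZ Pool.Agent.FW NumberField IsDedekindDomain Pool.Agent.DT
open Pool.Agent.DI (io ofC io_inj exists_io io_ofC ofC_io VP MP UP TP ex)

variable {k t : ℕ}

private theorem H3M_rpow [SqT k t] (h7 : S_O7) {n : Ideal (OO k t)} (hn : n ≠ ⊥)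
    {a b : Ideal (OO k t)} (h : Ray n a b) (m : ℕ) : Ray n (a ^ m) (b ^ m) := by
  induction m with
  | zero => rw [pow_zero, pow_zero]; exact (h7 k t n hn).1 _
  | succ m ih => rw [pow_succ, pow_succ]; exact (h7 k t n hn).2.2.2.1 _ _ _ _ ih h

private theorem H3M_tpow (n : ℕ) : (⊤ : Ideal (OO k t)) ^ n = ⊤ := by
  rw [← Ideal.one_eq_top, one_pow]

private theorem H3M_ctop [SqT k t] (h3 : S_O3) : cjI (⊤ : Ideal (OO k t)) = ⊤ := by
  have h := (h3 k t).2.2.2.1 1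
  rw [cjO_one] at h
  unfold sp at h
  rwa [Ideal.span_singleton_one] at h

private theorem H3M_cpow [SqT k t] (h3 : S_O3) (a : Ideal (OO k t)) (n : ℕ) :
    cjI (a ^ n) = cjI a ^ n := by
  induction n with
  | zero =>
    rw [pow_zero, pow_zero, Ideal.one_eq_top]
    exact H3M_ctop h3
  | succ n ih => rw [pow_succ, pow_succ, (h3 k t).2.1, ih]

private theorem H3M_NI : NI (⊤ : Ideal (OO k t)) = 1 := by
  unfold NI
  have : Subsingleton (OO k t ⧸ (⊤ : Ideal (OO k t))) := Ideal.Quotient.subsingleton_iff.2 rfl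
  exact Nat.card_unique

private theorem H3M_A [SqT k t] (h3 : S_O3) (h7 : S_O7) {f : ℕ} (hf : 0 < f) :
    HG (sN k t (3 * f)) (H3 (k := k) (t := t) f) where
  top := ⟨0, by rw [pow_zero, pow_one]; exact (h7 k t _ (ne_sN (by omega))).1 _⟩
  cop := by
    rintro a ⟨j, hj⟩
    obtain ⟨g1, g2⟩ := (h7 k t _ (ne_sN (by omega))).2.2.2.2.2.1 _ _ hj
    have e : (3 : ℕ) ^ j ≠ 0 := by positivity
    refine ⟨?_, ?_⟩
    · rintro rfl
      refine g1.2 ne_top ?_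
      rw [← Ideal.zero_eq_bot]
      exact zero_pow e
    · have g3 := g2.2 (pri_top _)
      unfold PrI at *
      rw [eq_top_iff, ← g3]
      exact sup_le_sup_right (Ideal.pow_le_self e) _
  ray := by
    rintro a a' ⟨j, hj⟩ h
    have hn : sN k t (3 * f) ≠ ⊥ := ne_sN (by omega)
    exact ⟨j, (h7 k t _ hn).2.2.1 _ _ _ ((h7 k t _ hn).2.1 _ _ (H3M_rpow h7 hn h (3 ^ j))) hj⟩
  mul := by
    rintro a a' ⟨j, hj⟩ ⟨j', hj'⟩
    have hn : sN k t (3 * f) ≠ ⊥ := ne_sN (by omega)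
    refine ⟨j + j', ?_⟩
    have e : (a * a') ^ 3 ^ (j + j') = (a ^ 3 ^ j) ^ 3 ^ j' * (a' ^ 3 ^ j') ^ 3 ^ j := by
      rw [mul_pow, ← pow_mul, ← pow_mul, ← pow_add, ← pow_add, add_comm j' j]
    rw [e]
    have g1 := H3M_rpow h7 hn hj (3 ^ j')
    have g2 := H3M_rpow h7 hn hj' (3 ^ j)
    have g3 := (h7 k t _ hn).2.2.2.1 _ _ _ _ g1 g2
    rwa [H3M_tpow, H3M_tpow, Ideal.top_mul] at g3
  cj := by
    rintro a ⟨j, hj⟩
    refine ⟨j, ?_⟩
    rw [← H3M_cpow h3]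
    have g := (h3 k t).2.2.2.2.2.2.2 _ _ _ hj
    rwa [H3M_ctop h3, (h3 k t).2.2.2.2.1] at g

/-- **`S_H3M`**, the groups `H3 f`, `H3N f N`. -/
theorem tH3M : S_O2 → S_O3 → S_O6 → S_O7 → S_O9 → S_H3M := by
  intro h2 h3 h6 h7 h9 k t _ f hf0
  have A : HG (sN k t (3 * f)) (H3 (k := k) (t := t) f) := H3M_A h3 h7 hf0
  refine ⟨A, fun N hN1 => ?_⟩
  have hN : 0 < f * 3 ^ N := Nat.mul_pos hf0 (by positivity)
  have hdv : 3 * f ∣ f * 3 ^ N := by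
    rw [mul_comm 3 f]
    exact Nat.mul_dvd_mul_left f (dvd_pow_self 3 (by omega))
  have hC : ∀ a : Ideal (OO k t), H3N f N a → a ≠ ⊥ ∧ PrI a (sN k t (f * 3 ^ N)) := by
    rintro a ⟨g1, g2⟩
    obtain ⟨g3, g4⟩ := A.cop a g1
    refine ⟨g3, ?_⟩
    rw [(h6 k t).2.2.2.2.1] at g4 ⊢
    rw [Nat.coprime_mul_iff_right] at g4 ⊢
    exact ⟨g4.2, g4.1.pow_right N⟩
  refine ⟨⟨A.top, ?_⟩, hC, ?_, ?_, ?_⟩
  · rw [H3M_NI]
    simp
  · rintro a a' ⟨g1, g2⟩ hr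
    refine ⟨A.ray a a' g1 ((h7 k t _ (ne_sN hN)).2.2.2.2.2.2.1 _ _ _ (sN_le hdv) hr), ?_⟩
    have g5 : (3 : ℤ) ^ N ∣ (NI a : ℤ) - NI a' := by
      refine dvd_trans ?_ (h9 k t _ hN a a' hr)
      push_cast
      exact dvd_mul_left _ _
    have e : (NI a' : ℤ) - 1 = ((NI a : ℤ) - 1) - ((NI a : ℤ) - NI a') := by ring
    rw [e]
    exact dvd_sub g2 g5
  · rintro a a' ⟨g1, g2⟩ ⟨g3, g4⟩
    refine ⟨A.mul a a' g1 g3, ?_⟩
    rw [(h2 k t).2.2.2.2.1 a a']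
    push_cast
    have e : (NI a : ℤ) * NI a' - 1 = ((NI a : ℤ) - 1) * NI a' + ((NI a' : ℤ) - 1) := by ring
    rw [e]
    exact dvd_add (g2.mul_right _) g4
  · rintro a ⟨g1, g2⟩
    refine ⟨A.cj a g1, ?_⟩
    rw [((h3 k t).2.2.1 a).2.1]
    exact g2

end Pool.Agent.DT.Eb
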