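import Pool.Agent.Lib.DT.E.SpecA

/-!
# Theorem DT, part E, module PsC: complex conjugation of `Psi`

Author helper69, after the docstring of `S_PsC`.
-/

set_option autoImplicit false

open scoped Pointwise

noncomputable section

namespace Pool.Agent.DT

open Pool.Agent.MuZ Pool.Agent.FW NumberField
open Pool.Agent.DI (io ofC io_inj exists_io io_ofC ofC_io VP MP UP TP ex)

private lemma PsC_mul {k t : ℕ} [SqT k t] {a b : Ideal (OO k t)} (ha : a ≠ ⊥) (hb : b ≠ ⊥) :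
    a * b ≠ ⊥ :=
  mul_ne_zero ha hb

private lemma PsC_two {k t : ℕ} : sN k t 2 < ⊤ := by
  refine lt_top_iff_ne_top.2 fun h => ?_
  have h1 : (1 : OO k t) ∈ sN k t 2 := by
    rw [h]
    trivial
  have h2 := (nat_dvd_iff 2 (1 : OO k t)).1 (Ideal.mem_span_singleton.1 h1)
  rw [re_one] at h2
  have h3 : ((2 : ℕ) : ℤ) ∣ 1 := h2.1
  norm_num at h3

private lemma PsC_ne {k t : ℕ} [SqT k t] {N : ℕ} (hN : 0 < N) : sN k t N ≠ ⊥ := by
  intro h
  have h1 : (N : OO k t) = 0 := Ideal.span_singleton_eq_bot.1 h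
  have h2 := congrArg Nm h1
  rw [Nm_nat, Nm_zero] at h2
  have h3 : (N : ℤ) = 0 := by simpa using h2
  omega

/-- A point of order two plus or minus a point `S` with `2 S ∉ Lam b`. -/
private lemma PsC_pm {k t : ℕ} [SqT k t] {b : Ideal (OO k t)} {y S : ℂ} (hy : y ∈ Lam (sN k t 2 * b))
    (hS : S + S ∉ Lam b) : y + S ∉ Lam b ∧ y - S ∉ Lam b := by
  have h2 : y + y ∈ Lam b := by
    have h := lam_sp.1 hy
    rw [toC_nat] at h
    have e : y + y = ((2 : ℕ) : ℂ) * y := by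
      push_cast
      ring
    rw [e]
    exact h
  refine ⟨fun h => hS ?_, fun h => hS ?_⟩
  · have e : S + S = (y + S) + (y + S) - (y + y) := by ring
    rw [e]
    exact lam_sub (lam_add h h) h2
  · have e : S + S = (y + y) - ((y - S) + (y - S)) := by ring
    rw [e]
    exact lam_sub h2 (lam_add h h)

/-- **Conjugation of `Psi`.** -/
theorem sPsC (hO3 : S_O3) (hO4 : S_O4) (hO6 : S_O6) (hL3 : S_L3) (hL5 : S_L5) (hL6a : S_L6a)
    (hXOm : S_XOm) (hE1 : S_E1) (hIso : S_Iso) (hPsX : S_PsX) : S_PsC := by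
  intro k t _ c hc τ hτ n a hn hP
  obtain ⟨-, o2, -, -, o5, o6, o7, o8⟩ := hO3 k t
  refine ⟨o7 a hP.ne, (o6 a n).2 hP.cop, ?_, fun b hb z hz => hPsX k t c hc τ hτ n a hn hP b hb z hz⟩
  intro b hb
  -- the larger level
  have hpp : pp k t ≠ ⊥ := (hO4 k t).2.2.2.2.2.2.2.2.1
  have h2 : sN k t 2 ≠ ⊥ := PsC_ne two_pos
  have hn₁ : n * (sN k t 2 * pp k t) ≠ ⊥ := PsC_mul hn (PsC_mul h2 hpp)
  obtain ⟨a₁, hP₁, -⟩ := (hE1 k t _ hn₁).1 τ hτ 1 one_pos
  have hP₁' : Psi τ n a₁ := (hE1 k t _ hn₁).2.2.2.2 τ n a₁ hP₁ Ideal.mul_le_left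
  have hR := o8 n a a₁ ((hE1 k t n hn).2.1 τ a a₁ hP hP₁')
  obtain ⟨α, α', hα, hα', -, -, -, e⟩ := hR
  have hI := (hIso k t (cjI a) (cjI a₁) α α' (o7 a hP.ne) (o7 a₁ hP₁.ne) hα hα' e b hb).1
  rw [← hI]
  have hA : cjI a₁ ≠ ⊥ := o7 a₁ hP₁.ne
  have hcn : cjI (n * (sN k t 2 * pp k t)) = cjI n * (sN k t 2 * ppb k t) := by
    rw [o2, o2, o5, (hO4 k t).2.1]
  have hcop := (o6 a₁ _).2 hP₁.cop
  rw [hcn] at hcop
  have hle2 : cjI n * (sN k t 2 * ppb k t) ≤ sN k t 2 :=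
    Ideal.mul_le_right.trans Ideal.mul_le_left
  have hlep : cjI n * (sN k t 2 * ppb k t) ≤ ppb k t :=
    Ideal.mul_le_right.trans Ideal.mul_le_right
  have hA2 : PrI (cjI a₁) (sN k t 2) := (hO6 k t).2.2.2.1 _ _ _ hle2 hcop
  have hAp : PrI (cjI a₁) (ppb k t) := (hO6 k t).2.2.2.1 _ _ _ hlep hcop
  set A := cjI a₁ with hAdef
  have hAb : A * b ≠ ⊥ := PsC_mul hA hb
  -- the points
  obtain ⟨y, hy, hy'⟩ := (hL3 k t (sN k t 2) b h2 hb).1
  have hyb : y ∉ Lam b := by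
    have h := hy' ⊤ PsC_two
    rwa [Ideal.top_mul] at h
  obtain ⟨-, ⟨hS1, hS2, -, hS4, -⟩, -, -⟩ := hL6a k t b hb
  obtain ⟨-, ⟨-, -, -, hT4, hT5⟩, -, -⟩ := hL6a k t (A * b) hAb
  have hT : ∀ z : ℂ, z ∈ Lam (cjI n * (sN k t 2 * ppb k t) * b) → (c * τ * c) (xO b z) =
      xO (A * b) z := by
    intro z hz
    rw [← hcn] at hz
    exact hPsX k t c hc τ hτ _ a₁ hn₁ hP₁ b hb z hz
  have hyn : y ∈ Lam (cjI n * (sN k t 2 * ppb k t) * b) := lam_anti (Ideal.mul_mono_left hle2) hy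
  have hSn : ptS b ∈ Lam (cjI n * (sN k t 2 * ppb k t) * b) :=
    lam_anti (Ideal.mul_mono_left hlep) hS1
  have hyA : y ∈ Lam (sN k t 2 * (A * b)) := by
    rw [mul_left_comm]
    exact lam_mono hy
  have hSA : ptS b ∈ Lam (ppb k t * (A * b)) := by
    rw [mul_left_comm]
    exact lam_mono hS1
  have hyA' : y ∉ Lam (A * b) := fun h => hyb ((hL5 k t A b (sN k t 2) hA hb hA2).1 y hy h)
  have hSA' : ptS b ∉ Lam (A * b) := fun h => hS2 ((hL5 k t A b (ppb k t) hA hb hAp).1 _ hS1 h)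
  have hTy : Tor k t y := tor_lam (PsC_mul h2 hb) hy
  obtain ⟨m1, m2⟩ := PsC_pm hy hS4
  obtain ⟨m3, m4⟩ := PsC_pm hyA hT4
  obtain ⟨-, -, x3⟩ := (hXOm k t b hb).2.2.2.2.1 y hTy hyb m1 m2
  obtain ⟨y1, -, y3⟩ := (hXOm k t (A * b) hAb).2.2.2.2.1 y hTy hyA' m3 m4
  have hper := (hXOm k t (A * b) hAb).1.1
  -- apply the automorphism
  have h4 := congrArg (c * τ * c) x3
  rw [map_mul, map_add, map_pow, map_add, map_mul, map_one, hT y hyn, hT _ (lam_add hyn hSn),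
    hT _ (lam_sub hyn hSn)] at h4
  have hsum : xO (A * b) (y + ptS b) + xO (A * b) (y - ptS b) =
      xO (A * b) (y + ptS (A * b)) + xO (A * b) (y - ptS (A * b)) := by
    rcases hT5 (ptS b) hSA with h | h | h
    · exact absurd h hSA'
    · have e1 : y + ptS b = (y + ptS (A * b)) + (ptS b - ptS (A * b)) := by ring
      have e2 : y - ptS b = (y - ptS (A * b)) + -(ptS b - ptS (A * b)) := by ring
      rw [e1, e2, hper _ _ h, hper _ _ (lam_neg h)]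
    · have e1 : y + ptS b = (y - ptS (A * b)) + (ptS b + ptS (A * b)) := by ring
      have e2 : y - ptS b = (y + ptS (A * b)) + -(ptS b + ptS (A * b)) := by ring
      rw [e1, e2, hper _ _ h, hper _ _ (lam_neg h), add_comm]
  rw [hsum, y3] at h4
  have h5 : aO (A * b) * xO (A * b) y = (c * τ * c) (aO b) * xO (A * b) y := by
    linear_combination h4
  exact (mul_right_cancel₀ y1 h5).symm

end Pool.Agent.DT
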