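import Pool.Agent.Lib.DT.IfaceX

/-!
# Theorem DT (`p = 3`), part E, first half (Galois action): statements of the modules with proofs

Every statement `S_..` is proved in the file `DT/E/<name>.lean` as `theorem s<name> (hypotheses) : S_<name>`: hypotheses
exactly the statements named after (from ..), in that order. Read `DT/Defs.lean`, `DT/Iface.lean`, `DT/IfaceX.lean`
(`S_XOm`, `S_AbQ`, `S_HsP`, `S_QpC`), `DT/IfaceO.lean`, `DT/Base.lean` first. Facts on `VP`, `MP`, `UP`, Frobenius and inertia: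
`DI/Val.lean` (`VP.frob`, `VP.inertia`, `VP.smul`, `MP.smul`, `UP.smul`). Most modules are PORTS of the module
`DK/E/<name>.lean` (`p = 2`): `2 → 3`, `dO → aO`, `tO → rhO` or `dlO`, the modulus `N : ℕ` is an ideal `n ≠ ⊥`, the condition
`(N : ℂ) * z ∈ Lam b` is `z ∈ Lam (n * b)`, `PrI a N` is `PrI a n`, `S_L5` (`a`, `b`, `n`): `z ∈ Lam (n * b)`, `z ∈ Lam (a * b)`
imply `z ∈ Lam b`. The second half of part E (author helper28) is in `DT/E/SpecB.lean`.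
-/

set_option autoImplicit false

open scoped Pointwise nonZeroDivisors

noncomputable section

namespace Pool.Agent.DT

open Pool.Agent.MuZ Pool.Agent.FW NumberField IsDedekindDomain
open Pool.Agent.DI (io ofC io_inj exists_io io_ofC ofC_io VP MP UP TP ex)

/-! ## 1. Finiteness -/

/-- MODULE `Iso` (60 lines; from `S_XOm`; PORT of `DK/E/Iso`). HOMOGENEITY FOR ELEMENTS OF `K`. PROOF. `sp α * (a * b) = sp α' * (a' * b)`. By `S_XOm` (last item, for `a * b` and `a' * b`) `xO (a' b) (toC α' y) = xO (sp α' (a' b)) y =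
xO (sp α (a b)) y = xO (a b) (toC α y)`; `y = z / toC α'`. The same for `aO`, `rhO`, `dlO`, `kpO`, and for the lattices (`lam_sp`). -/
def S_Iso : Prop :=
  ∀ (k t : ℕ) [SqT k t] (a a' : Ideal (OO k t)) (α α' : OO k t), a ≠ ⊥ → a' ≠ ⊥ → α ≠ 0 → α' ≠ 0 →
    sp α * a = sp α' * a' → ∀ b : Ideal (OO k t), b ≠ ⊥ →
      aO (a' * b) = aO (a * b) ∧ rhO (a' * b) = rhO (a * b) ∧ dlO (a' * b) = dlO (a * b) ∧
      kpO (a' * b) = kpO (a * b) ∧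
      ∀ z : ℂ, xO (a' * b) z = xO (a * b) (toC α / toC α' * z) ∧
        (z ∈ Lam (a' * b) ↔ toC α / toC α' * z ∈ Lam (a * b))

/-- MODULE `FN` (130 lines; from `S_O7`, `S_L3`, `S_XOm`, `S_Iso`; PORT of `DK/E/FN`). FINITENESS. PROOF. `S_O7` for the modulus `⊤`: a finite set `R₀` of ideals such that every `b ≠ ⊥` satisfies `sp α * b = sp α' * b₀`, `b₀ ∈ R₀`, `α, α' ≠ 0` (`PrI b ⊤` is
trivial, `⊤ ≠ ⊥`). By `S_Iso` (for `a = b₀`, `a' = b`, the last ideal `⊤`: `b * ⊤ = b`) `aO b = aO b₀` and `xO b z = xO b₀ (μ z)`, with `z ∈ Lam (n b)` iff `μ z ∈ Lam (n b₀)`. For each `b₀ ∈ R₀` the points of `Lam (n * b₀)` have finitely many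
classes modulo `Lam b₀` (`S_L3`), and `xO b₀` is periodic. -/
def S_FN : Prop :=
  ∀ (k t : ℕ) [SqT k t] (n : Ideal (OO k t)), n ≠ ⊥ → ∃ A : Set Om, A.Finite ∧
    (∀ b : Ideal (OO k t), b ≠ ⊥ → aO b ∈ A) ∧
    ∀ b : Ideal (OO k t), b ≠ ⊥ → ∀ z ∈ Lam (n * b), xO b z ∈ A

/-- MODULE `Inc` (10 lines). DISTINCT ALGEBRAIC NUMBERS ARE INCONGRUENT ALMOST EVERYWHERE. This is `Pool.Agent.DK.sInc` (`DK/E/Inc.lean`; the definitions of `Npr` agree). -/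
def S_Inc : Prop :=
  ∀ A : Set Om, A.Finite → ∃ B : ℕ, 0 < B ∧ ∀ (Q : Ideal ZZ) (l : ℕ), Npr Q → MP Q (l : Om) → l.Coprime B →
    (∀ x ∈ A, VP Q x) ∧ ∀ x ∈ A, ∀ y ∈ A, MP Q (x - y) → x = y

/-- MODULE `E2` (130 lines; from `S_O6`, `S_XOm`, `S_AbQ`, `S_D1`, `S_D3`, `S_FN`, `S_Inc`; PORT of `DK/E/E2`): `S_E2`. PROOF. Let `A₀` be the set of `S_FN` for `n`, `A` the finite set of all conjugates of its elements (stable under `Gal(Om/ℚ)`),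
`B = 6 (NI n) B'` with `B'` from `S_Inc` for `A`. Let `Deg1 q l`, `l.Coprime B`, `Abv Q q`, `Fro Q l τ`. `q ≠ ⊥`; `PrI q n`: `NI q = l` is prime to `NI n`, so `q` is prime to `sN (NI n)` (`S_O6` (5)), and `sN (NI n) ≤ n` (`NI n ∈ n`). `MP Q l` (`S_AbQ`), `l ≠ 2, 3`. `aO b ∈ V` (`S_Inc`), `τ (aO b) ≡ (aO b) ^ l ≡
aO (q b)` (`VP.frob`, `S_D3`), both in `A`: equal. `X`: let `z ∈ Lam (n b)`. If `z ∈ Lam b`: `xO b z = -(aO b ^ 2)/12` and `z ∈ Lam (q b)` (`S_XOm`). If `z ∉ Lam b`: `¬ IK Q b z` (`S_D1`: otherwise `Qp Q b z`; take `α ∈ n` with `¬ MP Q (toO α)`: `α = NI n`, prime to `l`: `S_AbQ` (6); `β = 1`), so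
`xO (q b) z ≡ (xO b z) ^ l ≡ τ (xO b z)` (`S_D3`), equal. `¬ AbPb k t Q` as `¬ MP Q 3`. -/
abbrev M_E2 : Prop := S_E2

/-! ## 2. Existence of `Psi` -/

/-- MODULE `BrK` (120 lines; from `S_O2`, `S_AbQ`; PORT of `DK/E/BrK`). DEGREE ONE PRIMES OF `KQ`. PROOF. Let `q = {v | MP Q (toO v)}` (`S_AbQ`). `toO v` is an element of the ring of integers of `KQ`; the map `OO → 𝓞 KQ → 𝓞 KQ ⧸ Q.comap (iO _)` has the kernel `q`,
so `NI q = Nat.card (O/q)` is the order of a subgroup of a group with `l` elements, `l` prime, and it is not `1`: `NI q = l`. -/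
def S_BrK : Prop :=
  ∀ (k t : ℕ) [SqT k t], FiniteDimensional ℚ (KQ k t) ∧
    IsOpen ((KQ k t).fixingSubgroup : Set Gal(Om/ℚ)) ∧
    ∀ (l : ℕ) (Q : Ideal ZZ), l.Prime → Npr Q → (l : ZZ) ∈ Q →
      Nat.card (𝓞 (KQ k t) ⧸ Q.comap (iO (KQ k t))) = l → ∃ q : Ideal (OO k t), Deg1 q l ∧ Abv Q q

/-- MODULE `OpA` (40 lines; PORT of `DK/E/OpA`; the first claim is the first claim of `Pool.Agent.DK.sOpA`). OPEN SUBGROUPS. -/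
def S_OpA : Prop :=
  (∀ A : Set Om, A.Finite → ∃ U : OpenSubgroup Gal(Om/ℚ), ∀ τ ∈ U, ∀ x ∈ A, τ x = x) ∧
    ∀ (k t : ℕ) [SqT k t] (U : OpenSubgroup Gal(Om/ℚ)) (H : Set Gal(Om/ℚ)), H ⊆ (GK k t : Set Gal(Om/ℚ)) →
      (∀ τ ∈ GK k t, τ ∈ U → τ ∈ H) → (∀ τ ∈ H, ∀ τ' ∈ H, τ * τ' ∈ H) → ∀ τ ∈ H, τ⁻¹ ∈ H

/-- MODULE `Ex` (100 lines; from `S_O6`, `S_FN`, `S_BrK`, `S_OpA`, `S_E2`; PORT of `DK/E/ExA`). EXISTENCE (first item of `S_E1`). PROOF. `H = {τ ∈ GK k t | ∃ a, Psi τ n a ∧ PrI a (sN M)}`. Products: `Psi (τ * τ') n (a * a')`, `S_O6` (1). `τ ∈ GK` fixing the set `A` of `S_FN` has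
`Psi τ n ⊤`. So `H` is a subgroup (`S_OpA`) and contains `GK ⊓ U`. `gen_frob` (`DK/Gen.lean`) with `K = KQ k t` and the modulus `B M`, `B` of `S_E2`: for `l ∤ B M` prime, `S_BrK` gives `q`, `Psi τ n q` by `S_E2`, and `PrI q (sN M)` by `S_O6` (5). So `GK k t ≤ H`. -/
def S_Ex : Prop :=
  ∀ (k t : ℕ) [SqT k t] (n : Ideal (OO k t)), n ≠ ⊥ → ∀ τ ∈ GK k t, ∀ M : ℕ, 0 < M →
    ∃ a : Ideal (OO k t), Psi τ n a ∧ PrI a (sN k t M)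

/-! ## 3. Complex conjugation -/

/-- MODULE `PsG` (60 lines; from `S_QpC`). THE GROUP ELEMENTS. PROOF. `c (c x) = x` (`S_QpC`, last claim with `c' = c`), `c (toO (wI)) = toO (cjO wI) = t - wO` (`toO_wI`). `c τ c ∈ GK`: it fixes `wO` (`mem_GK_iff`). Frobenius and inertia: `(c τ c) • (c • x) = c • (τ • x)`, every element of `ZZ` is `c • x`; `c • (τ • x - x ^ l) ∈ c • Q`.
See `DK/E/PsC.lean`. -/
def S_PsG : Prop :=
  ∀ (k t : ℕ) [SqT k t] (c : Gal(Om/ℚ)), (∀ x : Om, io (c x) = (starRingEnd ℂ) (io x)) →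
    c * c = 1 ∧ c (wO k t) = t - wO k t ∧ (∀ τ ∈ GK k t, c * τ * c ∈ GK k t) ∧
    (∀ (Q : Ideal ZZ) (l : ℕ) (τ : Gal(Om/ℚ)), Fro Q l τ → Fro (c • Q) l (c * τ * c)) ∧
    ∀ (Q : Ideal ZZ) (τ : Gal(Om/ℚ)), τ ∈ Q.inertia Gal(Om/ℚ) → c * τ * c ∈ (c • Q).inertia Gal(Om/ℚ)

/-- MODULE `E10a` (60 lines; from `S_R2`, `S_AbQ`, `S_XOm`). THE NUMBERS `ρ` AND `δ`. PROOF. There is `P` with `AbP k t P` (`S_AbQ` (2), (5), the prime `pp`), `aO b` is a unit at `P` (`S_R2`), so `aO b ≠ 0`, for every `b ≠ ⊥`. `aO (ppb b) * rhO b = aO b + 6` (`S_XOm`) for `b` and for `a b`; apply `τ`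
(`τ (aO (ppb b)) = aO (a (ppb b)) = aO (ppb (a b))`): `τ (rhO b) = rhO (a b)`. `dlO b * rhO (pp b) = aO (pp b) - 3`, `rhO (pp b) ≠ 0`: the same. `xO b (ptT b) = - rhO (pp b)/3`. -/
def S_E10a : Prop :=
  ∀ (k t : ℕ) [SqT k t] (τ : Gal(Om/ℚ)) (n a : Ideal (OO k t)), n ≠ ⊥ → Psi τ n a →
    ∀ b : Ideal (OO k t), b ≠ ⊥ → aO b ≠ 0 ∧ τ (rhO b) = rhO (a * b) ∧ τ (dlO b) = dlO (a * b) ∧
      τ (xO b (ptT b)) = xO (a * b) (ptT (a * b))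

/-- MODULE `E10k` (120 lines; from `S_O6`, `S_L3`, `S_L5`, `S_XOm`, `S_E1`, `S_Iso`, `S_E10a`). THE NUMBER `κ`. PROOF. `n₁ = n * pp ^ 2`. `S_E1`: `Psi τ n₁ a₁` for some `a₁`, `Psi τ n a₁` (`n₁ ≤ n`), `Ray n a a₁`: `sp α * a = sp α' * a₁`, so `kpO (a₁ b) = kpO (a b)` (`S_Iso`). `S_L3` for `pp ^ 2`, `b`: `z ∈ Lam (pp ^ 2 * b)`,
`z ∉ Lam (pp * b)` (`pp ^ 2 < pp`). The formula of `S_XOm` (item `kpO`) at `b`, `z`; the points `z`, `2 z`, `4 z` are in `Lam (n₁ * b)`; apply `τ` (`τ (xO b (ptT b))`: `S_E10a`): `τ (kpO b) * (xO (a₁ b) (2 z) - xO (a₁ b) (4 z)) = ..`. `z ∈ Lam (pp ^ 2 * (a₁ * b))` and `z ∉ Lam (pp * (a₁ * b))`: otherwise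
`z ∈ Lam (a₁ * (pp * b))`, `z ∈ Lam (pp * (pp * b))` and `PrI a₁ pp`, so `z ∈ Lam (pp * b)` by `S_L5`. So the same formula holds for `kpO (a₁ b)`, and `xO (a₁ b) (2 z) ≠ xO (a₁ b) (4 z)`: `τ (kpO b) = kpO (a₁ b)`. -/
def S_E10k : Prop :=
  ∀ (k t : ℕ) [SqT k t] (τ : Gal(Om/ℚ)) (n a : Ideal (OO k t)), n ≠ ⊥ → τ ∈ GK k t → Psi τ n a →
    ∀ b : Ideal (OO k t), b ≠ ⊥ → τ (kpO b) = kpO (a * b)

/-- MODULE `PsX` (100 lines; from `S_O3`, `S_L2`, `S_R4`, `S_XOm`, `S_QpC`, `S_PsG`, `S_E10a`, `S_E10k`). CONJUGATION OF THE ACTION ON THE TORSION. PROOF. Let `z ∈ Lam (cjI n * b)`, `z' = conj z`, `b' = cjI b`: `z' ∈ Lam (n * b')` (`S_L2`, `cjI (cjI n * b) = n * cjI b`). `S_R4` (`c` is the `c` of `S_R4`: `S_QpC`, last claim):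
`c (xO b z) * kpO b' = xO b' z' - xO b' (ptT b')`. Apply `τ`: `τ (c (xO b z)) * kpO (a b') = xO (a b') z' - xO (a b') (ptT (a b'))` (`S_E10k`, `S_E10a`). `S_R4` for the ideal `cjI a * b` and `z` (`cjI (cjI a * b) = a * b'`): `c (xO (cjI a * b) z) * kpO (a b') =` the same right hand side. `kpO ≠ 0` (`S_XOm`), so
`τ (c (xO b z)) = c (xO (cjI a * b) z)`; apply `c`, `c c = 1`. (`z` is a torsion point.) -/
def S_PsX : Prop :=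
  ∀ (k t : ℕ) [SqT k t] (c : Gal(Om/ℚ)), (∀ x : Om, io (c x) = (starRingEnd ℂ) (io x)) →
    ∀ τ ∈ GK k t, ∀ n a : Ideal (OO k t), n ≠ ⊥ → Psi τ n a →
      ∀ b : Ideal (OO k t), b ≠ ⊥ → ∀ z ∈ Lam (cjI n * b), (c * τ * c) (xO b z) = xO (cjI a * b) z

/-- MODULE `PsC` (150 lines; from `S_O3`, `S_O4`, `S_O6`, `S_L3`, `S_L5`, `S_L6a`, `S_XOm`, `S_E1`, `S_Iso`, `S_PsX`). CONJUGATION OF `Psi`. PROOF. `cjI a ≠ ⊥`, `PrI (cjI a) (cjI n)`: `S_O3`. The points: `S_PsX`. It remains: `σ (aO b) = aO (cjI a * b)`, `σ = c τ c`. Let `n₁ = n * (sN 2 * pp)`, `S_E1`: `Psi τ n₁ a₁`, `Psi τ n a₁`, `Ray n a a₁`,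
so `Ray (cjI n) (cjI a) (cjI a₁)` (`S_O3`) and `aO (cjI a₁ * b) = aO (cjI a * b)` (`S_Iso`). `A := cjI a₁`, `A` is prime to `sN 2` and to `ppb` (`cjI (sN 2 * pp) = sN 2 * ppb`). Let `y ∈ Lam (sN 2 * b)`, `y ∉ Lam b` (`S_L3`), `S = ptS b ∈ Lam (ppb * b)`, `S ∉ Lam b` (`S_L6a`). `y ± S ∉ Lam b` (`2 y ∈ Lam b`, so `2 S ∈ Lam b` otherwise, and `3 S ∈ Lam b`).
`S_XOm` (translation by `S`): `(xO b (y + S) + xO b (y - S)) * xO b y ^ 2 = aO b * xO b y + 1`, `xO b y ≠ 0`. All points are in `Lam (cjI n₁ * b)`; apply `σ` (`S_PsX` for `n₁`, `a₁`): the left side becomes `(xO (A b) (y + S) + xO (A b) (y - S)) * xO (A b) y ^ 2`. `y, S ∉ Lam (A b)` (`S_L5`), `S ∈ Lam (ppb * (A b))`, so `S ≡ ± ptS (A b)`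
modulo `Lam (A b)` (`S_L6a`); the sum is symmetric in the sign, so by `S_XOm` for `A b` the left side is `aO (A b) * xO (A b) y + 1`, and `xO (A b) y ≠ 0`. So `σ (aO b) = aO (A b)`. -/
def S_PsC : Prop :=
  ∀ (k t : ℕ) [SqT k t] (c : Gal(Om/ℚ)), (∀ x : Om, io (c x) = (starRingEnd ℂ) (io x)) →
    ∀ τ ∈ GK k t, ∀ n a : Ideal (OO k t), n ≠ ⊥ → Psi τ n a → Psi (c * τ * c) (cjI n) (cjI a)

/-! ## 4. The primes above `3`, inertia -/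

/-- MODULE `E34` (120 lines; from `S_O6`, `S_L2`, `S_L5`, `S_B13`, `S_R1`, `S_R3`, `S_AbQ`, `S_XOm`, `S_D1`, `S_Iso`; PORT of `DK/E/E34`). RIGIDITY MODULO `P`. PROOF. `¬ AbPb k t P` (`S_AbQ`). `S_R3`: `aO (a b) = aO (c b)` for all `b ≠ ⊥`. `b = ⊤`: `AC a = AC c` (`S_R1`), so (`S_B13`) `sp α * a = sp α' * c`; `μ = toC α / toC α'`; `S_Iso`:
`xO (c b) z = xO (a b) (μ z)`. There is `α₀ ∈ n` with `¬ MP P (toO α₀)`: `n` is prime to `pp`, so `n` is not contained in `pp`, and `pp = {v | MP P (toO v)}` (`S_AbQ` (1), (5); `pp` is maximal). Let `z ∈ Lam (n b)`. If `z ∈ Lam b`: `z ∈ Lam (a b)`, `z ∈ Lam (c b)`, both values are `-(aO ^ 2)/12`. If `z ∉ Lam b`: `z ∉ Lam (a b)`,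
`z ∉ Lam (c b)` (`S_L5`), so `μ z ∉ Lam (a b)`, `μ z ∈ Lam (n (a b))` (`S_Iso` with `b` and with `n b`). The points of `Lam (n (a b))` which are not in `Lam (a b)` are not in the kernel (`Qp` with `α = α₀`, `β = 1`). `xO (a b) z ≡ xO (c b) z = xO (a b) (μ z)`; `S_D1` (last): `z + μ z` or `z - μ z` is in the kernel, so it is in `Lam (a b)`.
Hence `xO (a b) z = xO (a b) (μ z) = xO (c b) z`. -/
def S_E34 : Prop :=
  ∀ (k t : ℕ) [SqT k t] (P : Ideal ZZ), AbP k t P → ∀ a c n : Ideal (OO k t), a ≠ ⊥ → c ≠ ⊥ → n ≠ ⊥ →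
    PrI n (pp k t) → PrI a n → PrI c n →
    (∀ b : Ideal (OO k t), b ≠ ⊥ → MP P (aO (a * b) - aO (c * b))) →
    (∀ b : Ideal (OO k t), b ≠ ⊥ → ∀ z ∈ Lam (n * b), z ∉ Lam b → MP P (xO (a * b) z - xO (c * b) z)) →
    (∀ b : Ideal (OO k t), b ≠ ⊥ → aO (a * b) = aO (c * b)) ∧
    ∀ b : Ideal (OO k t), b ≠ ⊥ → ∀ z ∈ Lam (n * b), xO (a * b) z = xO (c * b) z

/-- MODULE `E3` (120 lines; from `S_O3`, `S_O4`, `S_O6`, `S_R2`, `S_R4`, `S_AbQ`, `S_D1`, `S_D2`, `S_E1`, `S_E34`, `S_QpC`, `S_PsG`, `S_PsC`; PORT of `DK/E/E3`): `S_E3`. PROOF. `AbP k t P`: `Psi τ n a` for some `a` (`S_E1`, `M = 1`). `aO (a b) = τ (aO b) ≡ (aO b) ^ 3 ≡ aO (pp b)` (`VP.frob`; `S_R2`: `TP P 3 x` gives `MP P x` because `MP P 3`).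
For `z ∈ Lam (n b)`, `z ∉ Lam b`: `¬ IK P b z` (some `α₀ ∈ n` has `¬ MP P (toO α₀)`, as in `S_E34`), `xO (a b) z = τ (xO b z) ≡ (xO b z) ^ 3 ≡ xO (pp b) z` (`S_D2` (5)). `S_E34` with `c = pp` gives `Psi τ n pp` (`PrI pp n`: `S_O6`). `AbPb k t P`: `c • P` is above `pp` (`S_R4`, `S_QpC`), `c τ c ∈ GK` is a Frobenius at `c • P` (`S_PsG`),
`cjI n` is prime to `pp` (`S_O3`, `S_O4`): `Psi (c τ c) (cjI n) pp`, and by `S_PsC` `Psi (c (c τ c) c) n (cjI pp)`, `c (c τ c) c = τ`. -/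
abbrev M_E3 : Prop := S_E3

/-- MODULE `E4a` (100 lines; from `S_O3`, `S_O4`, `S_O6`, `S_R2`, `S_R4`, `S_AbQ`, `S_D1`, `S_E1`, `S_E34`, `S_QpC`, `S_PsG`, `S_PsC`; PORT of `DK/E/E4a`). INERTIA ABOVE `3`. PROOF. As `S_E3`: `AbP k t Q`: `Psi τ n a`; `aO (a b) = τ (aO b) ≡ aO b = aO (⊤ b)` (`VP.inertia`), `xO (a b) z = τ (xO b z) ≡ xO b z` (`xO b z ∈ V` as `¬ IK`);
`S_E34` with `c = ⊤`. Above `𝔭̄`: conjugate. -/
def S_E4a : Prop :=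
  ∀ (k t : ℕ) [SqT k t] (Q : Ideal ZZ), Npr Q → ∀ τ ∈ GK k t, τ ∈ Q.inertia Gal(Om/ℚ) →
    ∀ n : Ideal (OO k t), n ≠ ⊥ → (AbP k t Q → PrI n (pp k t) → Psi τ n (⊤ : Ideal (OO k t))) ∧
      (AbPb k t Q → PrI n (ppb k t) → Psi τ n (⊤ : Ideal (OO k t)))

/-- MODULE `E4b` (130 lines; from `S_O3`, `S_L2`, `S_L5`, `S_R4`, `S_AbQ`, `S_XOm`, `S_D1`, `S_QpC`, `S_PsG`, `S_PsC`; PORT of `DK/E/E4b`). INERTIA AND THE TORSION PRIME TO `Q`. PROOF. First `¬ AbPb k t Q`. `z ∈ Lam (δ b) ⊆ Lam (n b)` (`lam_anti`). `τ (xO b z) = xO (sp v * b) z = xO b (toC v z)` (`S_XOm`; `v ≠ 0` as `sp v ≠ ⊥`). If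
`z ∈ Lam b` then `toC v z ∈ Lam b` and both values agree. Let `z ∉ Lam b`; `toC v z ∉ Lam b` (`z ∉ Lam (sp v * b)`: `S_L5`, `lam_sp`). `¬ Abv Q δ`: `α ∈ δ`, `¬ MP Q (toO α)`, `toC α z ∈ Lam b`, so `z`, `toC v z` are not in the kernel (`Qp`), `xO b z ∈ V`,
`xO b (toC v z) = τ (xO b z) ≡ xO b z`; `S_D1` (last): `toC v z ± z` is in the kernel and killed by `α`, so in `Lam b`. `AbPb k t Q`: apply this to `c • Q` (above `pp`: `S_R4`, so not above `ppb`), `c τ c`, `cjI b`, `cjI δ`, `cjI n`, `cjO v` (`cjI (sp v) = sp (cjO v)`), `conj z`: `xO b' (conj (v z)) = xO b' (conj z)`; and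
`c (xO b z) * kpO b' = xO b' (conj z) - xO b' (ptT b')` for `z` and for `toC v z` (`S_R4`), `kpO b' ≠ 0`: `c (xO b (v z)) = c (xO b z)`. -/
def S_E4b : Prop :=
  ∀ (k t : ℕ) [SqT k t] (Q : Ideal ZZ), Npr Q → ∀ τ ∈ GK k t, τ ∈ Q.inertia Gal(Om/ℚ) →
    ∀ (v : OO k t) (b δ n : Ideal (OO k t)), n ≠ ⊥ → b ≠ ⊥ → δ ≠ ⊥ → n ≤ δ →
      ¬ Abv Q δ → Psi τ n (sp v) → ∀ z ∈ Lam (δ * b), xO b (toC v * z) = xO b z

/-- MODULE `E4` (10 lines; from `S_E4a`, `S_E4b`): `S_E4`. -/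
abbrev M_E4 : Prop := S_E4

/-! ## 5. `S_E10` -/

/-- MODULE `SyA` (60 lines; from `S_L5`; PORT of `DK/E/SyA`). SYSTEMS AND HALF SYSTEMS FOR `a b`. PROOF. `a ⊔ c = ⊤` as `n ≤ c`. `Lam (c b) ⊆ Lam (n b)`: `lam_anti`. For `z ∈ Lam (c (a b))`: `1 = v + v'`, `v ∈ a`, `v' ∈ c`: `z = toC v z + toC v' z`, `toC v z ∈ Lam (c b)`, `toC v' z ∈ Lam (a b)`; if
`u ∈ Lam (c b) ∩ Lam (a b)` then `u ∈ Lam b`. -/
def S_SyA : Prop :=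
  ∀ (k t : ℕ) [SqT k t] (a b c n : Ideal (OO k t)), a ≠ ⊥ → b ≠ ⊥ → c ≠ ⊥ → PrI a n → n ≤ c →
    a ⊔ c = ⊤ ∧ (∀ u ∈ Lam (c * b), u ∈ Lam (n * b)) ∧
    (∀ R : Finset ℂ, IsSys c b R → IsSys c (a * b) R) ∧ ∀ S : Finset ℂ, IsHalf c b S → IsHalf c (a * b) S

/-- MODULE `Efr` (100 lines; from `S_O4`, `S_O6`, `S_B12`, `S_R5`; see `DK/E/Efr`). THE FRAMING IN A RAY CLASS. PROOF. `sp α * a = sp α' * a'`, `α - α' ∈ ppb`, `α, α'` prime to `ppb`. `v ∈ ppb ↔ 3 ∣ v.re + v.im` (`S_O4`): so `α - 1 ∈ ppb` or `α + 1 ∈ ppb` (`α ∉ ppb`), and the same sign for `α'`. `S_B12`: `fr (sp α * (a b)) = ± toC α fr (a b)`,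
`fr (sp α' * (a' b)) = ± toC α' fr (a' b)` with the same sign, and the two ideals are equal: `fr (a b) toC α = fr (a' b) toC α'`, for every `b`. So the quotients for `b` and `c` agree (`fr ≠ 0`: `S_R5`). -/
def S_Efr : Prop :=
  ∀ (k t : ℕ) [SqT k t] (a a' : Ideal (OO k t)), a ≠ ⊥ → a' ≠ ⊥ → PrI a (ppb k t) → PrI a' (ppb k t) →
    Ray (ppb k t) a a' → ∀ b c : Ideal (OO k t), b ≠ ⊥ → c ≠ ⊥ → PrI b (ppb k t) → PrI c (ppb k t) →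
      rO (a * b) (a * c) = rO (a' * b) (a' * c)

open Classical in
/-- MODULE `Ero` (120 lines; from `S_O6`, `S_L3`, `S_L5`, `S_B12`, `S_R1`, `S_R4`, `S_R5`, `S_SyA`, `S_E10a`). THE QUOTIENT OF THE FRAMINGS, LARGE LEVEL. PROOF. First claim: `S_B12` (last) divided by `fr b`, through `io` (`S_R1`, `S_R4`, `S_R5`; the `u` are torsion points). Second claim: choose a system `R` for `(c, b)` (`S_L3`), apply `τ` to the
first claim: `u ∈ Lam (n b)` (`S_SyA`), `u ∈ Lam b ↔ u ∈ Lam (a b)` (`S_L5`, `PrI a n`), `τ (xO b u) = xO (a b) u`; `R` is a system for `(c, a b)` (`S_SyA`), `a b` is prime to `ppb` (`S_O6`, `n ≤ ppb`), so the right hand side is the one of the first claim for `a b`, `c`; `a (c b) = c (a b)`; `aO (a b) ≠ 0` (`S_E10a` for `τ = 1`, or `S_R5`). -/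
def S_Ero : Prop :=
  (∀ (k t : ℕ) [SqT k t] (b c : Ideal (OO k t)), b ≠ ⊥ → c ≠ ⊥ → PrI b (ppb k t) → PrI c (ppb k t) →
    ∀ R : Finset ℂ, IsSys c b R →
      rO b (c * b) * aO b = NI c * aO b + 3 * ∑ u ∈ R, (if u ∈ Lam b then 0 else (xO b u)⁻¹)) ∧
  ∀ (k t : ℕ) [SqT k t] (τ : Gal(Om/ℚ)) (n a : Ideal (OO k t)), n ≠ ⊥ → n ≤ ppb k t → Psi τ n a →
    ∀ b c : Ideal (OO k t), b ≠ ⊥ → c ≠ ⊥ → PrI b (ppb k t) → PrI c (ppb k t) → n ≤ c →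
      τ (rO b (c * b)) = rO (a * b) (a * (c * b))

/-- MODULE `E10r` (80 lines; from `S_O6`, `S_O7`, `S_R5`, `S_E1`, `S_Efr`, `S_Ero`; PORT of `DK/E/E10r`). THE QUOTIENT OF THE FRAMINGS. PROOF. Let `n₁ = n * (b * c)`; `S_E1`: `Psi τ n₁ a₁`, and `Psi τ n a₁`, so `Ray n a₁ a`, `Ray ppb a₁ a` (`S_O7`). `rO b c = rO b (c b)/rO c (b c)`
(`io`, `S_R5`; `c b = b c`), so by `S_Ero` `τ (rO b c) = rO (a₁ b) (a₁ c)`, and `S_Efr`. -/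
def S_E10r : Prop :=
  ∀ (k t : ℕ) [SqT k t] (τ : Gal(Om/ℚ)) (n a : Ideal (OO k t)), n ≠ ⊥ → n ≤ ppb k t → τ ∈ GK k t → Psi τ n a →
    ∀ b c : Ideal (OO k t), b ≠ ⊥ → PrI b (ppb k t) → c ≠ ⊥ → PrI c (ppb k t) →
      τ (rO b c) = rO (a * b) (a * c)

/-- MODULE `E10v` (150 lines; from `S_O6`, `S_L5`, `S_L6`, `S_B1`, `S_B4`, `S_B12`, `S_R1`, `S_R4`, `S_R5`). THE FUNCTION `vO`. PROOF. First claim: `S₀ ∈ Lam (ppb b)`, `S₀ ∉ Lam b`: `S_L6` (last item). `wdC b` is odd and periodic, `wdC b z = 0` for `z ∈ Lam b` (`S_B1`), `wdC b S₀ ≠ 0` (`S_B12`): the first three values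
(`io (vO b z) = wdC b z/wdC b S₀`: `S_R5`, with `m = ⊤`, `b' = b`). Fourth: `S_B4` (1): `wdC b z = wdC b (ptS b) * (A X + 1 - 2 X² X(z + ptS b))` and `(X(z + ptS b) + X(z - ptS b)) X² = A X + 1`. If `S₀ ≡ ptS b` modulo `Lam b`: divide. If `S₀ ≡ - ptS b`: `wdC b S₀ = - wdC b (ptS b)`,
`X(z + ptS b) = X(z - S₀)`, and `-(A X + 1 - 2 X² X(z - S₀)) = A X + 1 - 2 X² X(z + S₀)` by the second formula. (`z ± S₀ ∉ Lam b`, so `z ± ptS b ∉ Lam b`.) Second claim: `z, z ± S₀ ∈ Lam (n b)` (`n ≤ ppb`, `lam_anti`), the four cases are the same for `a b` (`S_L5`: for `y ∈ Lam (n b)`: `y ∈ Lam b ↔ y ∈ Lam (a b)`); apply `τ`. -/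
def S_E10v : Prop :=
  (∀ (k t : ℕ) [SqT k t] (b : Ideal (OO k t)), b ≠ ⊥ → PrI b (ppb k t) →
    S0 k t ∈ Lam (ppb k t * b) ∧ S0 k t ∉ Lam b ∧ ∀ z : ℂ, Tor k t z →
      (z ∈ Lam b → vO b z = 0) ∧ (z - S0 k t ∈ Lam b → vO b z = 1) ∧
      (z + S0 k t ∈ Lam b → vO b z = -1) ∧
      (z ∉ Lam b → z - S0 k t ∉ Lam b → z + S0 k t ∉ Lam b →
        vO b z = aO b * xO b z + 1 - 2 * xO b z ^ 2 * xO b (z + S0 k t))) ∧
  ∀ (k t : ℕ) [SqT k t] (τ : Gal(Om/ℚ)) (n a : Ideal (OO k t)), n ≠ ⊥ → n ≤ ppb k t → Psi τ n a →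
    ∀ b : Ideal (OO k t), b ≠ ⊥ → PrI b (ppb k t) → ∀ z ∈ Lam (n * b), τ (vO b z) = vO (a * b) z

/-- MODULE `E10g` (80 lines; from `S_O6`, `S_L5`, `S_B14`, `S_R5`, `S_XOm`, `S_HsP`, `S_SyA`, `S_E10v`). THE FUNCTION `gO`. PROOF. `S_R5`: `gO m b z = ∑ u ∈ hs m b, vO b z * (aO b * (xO b z - xO b u))⁻¹`. Apply `τ`: `z, u ∈ Lam (n b)` (`S_SyA` for `c = m`): `∑ u ∈ hs m b, vO (a b) z * (aO (a b) * (xO (a b) z - xO (a b) u))⁻¹`.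
`hs m b` is a half system for `(m, a b)` (`S_B14`, `S_SyA`), and so is `hs m (a b)`; the summand is even and periodic in `u` (`S_XOm`), so the sum is the one over `hs m (a b)` (`S_HsP` (1), sums; `PrI m (sN 2)` from `PrI m (sN 6)`: `S_O6` (4)); `z ∉ Lam (m (a b))`: `S_L5` for `m b` (`z ∈ Lam (n b) ⊆ Lam (n (m b))`). -/
def S_E10g : Prop :=
  ∀ (k t : ℕ) [SqT k t] (τ : Gal(Om/ℚ)) (n a : Ideal (OO k t)), n ≠ ⊥ → n ≤ ppb k t → Psi τ n a →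
    ∀ m b : Ideal (OO k t), m ≠ ⊥ → b ≠ ⊥ → PrI m (sN k t 6) → n ≤ m → PrI b (ppb k t) →
      ∀ z ∈ Lam (n * b), z ∉ Lam (m * b) → τ (gO m b z) = gO m (a * b) z

/-- MODULE `E10T` (80 lines; from `S_O6`, `S_B14`, `S_XOm`, `S_HsP`, `S_SyA`, `S_E10a`; see `DK/E/E10T`). `Theta`. PROOF. `Theta m b z` is a product over `hs m b` of a rational expression in `dlO b`, `xO b z`, `xO b u` (see `DT/Defs.lean`), even and periodic in `u`; `z, u ∈ Lam (n b)` (`S_SyA`, `c = m`); `τ (dlO b) = dlO (a b)` (`S_E10a`);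
`hs m b` is a half system for `(m, a b)`, `S_HsP` (1) (products). -/
def S_E10T : Prop :=
  ∀ (k t : ℕ) [SqT k t] (τ : Gal(Om/ℚ)) (n a : Ideal (OO k t)), n ≠ ⊥ → Psi τ n a →
    ∀ m b : Ideal (OO k t), m ≠ ⊥ → b ≠ ⊥ → PrI m (sN k t 6) → n ≤ m → ∀ z ∈ Lam (n * b),
      τ (Theta m b z) = Theta m (a * b) z

/-- MODULE `E10` (20 lines; from `S_E10a`, `S_E10k`, `S_E10r`, `S_E10v`, `S_E10g`, `S_E10T`): `S_E10`. -/
abbrev M_E10 : Prop := S_E10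

end Pool.Agent.DT
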