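import Pool.Agent.Lib.DT.Iface

/-!
# Theorem DT, part E, second half: `S_E1`, `S_E6`, `S_E7`, `S_E8`, `S_E9`

Statements of the modules with complete proofs (author helper28). The module `DT/E/<Name>.lean` proves its theorem in
`namespace Pool.Agent.DT.Eb` (first line `import Pool.Agent.Lib.DT.E.SpecB`); the name and the exact type are
at the end of the docstring. Read `DT/Defs.lean`, `DT/Iface.lean`, `DT/IfaceO.lean`, `DT/Base.lean` (lemmas `mem_GK_iff`, `GK_toO`,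
`lam_..`, `tor_..`, `toC_..`, `Nm_..`, `cop_..`) and the lemmas proved below (`psi_top`, `psi_mul`, `psi_level`,
`pri_mul`, `ne_mul`, ..). Most modules are adaptations of files of `DK/E` (SAME NAME there; moduli `N` there, ideals `n` here;
`(N : ℂ) * z ∈ Lam b` there, `z ∈ Lam (n * b)` here; `w ^ 2 = t w - 3 k` here). Parameters `(k t : ℕ) [SqT k t]`.
-/

set_option autoImplicit false

open scoped Pointwise nonZeroDivisors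

noncomputable section

namespace Pool.Agent.DT.Eb

open Pool.Agent.MuZ Pool.Agent.FW NumberField IsDedekindDomain Pool.Agent.DT
open Pool.Agent.DI (io ofC io_inj exists_io io_ofC ofC_io VP MP UP TP ex)

variable {k t : ℕ}

/-! ## Elementary lemmas (complete) -/

theorem ne_mul [SqT k t] {a b : Ideal (OO k t)} (ha : a ≠ ⊥) (hb : b ≠ ⊥) : a * b ≠ ⊥ :=
  fun h => (Ideal.mul_eq_bot.1 h).elim ha hb

theorem ne_top [SqT k t] : (⊤ : Ideal (OO k t)) ≠ ⊥ := top_ne_bot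

theorem ne_sp [SqT k t] {α : OO k t} (h : α ≠ 0) : sp α ≠ ⊥ := by
  intro h'
  exact h (Ideal.span_singleton_eq_bot.1 h')

theorem ne_pow [SqT k t] {a : Ideal (OO k t)} (ha : a ≠ ⊥) (n : ℕ) : a ^ n ≠ ⊥ := by
  rw [← Ideal.zero_eq_bot] at ha ⊢
  exact pow_ne_zero n ha

theorem nat_ne [SqT k t] {N : ℕ} (hN : 0 < N) : (N : OO k t) ≠ 0 := by
  intro h
  have h1 := congrArg Nm h
  rw [Nm_nat, Nm_zero] at h1
  have h2 : (N : ℤ) = 0 := by simpa using h1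
  omega

theorem ne_sN [SqT k t] {N : ℕ} (hN : 0 < N) : sN k t N ≠ ⊥ := ne_sp (nat_ne hN)

theorem ne_cj [SqT k t] (hO3 : S_O3) {a : Ideal (OO k t)} (ha : a ≠ ⊥) : cjI a ≠ ⊥ :=
  (hO3 k t).2.2.2.2.2.2.1 a ha

theorem pri_iff {a n : Ideal (OO k t)} : PrI a n ↔ IsCoprime a n :=
  (Ideal.isCoprime_iff_sup_eq).symm

theorem pri_mul {a b n : Ideal (OO k t)} (h : PrI a n) (h' : PrI b n) : PrI (a * b) n :=
  pri_iff.2 ((pri_iff.1 h).mul_left (pri_iff.1 h'))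

theorem pri_top (n : Ideal (OO k t)) : PrI (⊤ : Ideal (OO k t)) n := by
  unfold PrI
  rw [top_sup_eq]

theorem pri_mono {a n n' : Ideal (OO k t)} (h : PrI a n) (h' : n ≤ n') : PrI a n' := by
  unfold PrI at *
  rw [eq_top_iff, ← h]
  exact sup_le_sup_left h' a

/-- `PrI (sp α) n`: an inverse modulo `n`. -/
theorem pri_inv {α : OO k t} {n : Ideal (OO k t)} (h : PrI (sp α) n) : ∃ β : OO k t, α * β - 1 ∈ n := by
  have h1 : (1 : OO k t) ∈ sp α ⊔ n := by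
    rw [show sp α ⊔ n = ⊤ from h]
    trivial
  obtain ⟨x, hx, y, hy, hxy⟩ := Submodule.mem_sup.1 h1
  obtain ⟨β, rfl⟩ := Ideal.mem_span_singleton'.1 hx
  refine ⟨β, ?_⟩
  have e : α * β - 1 = -y := by
    rw [← hxy]
    ring
  rw [e]
  exact n.neg_mem hy

theorem sN_le {N M : ℕ} (h : M ∣ N) : sN k t N ≤ sN k t M := by
  rw [Ideal.span_singleton_le_span_singleton]
  exact_mod_cast Nat.cast_dvd_cast h

theorem mem_sN {N : ℕ} {v : OO k t} : v ∈ sN k t N ↔ (N : OO k t) ∣ v := Ideal.mem_span_singleton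

theorem psi_top [SqT k t] (n : Ideal (OO k t)) : Psi 1 n (⊤ : Ideal (OO k t)) where
  ne := ne_top
  cop := pri_top n
  aa := fun b _ => by rw [Ideal.top_mul]; rfl
  xx := fun b _ z _ => by rw [Ideal.top_mul]; rfl

/-- `Lam (n * b) ⊆ Lam (n * (a * b))`. -/
theorem lam_nab [SqT k t] {n a b : Ideal (OO k t)} {z : ℂ} (hz : z ∈ Lam (n * b)) :
    z ∈ Lam (n * (a * b)) := by
  rw [mul_left_comm]
  exact lam_mono hz

theorem psi_mul [SqT k t] {τ τ' : Gal(Om/ℚ)} {n a a' : Ideal (OO k t)} (h : Psi τ n a)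
    (h' : Psi τ' n a') : Psi (τ * τ') n (a * a') where
  ne := ne_mul h.ne h'.ne
  cop := pri_mul h.cop h'.cop
  aa := fun b hb => by
    rw [AlgEquiv.mul_apply, h'.aa b hb, h.aa _ (ne_mul h'.ne hb), mul_assoc]
  xx := fun b hb z hz => by
    rw [AlgEquiv.mul_apply, h'.xx b hb z hz, h.xx _ (ne_mul h'.ne hb) z (lam_nab hz), mul_assoc]

theorem psi_level [SqT k t] {τ : Gal(Om/ℚ)} {n n' a : Ideal (OO k t)} (h : Psi τ n a)
    (h' : n ≤ n') : Psi τ n' a where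
  ne := h.ne
  cop := pri_mono h.cop h'
  aa := h.aa
  xx := fun b hb z hz => h.xx b hb z (lam_anti (Ideal.mul_mono_left h') hz)

/-! ## Inputs from the first half of part E -/

/-- Finiteness (first half of part E). -/
def S_FN : Prop :=
  ∀ (k t : ℕ) [SqT k t] (n : Ideal (OO k t)), n ≠ ⊥ → ∃ A : Set Om, A.Finite ∧
    (∀ b : Ideal (OO k t), b ≠ ⊥ → aO b ∈ A) ∧
    ∀ b : Ideal (OO k t), b ≠ ⊥ → ∀ z ∈ Lam (n * b), xO b z ∈ A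

/-- Existence (first half of part E); `S_E1`, item 1 follows (use the level `n * sN k t M`). -/
def S_Ex : Prop :=
  ∀ (k t : ℕ) [SqT k t] (n : Ideal (OO k t)), n ≠ ⊥ → ∀ τ ∈ GK k t,
    ∃ a : Ideal (OO k t), Psi τ n a

/-! ## `S_E1` -/

/-- MODULE `Ray` (70 lines; from `S_B1`, `S_B7`, `S_O7`; adapt `DK/E/Ray.lean`). `S_E1`, ITEM 3. PROOF. `Ray n a a'`: `α a = α' a'` (`sp α * a = sp α' * a'`),
`α, α' ≠ 0` prime to `n`, `α - α' ∈ n`. `ne`, `cop`: `S_O7` (sixth item). `aa`: `S_B7` gives `AC (sp α * c) = AC c`, so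
`AC (a * b) = AC (sp α * (a * b)) = AC (sp α' * (a' * b)) = AC (a' * b)` (`mul_assoc`; `aO c = ofC (AC c)`). `xx`: let `z ∈ Lam (n * b)`, `β` with `α β - 1 ∈ n` (`pri_inv`). Then
`toC (α β) z - z = toC (α β - 1) z ∈ Lam b` (`lam_prod`), so also in `Lam (a b)` (`lam_mono`), the same for `α' β` (`α' β - 1 = (α β - 1) - (α - α') β ∈ n`). With the periods (`S_B1`) and
`XC (sp α * c) y = XC c (toC α y)` (`S_B7`): `X(a b, z) = X(a b, α β z) = X(sp α * (a b), β z) = X(sp α' * (a' b), β z) = X(a' b, α' β z) = X(a' b, z)`.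
THEOREM `tRay : S_B1 → S_B7 → S_O7 → S_Ray`. -/
def S_Ray : Prop :=
  ∀ (k t : ℕ) [SqT k t] (n : Ideal (OO k t)), n ≠ ⊥ → ∀ (τ : Gal(Om/ℚ)) (a a' : Ideal (OO k t)),
    Psi τ n a → Ray n a a' → Psi τ n a'

/-- MODULE `Uq` (180 lines; from `S_B1`, `S_B7`, `S_B13`, `S_L3`, `S_L5`, `S_O6`, `S_R1`, `S_R4`; adapt `DK/E/Uq.lean`). `S_E1`, ITEM 2. PROOF. `b = ⊤`: `aO a = τ (aO ⊤) = aO a'`
(`a * ⊤ = a`), so `AC a = AC a'` (`S_R1`), `sp α * a = sp α' * a'` with `α, α' ≠ 0` (`S_B13`). Let `μ = toC α / toC α'`.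
(1) `XC a' z = XC a (μ z)` for all `z`: put `y = z / toC α'` in `XC (sp α' * a') y = XC a' (toC α' y)`, `XC (sp α * a) y = XC a (toC α y)` (`S_B7`).
(2) `μ z ∈ Lam a ↔ z ∈ Lam a'` (`lam_sp` for `sp α * a = sp α' * a'` at `z / toC α'`). (3) Let `z ∈ Lam (n * ⊤)` (`= Lam n`). `Psi` for `b = ⊤`: `xO a z = xO a' z`, so
`XC a z = XC a' z` (`S_R4`, first part; `Tor k t z` by `tor_lam`). `z ∈ Lam a ↔ z ∈ Lam ⊤ ↔ z ∈ Lam a'` (`S_L5` first part with `b = ⊤`, and `lam_mono`; `a * ⊤ = a`).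
(4) For `z ∈ Lam (n * ⊤)`: `μ z - z ∈ Lam a` or `μ z + z ∈ Lam a`: if `z ∈ Lam a` then `z ∈ Lam a'`, `μ z ∈ Lam a`, clear; if `z ∉ Lam a` then `z ∉ Lam a'`, `μ z ∉ Lam a`, and
`XC a z = XC a' z = XC a (μ z)`, `S_B1` (eighth item). (5) There is `e ∈ {1, -1}` with `(μ - e) z ∈ Lam a` for all `z ∈ Lam (n * ⊤)` (`Uq_cover` in `DK/E/Uq.lean`; two subgroups
cover a group). (6) `S_O6` (last item): `ν ∈ a`, `ν ≠ 0`, `ν - 1 ∈ n`. From `sp α * a = sp α' * a'`: `α ν = α' ν'`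
with `ν' ∈ a'` (`Ideal.mem_span_singleton_mul`), `toC ν' = μ toC ν`. Let `g ∈ Lam (n * ⊤)` be a generator: `S_L3` with `a := n`, `b := ⊤`: `toC v * g ∈ Lam ⊤ ↔ v ∈ n`. Since `(μ - e) g ∈ Lam a`, `ν ∈ a`:
`toC ν (μ - e) g = toC u` for some `u` (definition of `Lam a`), that is `toC (ν' - e ν) g ∈ Lam ⊤` (`lam_top`), so
`ν' - e ν ∈ n`. Put `β = e ν'`, `β' = ν`: `β - β' = e (ν' - e ν) ∈ n`, `β' = 1` and `β = 1` modulo `n`, both are prime to `n` (`S_O6` (7) from `v = 1`; `sp 1 = ⊤`) and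
`≠ 0` (`μ ≠ 0`), and `sp ν' * a = sp ν * a'`: `sp (α' ν') * a = sp (α ν) * a = sp ν * (sp α * a) = sp ν * (sp α' * a') = sp α' * (sp ν * a')`; cancel
`sp α'` (`Ideal.span_singleton_mul_right_inj`). `sp (e ν') = sp ν'` (`Ideal.span_singleton_neg`).
THEOREM `tUq : S_B1 → S_B7 → S_B13 → S_L3 → S_L5 → S_O6 → S_R1 → S_R4 → S_Uq`. -/
def S_Uq : Prop :=
  ∀ (k t : ℕ) [SqT k t] (n : Ideal (OO k t)), n ≠ ⊥ → ∀ (τ : Gal(Om/ℚ)) (a a' : Ideal (OO k t)),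
    Psi τ n a → Psi τ n a' → Ray n a a'

/-- **`S_E1`** (complete). -/
theorem sE1 (h1 : S_Ex) (h2 : S_Uq) (h3 : S_Ray) : S_E1 := by
  intro k t _ n hn
  refine ⟨?_, h2 k t n hn, h3 k t n hn, fun τ τ' a a' h h' => psi_mul h h',
    fun τ n' a h h' => psi_level h h'⟩
  intro τ hτ M hM
  obtain ⟨a, ha⟩ := h1 k t (n * sN k t M) (ne_mul hn (ne_sN hM)) τ hτ
  exact ⟨a, psi_level ha Ideal.mul_le_left, pri_mono ha.cop Ideal.mul_le_right⟩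

/-! ## Open subgroups, generation, Frobenius elements -/

/-- MODULE `Op` (50 lines; from `S_FN`; adapt `DK/E/Op.lean`). AN OPEN SUBGROUP WHICH ACTS TRIVIALLY ON THE `n`-TORSION AND ON `μ_N`. PROOF. `A` from `S_FN`,
`A' = A ∪ {ζ | ζ ^ N = 1}` is finite; the fixing subgroup of `ℚ(A')` is open. `Psi τ n ⊤`: `⊤ * b = b`.
THEOREM `tOp : S_FN → S_Op`. -/
def S_Op : Prop :=
  ∀ (k t : ℕ) [SqT k t] (n : Ideal (OO k t)) (N : ℕ), n ≠ ⊥ → 0 < N →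
    ∃ O : OpenSubgroup Gal(Om/ℚ), ∀ τ ∈ O,
      Psi τ n (⊤ : Ideal (OO k t)) ∧ ∀ ζ : Om, ζ ^ N = 1 → τ ζ = ζ

/-- MODULE `Gn` (100 lines; `import Pool.Agent.Lib.DK.Gen`, no hypotheses; adapt `DK/E/Gn.lean`). `Gal(Om/K)` IS GENERATED BY FROBENIUS ELEMENTS. PROOF. `KQ k t` is a number
field. `gen_frob` (in `DK/Gen.lean`) for `K = KQ k t`, `GK k t = K.fixingSubgroup`. Let `l, Q, τ` be as in its last hypothesis. Let
`q = {v | MP Q (toO v)}`, the inverse image of `Q` under the ring homomorphism `OO k t → ZZ`, `v ↦ toO v` (`toO_integral`; `MP.coe_iff`), a prime ideal, `Abv Q q`.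
`(l : OO k t) ∈ q`, so `q ≠ ⊥`. `NI q = l`: as in `DK/E/Gn.lean`. `l.Coprime M` since `l` is prime, `¬ l ∣ M`.
THEOREM `tGn : S_Gn`. -/
def S_Gn : Prop :=
  ∀ (k t : ℕ) [SqT k t] (H : Subgroup Gal(Om/ℚ)) (O : OpenSubgroup Gal(Om/ℚ)) (M : ℕ),
    GK k t ⊓ (O : Subgroup Gal(Om/ℚ)) ≤ H → 0 < M →
    (∀ (q : Ideal (OO k t)) (l : ℕ) (Q : Ideal ZZ) (τ : Gal(Om/ℚ)), Deg1 q l → l.Coprime M → Npr Q →
      Abv Q q → (l : ZZ) ∈ Q → τ ∈ GK k t → Fro Q l τ → τ ∈ H) → GK k t ≤ H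

/-- MODULE `AbB` (90 lines; no hypotheses; adapt the items (2), (6) of `DK/R/AbQ.lean`). PRIMES ABOVE `q`. PROOF. (1) `toO` is an injective ring
homomorphism `OO k t → ZZ` (`toO_integral`, `toO_inj`), integral (`ZZ` is integral over `ℤ`), so there is a prime of `ZZ` over `q`
(`Ideal.exists_ideal_over_prime_of_isIntegral` or `Ideal.exists_ideal_liesOver..`); it is not `⊥` as `q ≠ ⊥`. (2) `NI q = l` kills
`O/q`, so `(l : OO k t) ∈ q`, `MP Q l`. If `l` does not divide `n` then `a l + b n = 1`, so `n` is a unit modulo `Q`. THEOREM `tAbB : S_AbB`. -/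
def S_AbB : Prop :=
  ∀ (k t : ℕ) [SqT k t],
    (∀ q : Ideal (OO k t), q.IsPrime → q ≠ ⊥ → ∃ Q : Ideal ZZ, Npr Q ∧ Abv Q q) ∧
    ∀ (Q : Ideal ZZ) (q : Ideal (OO k t)) (l : ℕ), Npr Q → Deg1 q l → Abv Q q →
      MP Q (l : Om) ∧ ∀ n : ℤ, ¬ (l : ℤ) ∣ n → UP Q (n : Om)

/-- `F0` (proved in `DT/E/F0.lean`; `DK/E/F0.lean`). FROBENIUS ELEMENTS OVER `ℚ`. -/
def S_F0 : Prop :=
  ∀ (Q : Ideal ZZ) (l : ℕ), Npr Q → l.Prime → (l : ZZ) ∈ Q → ∃ σ : Gal(Om/ℚ), Fro Q l σ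

/-- MODULE `Fr` (90 lines; from `S_F0`, `S_AbB`; adapt `DK/E/Fr.lean`). FROBENIUS ELEMENTS IN `Gal(Om/K)`. PROOF. `Q` over `q`: `S_AbB` (1); `MP Q l`:
`S_AbB` (2), so `(l : ZZ) ∈ Q`; `τ` from `S_F0`. Claim `τ wO = wO` (`mem_GK_iff`). `τ wO` is a root of `X ^ 2 - t X + 3 k`, so `wO` or `t - wO`. `OO k t ⧸ q` has
`NI q = l` elements, so `v ^ l - v ∈ q` for all `v`, so `MP Q (wO ^ l - wO)` (`Abv Q q`, `toO_wI`). `MP Q (τ wO - wO ^ l)` (`VP.frob`). If `τ wO = t - wO` then `MP Q (t - 2 wO)`, the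
square `(t - 2 wO) ^ 2 = t ^ 2 - 12 k = - Dk k t` (`wO_sq`, `Dk_cast`), so `MP Q (Dk k t)`, but `l` does not divide `Dk k t` (`S_AbB` (2): `UP Q (Dk k t)`): contradiction.
THEOREM `tFr : S_F0 → S_AbB → S_Fr`. -/
def S_Fr : Prop :=
  ∀ (k t : ℕ) [SqT k t] (q : Ideal (OO k t)) (l : ℕ), Deg1 q l → ¬ l ∣ Dk k t →
    ∃ (Q : Ideal ZZ) (τ : Gal(Om/ℚ)), Npr Q ∧ Abv Q q ∧ τ ∈ GK k t ∧ Fro Q l τ

/-! ## `S_E6`, `S_E7` -/

/-- MODULE `Cyc` (150 lines; from `S_E1`, `S_E2`, `S_O2`, `S_O9`, `S_Op`, `S_Gn`; adapt `DK/E/Cyc.lean`). THE CYCLOTOMIC CHARACTER. PROOF. Let `n = sN k t N` (`ne_sN`),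
`H = {τ ∈ GK k t | ∀ a, Psi τ n a → ∀ ζ, ζ ^ N = 1 → τ ζ = ζ ^ NI a}`. `ζ ^ NI a` depends only on `NI a` modulo `N` and `N ∣ NI a - NI a'` if `Psi τ n a`, `Psi τ n a'`
(`S_E1` (2), `S_O9`), so for `τ ∈ GK k t` the condition may be checked for one `a` (`S_E1` (1) with `M = 1`). SUBGROUP: `1`: `psi_top`, `NI ⊤ = 1`. Products: `psi_mul`, `NI (a a') = NI a NI a'` (`S_O2`).
Inverses: `Psi τ n a`, `Psi τ⁻¹ n a'` (`S_E1` (1)), `Psi 1 n (a a')`, so `NI a NI a' = 1` modulo `N`. OPEN: `S_Op` for `n`, `N`. FROBENIUS: `S_Gn` with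
`M = N B`, `B` from `S_E2`: `Psi τ n q`, `NI q = l`, and `τ ζ = ζ ^ l` as in `DK/E/Cyc.lean`.
THEOREM `sE6 : S_E1 → S_E2 → S_O2 → S_O9 → S_Op → S_Gn → S_E6`. -/
def S_Cyc : Prop := S_E1 → S_E2 → S_O2 → S_O9 → S_Op → S_Gn → S_E6

/-- MODULE `Srj` (50 lines; from `S_E1`, `S_E2`, `S_O7`, `S_O8`, `S_Fr`; adapt `DK/E/Srj.lean`). SURJECTIVITY. PROOF. `S_O8` for `n`, `M = B * Dk k t` (`B` from `S_E2`; `0 < Dk k t`: `hD8`, `Dk_cast`) and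
`C a := ∃ τ ∈ GK k t, Psi τ n a`: `C ⊤` (`psi_top`), products (`psi_mul`), `C q` for `Deg1 q l`, `l.Coprime (NI n * M)`: `Q, τ` from `S_Fr` (`¬ l ∣ Dk k t`), `S_E2`. So there is `a'` with `C a'`,
`Ray n a a'`; `Ray n a' a` (`S_O7` (2)) and `S_E1` (3). THEOREM `sE7 : S_E1 → S_E2 → S_O7 → S_O8 → S_Fr → S_E7`. -/
def S_Srj : Prop := S_E1 → S_E2 → S_O7 → S_O8 → S_Fr → S_E7

/-! ## `S_E8` -/

/-- MODULE `Fix` (150 lines; from `S_E1`, `S_O7`, `S_Op`; adapt `DK/E/Fix.lean`). GALOIS THEORY FOR `FixI`. PROOF. INVERSES: if `H a`, `a' ≠ ⊥`, `PrI a' n`, `Ray n (a * a') ⊤` then `H a'`: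
`S_O7` (10) gives a finite set of representatives, so there are `i < j` with `Ray n (a ^ i) (a ^ j)` (both have the same representative: `S_O7` (2), (3)), by `S_O7` (5) with `c = a ^ i` (`⊤ * c`, `a ^ (j - i) * c`)
`Ray n ⊤ (a ^ (j - i))`, `j - i = m + 1`; `Ray n (a * a') (a * a ^ m)`, cancel `a`: `Ray n a' (a ^ m)`, `H (a ^ m)`. Let `W = {τ ∈ GK k t | ∀ a, Psi τ n a → H a}`; the condition may be checked for one `a`
(`S_E1` (1) with `M = 1`, (2), invariance of `H`). `W` is a subgroup, contains `GK k t ⊓ O`, `O` from `S_Op` (`N = 1`); `FixI n H` is its fixed field. The rest as in `DK/E/Fix.lean` (`GK k t` is open: `KQ k t` is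
finite over `ℚ`). THEOREM `sE8 : S_E1 → S_O7 → S_Op → S_E8`. -/
def S_Fix : Prop := S_E1 → S_O7 → S_Op → S_E8

/-! ## `S_E9` -/

/-- MODULE `Ab` (40 lines; from `S_E1`, `S_O7`; adapt `DK/E/Ab.lean`). `FixI` IS STABLE UNDER `Gal(Om/K)`. PROOF. Let `σ ∈ GK k t`, `Psi σ n a`, `H a`; `Psi τ n u`, `Psi τ⁻¹ n u'`
(`S_E1` (1)), `Psi (τ⁻¹ * τ) n (u' * u)`, so `Ray n (u' * u) ⊤` (`S_E1` (2), `psi_top`), `Ray n a (u' * (a * u))` (`S_O7` (1), (2), (4)), so `H (u' * (a * u))` and `τ⁻¹ σ τ x = x`.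
THEOREM `tAb : S_E1 → S_O7 → S_Ab`. -/
def S_Ab : Prop :=
  ∀ (k t : ℕ) [SqT k t] (n : Ideal (OO k t)) (H : Ideal (OO k t) → Prop), n ≠ ⊥ →
    (∀ a a', H a → Ray n a a' → H a') → ∀ τ ∈ GK k t, ∀ x ∈ FixI n H, τ x ∈ FixI n H

/-- `c` is the complex conjugation. -/
def IsCj (c : Gal(Om/ℚ)) : Prop := ∀ x : Om, io (c x) = (starRingEnd ℂ) (io x)

/-- MODULE `Cj1` (50 lines; no hypotheses; the lemmas `Cj_cc`, `Cj_w`, `Cj_GK`, `Cj_or` of `DK/E/Cj.lean`). COMPLEX CONJUGATION, ELEMENTARY PART. PROOF. `c (c x) = x`, `c wO = t - wO`: apply `io` (`io_inj`, `conj_wC`, `io_wO`).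
`g wO` is a root of `X ^ 2 - t X + 3 k`, so `wO` or `t - wO`. THEOREM `tCj1 : S_Cj1`. -/
def S_Cj1 : Prop :=
  ∀ (k t : ℕ) [SqT k t] (c : Gal(Om/ℚ)), IsCj c → c * c = 1 ∧ c (wO k t) = t - wO k t ∧
    (∀ g : Gal(Om/ℚ), g ∈ GK k t ∨ c * g ∈ GK k t) ∧ ∀ τ ∈ GK k t, c * τ * c ∈ GK k t

/-- MODULE `CjX` (70 lines; from `S_Cj1`, `S_B1`, `S_E10`, `S_L2`, `S_L6`, `S_O3`, `S_R4`). COMPLEX CONJUGATION AND THE VALUES `X(z)`. PROOF. `c` is the element of `S_R4` (`io_inj`: the two agree on all `x`). Let `b ≠ ⊥`, `z ∈ Lam (cjI n * b)`,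
`b' = cjI b`, `z' = conj z`, `d = cjI a * b`, so `cjI d = a * b'` (`S_O3` (2), (3)), `cjI b' = b`; all these ideals are `≠ ⊥` (`ne_cj`, `ne_mul`). `z' ∈ Lam (n * b')`: `cjI n * b = cjI (n * b')`, `S_L2` (8). `Tor k t z`: `tor_lam`. `T' = ptT b' ∈ Lam (n * b')`:
`ptT b' ∈ Lam (pp k t * b')` (`S_L6a`), `3 ∈ pp`, `n ≤ sN k t 3 ≤ pp k t`, `lam_anti`. `S_R4` for `b`: `c (X(b, z)) * kpO b' = X(b', z') - X(b', T')` (all `X(b, z) = xO b z`). Apply `τ`: `τ (c (X(b, z))) * kpO (a b') = X(a b', z') - X(a b', T')` (`Psi`: `xx`; `S_E10` first item for `kpO`).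
`S_R4` for `d` (`cjI d = a b'`): `c (X(d, z)) * kpO (a b') = X(a b', z') - X(a b', ptT (a b'))`. `X(a b', T') = X(a b', ptT (a b'))`: `S_L6` third item (`ptT (a * b') ∓ ptT b' ∈ Lam (a * b')`, `a` prime to `3` by `pri_mono`) and the periods and parity of `S_B1`. `kpO (a b') ≠ 0` (`S_B7`: `kpC ≠ 0`, `S_R4`: `io (kpO) = kpC`). So `τ (c (X(b, z))) = c (X(d, z))`, apply `c`.
THEOREM `tCjX : S_Cj1 → S_B1 → S_B7 → S_E10 → S_L2 → S_L6a → S_L6 → S_O3 → S_R4 → S_CjX`. -/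
def S_CjX : Prop :=
  ∀ (k t : ℕ) [SqT k t] (c : Gal(Om/ℚ)), IsCj c → ∀ τ ∈ GK k t, ∀ n a : Ideal (OO k t), n ≠ ⊥ →
    n ≤ sN k t 3 → Psi τ n a → ∀ b : Ideal (OO k t), b ≠ ⊥ → ∀ z ∈ Lam (cjI n * b),
      (c * τ * c) (xO b z) = xO (cjI a * b) z

/-- MODULE `CjA` (90 lines; from `S_CjX`, `S_B1`, `S_B4`, `S_L6a`, `S_L6`, `S_O3`, `S_O4`, `S_R1`, `S_R4`). COMPLEX CONJUGATION AND THE NUMBERS `Al`. PROOF. (1) FOR EVERY `e ≠ ⊥` AND `T, S` WITH `T - ptT e` OR `T + ptT e` IN `Lam e`, `S - ptS e` OR `S + ptS e` IN `Lam e`: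
`xO e T ≠ 0` and `aO e * xO e T + 1 = (xO e (T + S) + xO e (T - S)) * xO e T ^ 2`. Indeed by `S_L6a` `T ∉ Lam e`, `T + S ∉ Lam e`, `T - S ∉ Lam e`, so `S_B4` (first part, items 1 and 3) for `z = T` gives this with `ptS e` instead of `S` for `XC`, `AC`; the sum `X(T + S) + X(T - S)` does not change
if `S` is replaced by `- S` or by `S` plus a period (`S_B1`), `io_inj` with `io (xO e y) = XC e y` for torsion points (`S_R4`; the points are in `Lam (sN k t 3 * e)`), `io (aO e) = AC e` (`S_R1`). (2) Let `d = cjI a * b`, `T = ptT b`, `S = ptS b`. By `S_L6` (third item for `cjI a`, which is prime to `3`: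
`S_O3` (5), (6), and `pri_mono`) `T, S` satisfy the hypotheses of (1) for `e = d`, and for `e = b`. `T`, `T + S`, `T - S` are in `Lam (cjI n * b)`: they are in `Lam (pp * b)`, `Lam (ppb * b)`, so in `Lam (sN k t 3 * b)` (`sN k t 3 ≤ pp k t`, `≤ ppb k t` by `S_O4`), and `cjI n ≤ cjI (sN k t 3) = sN k t 3` (`S_O3` (1), (5)). Let
`σ = c * τ * c`. `S_CjX`: `σ (xO b y) = xO d y` for these three `y`. Apply `σ` to (1) for `b` and compare with (1) for `d`: `σ (aO b) * xO d T = aO d * xO d T`, cancel `xO d T ≠ 0`.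
THEOREM `tCjA : S_CjX → S_B1 → S_B4 → S_L6a → S_L6 → S_O3 → S_O4 → S_R1 → S_R4 → S_CjA`. -/
def S_CjA : Prop :=
  ∀ (k t : ℕ) [SqT k t] (c : Gal(Om/ℚ)), IsCj c → ∀ τ ∈ GK k t, ∀ n a : Ideal (OO k t), n ≠ ⊥ →
    n ≤ sN k t 3 → Psi τ n a → ∀ b : Ideal (OO k t), b ≠ ⊥ → (c * τ * c) (aO b) = aO (cjI a * b)

/-- MODULE `CjP` (70 lines; from `S_Cj1`, `S_CjX`, `S_CjA`, `S_E1`, `S_O3`). `S_E9`, FIRST ITEM. PROOF. The first statements are `S_Cj1`. Let `Psi τ n a`, `n' = n * sN k t 3`, so `n' ≠ ⊥`, `n' ≤ n`, `n' ≤ sN k t 3` (`Ideal.mul_le_left`, `Ideal.mul_le_right`). `S_E1` (1): `Psi τ n' a'`;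
`S_E1` (5): `Psi τ n a'`, so `Ray n a' a` (`S_E1` (2)), `Ray (cjI n) (cjI a') (cjI a)` (`S_O3` (8)). `Psi (c τ c) (cjI n') (cjI a')`: `ne`: `ne_cj`; `cop`: `S_O3` (6); `aa`: `S_CjA`; `xx`: `S_CjX`. `cjI n' ≤ cjI n` (`S_O3` (1)), so `Psi (c τ c) (cjI n) (cjI a')` (`psi_level`), and
`S_E1` (3) for `cjI n ≠ ⊥` (note: `S_E1` (3) needs no hypothesis on `τ`). THEOREM `tCjP : S_Cj1 → S_CjX → S_CjA → S_E1 → S_O3 → S_CjP`. -/
def S_CjP : Prop :=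
  ∀ (k t : ℕ) [SqT k t] (c : Gal(Om/ℚ)), IsCj c → c * c = 1 ∧ c (wO k t) = t - wO k t ∧
      ∀ τ ∈ GK k t, c * τ * c ∈ GK k t ∧ ∀ n a : Ideal (OO k t), n ≠ ⊥ → Psi τ n a →
        Psi (c * τ * c) (cjI n) (cjI a)

/-- MODULE `CjN` (60 lines; from `S_Cj1`, `S_CjP`, `S_Ab`, `S_R4`; adapt the end of `DK/E/Cj.lean`: `Cj_fix`, `tCj`). NORMALITY OVER `ℚ`. PROOF. `c` from `S_R4`. Let `x ∈ FixI n H`, `g ∈ Gal(Om/ℚ)`. If `g ∈ GK k t`: `S_Ab`. Otherwise `c * g ∈ GK k t` (`S_Cj1`), `y = (c * g) x ∈ FixI n H`, and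
`g x = c y`. `c y ∈ FixI n H`: let `τ ∈ GK k t`, `Psi τ n a`, `H a`: `c τ c ∈ GK k t`, `Psi (c τ c) n (cjI a)` (`cjI n = n`), `H (cjI a)`, so `c τ c y = y`, `τ (c y) = c y` (`c * c = 1`).
THEOREM `tCjN : S_Cj1 → S_CjP → S_Ab → S_R4 → S_CjN`. -/
def S_CjN : Prop :=
  ∀ (k t : ℕ) [SqT k t] (n : Ideal (OO k t)) (H : Ideal (OO k t) → Prop), n ≠ ⊥ →
    (∀ a a', H a → Ray n a a' → H a') → cjI n = n → (∀ a, H a → H (cjI a)) →
    ∀ τ : Gal(Om/ℚ), ∀ x ∈ FixI n H, τ x ∈ FixI n H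

/-- The hypotheses on `H` in `S_E8` and `S_E9`. -/
structure HG (n : Ideal (OO k t)) (H : Ideal (OO k t) → Prop) : Prop where
  top : H ⊤
  cop : ∀ a, H a → a ≠ ⊥ ∧ PrI a n
  ray : ∀ a a', H a → Ray n a a' → H a'
  mul : ∀ a a', H a → H a' → H (a * a')
  cj : ∀ a, H a → H (cjI a)

/-- MODULE `H3M` (150 lines; from `S_O2`, `S_O3`, `S_O6`, `S_O7`, `S_O9`; adapt `DK/E/H2M.lean`). THE GROUPS `H3 f`, `H3N f N`. PROOF. `n = sN k t (3 * f)`, `≠ ⊥` (`ne_sN`). (A) `H3 f`. `top`: `j = 0`, `S_O7` (1). `cop`: `Ray n (a ^ 3 ^ j) ⊤`, so `a ^ 3 ^ j ≠ ⊥` and `PrI (a ^ 3 ^ j) n`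
(`S_O7` (6)), so `a ≠ ⊥` and `PrI a n` (`a ^ 3 ^ j ≤ a`). `ray`: `Ray n (a ^ m) (a' ^ m)` by induction (`S_O7` (1), (4)), (2), (3). `mul`: `(a a') ^ 3 ^ (j + j') = (a ^ 3 ^ j) ^ 3 ^ j' * (a' ^ 3 ^ j') ^ 3 ^ j`, and
`Ray n (⊤ ^ m) ⊤`. `cj`: `cjI (a ^ m) = (cjI a) ^ m` (`S_O3` (2), induction, `cjI ⊤ = ⊤`: `cjI (sp 1) = sp (cjO 1)`), `S_O3` (8), (5). (B) `H3N f N` modulo `sN k t (f * 3 ^ N)`, `1 ≤ N`. `cop`: `PrI a (sN k t (3 * f))` gives `(NI a).Coprime (3 * f)` (`S_O6` (5)), so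
`(NI a).Coprime (f * 3 ^ N)`. `ray`: `3 * f ∣ f * 3 ^ N`, `S_O7` (7) (`sN_le`), `S_O9` for `f * 3 ^ N`. `mul`: `NI (a a') = NI a NI a'` (`S_O2`). `cj`: `NI (cjI a) = NI a` (`S_O3` (3)).
THEOREM `tH3M : S_O2 → S_O3 → S_O6 → S_O7 → S_O9 → S_H3M`. -/
def S_H3M : Prop :=
  ∀ (k t : ℕ) [SqT k t] (f : ℕ), 0 < f →
    HG (sN k t (3 * f)) (H3 (k := k) (t := t) f) ∧
    ∀ N : ℕ, 1 ≤ N → HG (sN k t (f * 3 ^ N)) (H3N (k := k) (t := t) f N)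

/-- MODULE `HPM` (180 lines; from `S_O2`, `S_O3`, `S_O6`, `S_O7`, `S_O9`, `S_H3M`; adapt `DK/E/HPM.lean`). THE GROUPS `HP f`, `HPN f N`. PROOF. `n = sN k t (3 * f)`. (A) `HP f`: `Ray n a (sp v)`, `v ≠ 0`, `Hf f v` (`PrI (sp v) n`, `3 f ∣ v ^ 3 ^ j - 1`). `top`: `v = 1`, `sp 1 = ⊤`. `cop`: `sp v ≠ ⊥`,
`S_O7` (6). `ray`: `S_O7` (2), (3). `mul`: `sp v * sp v' = sp (v v')` (`Ideal.span_singleton_mul_span_singleton`), `S_O7` (4), `pri_mul`, `v ^ 3 ^ j = 1` modulo `3 f` implies `v ^ 3 ^ i = 1` for `i ≥ j`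
(`sub_dvd_pow_sub_pow`). `cj`: `S_O3` (8), (5), (4), (6), `cjO (v ^ m - 1) = cjO v ^ m - 1`, `cjO_nat`. (B) `HPN f N` modulo `sN k t (f * 3 ^ N)`, `1 ≤ N`: the same with `HN f N v`; `PrI (sp v) (sN k t (f * 3 ^ N))` follows from `PrI (sp v) (sN k t (3 * f))` (`S_O6` (5));
`Nm (v v') = Nm v Nm v'`, `Nm (cjO v) = Nm v`. (C) `HP f a` implies `H3 f a`: `Ray n (a ^ m) (sp (v ^ m))`, `m = 3 ^ j`, and `Ray n (sp (v ^ m)) (sp 1)` by `S_O7` (8) (`v ^ m - 1 ∈ n`). `HPN f N a` implies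
`H3N f N a`: `Ray (sN k t (3 * f)) a (sp v)` by `S_O7` (7), and (C); `NI a = NI (sp v) = Nm v` modulo `f * 3 ^ N` by `S_O9`, `S_O2` (4).
THEOREM `tHPM : S_O2 → S_O3 → S_O6 → S_O7 → S_O9 → S_H3M → S_HPM`. -/
def S_HPM : Prop :=
  ∀ (k t : ℕ) [SqT k t] (f : ℕ), 0 < f →
    HG (sN k t (3 * f)) (HP (k := k) (t := t) f) ∧
    (∀ N : ℕ, 1 ≤ N → HG (sN k t (f * 3 ^ N)) (HPN (k := k) (t := t) f N)) ∧
    (∀ a : Ideal (OO k t), HP f a → H3 f a) ∧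
    ∀ (N : ℕ) (a : Ideal (OO k t)), 1 ≤ N → HPN f N a → H3N f N a

/-- **`S_E9`** (complete). -/
theorem sE9 (hP' : S_CjP) (hC : S_CjN) (h3 : S_H3M) (hP : S_HPM) (hO3 : S_O3) : S_E9 := by
  intro k t _
  refine ⟨fun c hc => hP' k t c hc, fun n H hn _ _ hr _ hcn hcj => hC k t n H hn hr hcn hcj, ?_⟩
  intro f hf
  have hf0 : 0 < f := hf.pos
  have h3f : sN k t (3 * f) ≠ ⊥ := ne_sN (by omega)
  have hfN : ∀ N : ℕ, sN k t (f * 3 ^ N) ≠ ⊥ := fun N => ne_sN (Nat.mul_pos hf0 (by positivity))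
  have cs : ∀ N : ℕ, cjI (sN k t N) = sN k t N := (hO3 k t).2.2.2.2.1
  obtain ⟨a1, a2⟩ := h3 k t f hf0
  obtain ⟨b1, b2, b3, b4⟩ := hP k t f hf0
  refine ⟨hC k t _ _ h3f b1.ray (cs _) b1.cj,
    fun N τ hN => hC k t _ _ (hfN N) (b2 N hN).ray (cs _) (b2 N hN).cj τ,
    hC k t _ _ h3f a1.ray (cs _) a1.cj,
    fun N τ hN => hC k t _ _ (hfN N) (a2 N hN).ray (cs _) (a2 N hN).cj τ, ?_, ?_⟩
  · intro x hx τ hτ a h1 h2
    exact hx τ hτ a h1 (b3 a h2)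
  · intro N hN x hx τ hτ a h1 h2
    exact hx τ hτ a h1 (b4 N a hN h2)

end Pool.Agent.DT.Eb
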